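import Pool.Agent.Helper725_DH.Fields

/-! Local conditions at finitely many odd primes. -/

set_option autoImplicit false

namespace Pool.Agent.Helper725_DH

open NumberField

theorem dR_map {R S : Type*} [CommRing R] [CommRing S] (φ : R →+* S) (v : R × R × R × R) :
    dR (φ v.1, φ v.2.1, φ v.2.2.1, φ v.2.2.2) = φ (dR v) := by
  simp only [dR, map_sub, map_mul, map_pow, map_ofNat]

theorem count_mul {m n : ℕ} [NeZero m] [NeZero n] [NeZero (m * n)] (h : m.Coprime n) (a : ℤ) :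
    (Finset.univ.filter (fun v : ZMod (m * n) × ZMod (m * n) × ZMod (m * n) × ZMod (m * n) =>
      dR v = (a : ZMod (m * n)))).card ≤
    (Finset.univ.filter (fun v : ZMod m × ZMod m × ZMod m × ZMod m =>
      dR v = (a : ZMod m))).card *
    (Finset.univ.filter (fun v : ZMod n × ZMod n × ZMod n × ZMod n =>
      dR v = (a : ZMod n))).card := by
  classical
  rw [← Finset.card_product]
  set e := ZMod.chineseRemainder h with he
  set φ : ZMod (m * n) →+* ZMod m := (RingHom.fst (ZMod m) (ZMod n)).comp e.toRingHom with hφ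
  set ψ : ZMod (m * n) →+* ZMod n := (RingHom.snd (ZMod m) (ZMod n)).comp e.toRingHom with hψ
  have hinj : ∀ x y, φ x = φ y → ψ x = ψ y → x = y := by
    intro x y h1 h2
    apply e.injective
    exact Prod.ext h1 h2
  apply Finset.card_le_card_of_injOn
    (fun v => ((φ v.1, φ v.2.1, φ v.2.2.1, φ v.2.2.2), (ψ v.1, ψ v.2.1, ψ v.2.2.1, ψ v.2.2.2)))
  · intro v hv
    have hv' := (Finset.mem_filter.1 hv).2
    simp only [Finset.coe_product, Set.mem_prod, Finset.mem_coe, Finset.mem_filter,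
      Finset.mem_univ, true_and]
    rw [dR_map, dR_map, hv', map_intCast, map_intCast]
    exact ⟨rfl, rfl⟩
  · intro v _ v' _ hvv
    simp only [Prod.mk.injEq] at hvv
    obtain ⟨⟨a1, a2, a3, a4⟩, b1, b2, b3, b4⟩ := hvv
    exact Prod.ext (hinj _ _ a1 b1) (Prod.ext (hinj _ _ a2 b2) (Prod.ext (hinj _ _ a3 b3)
      (hinj _ _ a4 b4)))

/-- the residue class attached to a completion at an odd prime -/
theorem p_class {q : ℕ} [Fact q.Prime] (h2 : q ≠ 2) {δ : ℚ_[q]} (h0 : δ ≠ 0)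
    (f : ℤ) (hf : ¬ (q : ℤ) ∣ f) :
    ∃ (Mq : ℕ) (b : ℤ), ((Mq = q ∧ ¬ (q : ℤ) ∣ b) ∨
      (Mq = q ^ 2 ∧ ∃ b₁ : ℤ, b = q * b₁ ∧ ¬ (q : ℤ) ∣ b₁)) ∧
      ∀ d : ℤ, (Mq : ℤ) ∣ f * d - b → IsSquare ((-d : ℚ_[q]) * δ) := by
  have hq : q.Prime := Fact.out
  have hqZ : Prime (q : ℤ) := Nat.prime_iff_prime_int.1 hq
  rcases Int.even_or_odd δ.valuation with he | ho
  · obtain ⟨u, hu, hδ⟩ := exists_unit_form h0
    obtain ⟨v, hv, y, hy⟩ := unit_mod_p u hu
    refine ⟨q, -f * v, Or.inl ⟨rfl, ?_⟩, ?_⟩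
    · intro h
      rcases hqZ.dvd_or_dvd h with h3 | h3
      · exact hf (by rwa [dvd_neg] at h3)
      · exact hv h3
    · intro d hd
      obtain ⟨k, hk⟩ := ((Prime.coprime_iff_not_dvd hqZ).2 hf).dvd_of_dvd_mul_left (by
        have : f * (d + v) = f * d - -f * v := by ring
        rwa [this] : (q : ℤ) ∣ f * (d + v))
      have hsq : IsSquare (((q : ℕ) : ℚ_[q]) ^ δ.valuation) := isSquare_zpow_even he
      have hvn : ‖(v : ℤ_[q])‖ = 1 := by
        apply le_antisymm (PadicInt.norm_le_one _)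
        rw [← not_lt, PadicInt.norm_int_lt_one_iff_dvd]
        exact hv
      have h6 := isSquare_odd h2 (v : ℤ_[q]) (v * y - k * v - q * k * y) hvn
      have h7 := h6.mul hsq
      have h8 : (-d : ℚ_[q]) * δ =
          (((v : ℤ_[q]) ^ 2 + q * (v * y - k * v - q * k * y) : ℤ_[q]) : ℚ_[q]) *
          (((q : ℕ) : ℚ_[q]) ^ δ.valuation) := by
        have h9 : (d : ℚ_[q]) + v = q * k := by
          exact_mod_cast congrArg (Int.cast : ℤ → ℚ_[q]) hk
        have h10 : (u : ℚ_[q]) = v + q * y := by rw [hy]; push_cast; rfl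
        nth_rewrite 1 [hδ]
        rw [h10]
        push_cast
        linear_combination (-(v + q * (y : ℚ_[q])) * (q : ℚ_[q]) ^ δ.valuation) * h9
      rw [h8]
      exact h7
  · obtain ⟨Mq, b, h3, h4⟩ := q_class h2 h0 (Or.inr ho) f hf
    exact ⟨Mq, b, h3, fun d hd => (h4 d hd).1⟩

/-- the residue class attached to completions at finitely many primes -/
theorem T_class (T : Finset ℕ) (hT : ∀ p ∈ T, p.Prime ∧ 5 ≤ p)
    (δ : ∀ (p : ℕ) [Fact p.Prime], ℚ_[p]) (hδ : ∀ p ∈ T, ∀ [Fact p.Prime], δ p ≠ 0)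
    (f : ℤ) (hf : f = 1 ∨ f = 4) :
    ∃ (m : ℕ) (b : ℤ) (_ : NeZero m), (∀ p : ℕ, p.Prime → p ∣ m → p ∈ T) ∧
      (∀ D : ℤ, (m : ℤ) ∣ D - b → ∀ p ∈ T, ¬ (p : ℤ) ^ 2 ∣ D) ∧
      (∀ d : ℤ, (m : ℤ) ∣ f * d - b → ∀ p ∈ T, ∀ [Fact p.Prime],
        IsSquare ((-d : ℚ_[p]) * δ p)) ∧
      (Finset.univ.filter (fun v : ZMod m × ZMod m × ZMod m × ZMod m =>
        dR v = ((-b : ℤ) : ZMod m))).card ≤ m ^ 3 := by
  classical
  induction T using Finset.induction_on with
  | empty =>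
    refine ⟨1, 0, ⟨one_ne_zero⟩, ?_, ?_, ?_, ?_⟩
    · intro p hp h
      exact absurd (Nat.dvd_one.1 h) hp.ne_one
    · intro D _ p hp
      exact absurd hp (Finset.notMem_empty p)
    · intro d _ p hp
      exact absurd hp (Finset.notMem_empty p)
    · refine (Finset.card_le_univ _).trans ?_
      decide
  | insert p T hpT ih =>
    obtain ⟨m, b, hm, h1, h2, h3, h4⟩ := ih (fun r hr => hT r (Finset.mem_insert_of_mem hr))
      (fun r hr => hδ r (Finset.mem_insert_of_mem hr))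
    obtain ⟨hp, hp5⟩ := hT p (Finset.mem_insert_self p T)
    have hpf : Fact p.Prime := ⟨hp⟩
    have hpz : Prime (p : ℤ) := Nat.prime_iff_prime_int.1 hp
    have hqf : ¬ (p : ℤ) ∣ f := by
      intro h
      rcases hf with rfl | rfl
      · have := Int.le_of_dvd (by norm_num) h
        omega
      · have := Int.le_of_dvd (by norm_num) h
        omega
    obtain ⟨Mq, c, hMq, hDq⟩ := p_class (by omega) (hδ p (Finset.mem_insert_self p T)) f hqf
    have hMqpow : ∃ k, Mq = p ^ k := by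
      rcases hMq with ⟨rfl, _⟩ | ⟨rfl, _⟩
      · exact ⟨1, by simp⟩
      · exact ⟨2, rfl⟩
    have hpm : ¬ p ∣ m := fun h => hpT (h1 p hp h)
    have hco : m.Coprime Mq := by
      obtain ⟨k, rfl⟩ := hMqpow
      exact Nat.Coprime.pow_right _ ((Nat.Prime.coprime_iff_not_dvd hp).2 hpm).symm
    have hMq0 : NeZero Mq := by
      obtain ⟨k, rfl⟩ := hMqpow
      exact ⟨pow_ne_zero _ hp.ne_zero⟩
    have hmM : NeZero (m * Mq) := ⟨mul_ne_zero hm.out hMq0.out⟩
    obtain ⟨e, e1, e2, _⟩ := crt3 hco (Nat.coprime_one_right m) (Nat.coprime_one_right Mq) b c 0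
    have d1 : (m : ℤ) ∣ ((m * Mq : ℕ) : ℤ) := by
      push_cast; exact Dvd.intro _ rfl
    have d2 : (Mq : ℤ) ∣ ((m * Mq : ℕ) : ℤ) := by
      push_cast; exact Dvd.intro_left _ rfl
    have k1 : ∀ D : ℤ, ((m * Mq : ℕ) : ℤ) ∣ D - e → (m : ℤ) ∣ D - b := by
      intro D hD
      have : D - b = (D - e) + (e - b) := by ring
      rw [this]
      exact dvd_add (d1.trans hD) e1
    have k2 : ∀ D : ℤ, ((m * Mq : ℕ) : ℤ) ∣ D - e → (Mq : ℤ) ∣ D - c := by
      intro D hD
      have : D - c = (D - e) + (e - c) := by ring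
      rw [this]
      exact dvd_add (d2.trans hD) e2
    refine ⟨m * Mq, e, hmM, ?_, ?_, ?_, ?_⟩
    · intro r hr hd
      rcases (Nat.Prime.dvd_mul hr).1 hd with h | h
      · exact Finset.mem_insert_of_mem (h1 r hr h)
      · obtain ⟨k, rfl⟩ := hMqpow
        have := (Nat.prime_dvd_prime_iff_eq hr hp).1 (hr.dvd_of_dvd_pow h)
        rw [this]
        exact Finset.mem_insert_self _ _
    · intro D hD r hr hrD
      rcases Finset.mem_insert.1 hr with rfl | hr'
      · have hqD := k2 D hD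
        rcases hMq with ⟨rfl, hb⟩ | ⟨rfl, b₁, hb, hb₁⟩
        · have h9 : (Mq : ℤ) ∣ D := (Dvd.intro _ (pow_two _).symm).trans hrD
          exact hb (by
            have := dvd_sub h9 hqD
            rwa [sub_sub_cancel] at this)
        · have h9 : (r : ℤ) ^ 2 ∣ c := by
            have h10 : ((r ^ 2 : ℕ) : ℤ) ∣ D - c := hqD
            push_cast at h10
            have := dvd_sub hrD h10
            rwa [sub_sub_cancel] at this
          rw [hb, pow_two] at h9
          exact hb₁ (Int.dvd_of_mul_dvd_mul_left (by exact_mod_cast hp.ne_zero) h9)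
      · exact h2 D (k1 D hD) r hr' hrD
    · intro d hd r hr hrf
      rcases Finset.mem_insert.1 hr with rfl | hr'
      · exact hDq d (k2 _ hd)
      · exact h3 d (k1 _ hd) r hr'
    · refine (count_mul hco (-e)).trans ?_
      have c1 : ((-e : ℤ) : ZMod m) = ((-b : ℤ) : ZMod m) := by
        apply (ZMod.intCast_eq_intCast_iff_dvd_sub _ _ _).2
        have : -b - -e = e - b := by ring
        rwa [this]
      have c2 : ((-e : ℤ) : ZMod Mq) = ((-c : ℤ) : ZMod Mq) := by
        apply (ZMod.intCast_eq_intCast_iff_dvd_sub _ _ _).2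
        have : -c - -e = e - c := by ring
        rwa [this]
      rw [c1, c2, mul_pow]
      refine Nat.mul_le_mul h4 ?_
      rcases hMq with ⟨rfl, hb⟩ | ⟨rfl, b₁, hb, hb₁⟩
      · apply count_p Mq (by omega)
        rw [Ne, ZMod.intCast_zmod_eq_zero_iff_dvd, dvd_neg]
        exact hb
      · have h5 : ((-c : ℤ) : ZMod (p ^ 2)) = (p : ZMod (p ^ 2)) * ((-b₁ : ℤ) : ZMod (p ^ 2)) := by
          rw [hb]; push_cast; ring
        rw [h5]
        have h6 : (p : ZMod (p ^ 2)) * ((-b₁ : ℤ) : ZMod (p ^ 2)) ≠ 0 := by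
          rw [← h5, Ne, ZMod.intCast_zmod_eq_zero_iff_dvd, dvd_neg, hb]
          intro h
          push_cast at h
          rw [pow_two] at h
          exact hb₁ (Int.dvd_of_mul_dvd_mul_left (by exact_mod_cast hp.ne_zero) h)
        have h7 := count_p2 p (by omega) ((-b₁ : ℤ) : ZMod (p ^ 2)) h6
        refine h7.trans (le_of_eq ?_)
        ring

end Pool.Agent.Helper725_DH
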