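import Mathlib

/-! Local counts at odd primes. -/

set_option autoImplicit false

namespace Pool.Agent.Helper725_DH

/-- the discriminant form over a commutative ring -/
def dR {R : Type*} [CommRing R] (v : R × R × R × R) : R :=
  (v.2.1 * v.2.2.1 - v.1 * v.2.2.2) ^ 2 -
    4 * (v.2.1 ^ 2 - v.1 * v.2.2.1) * (v.2.2.1 ^ 2 - v.2.1 * v.2.2.2)

section
variable {R : Type*} [CommRing R]

theorem inj_unit {δ a b c d a' c' d' C Y : R} (h4 : IsUnit (4 : R)) (ha : IsUnit a)
    (ha' : IsUnit a') (hC : IsUnit C) (e1 : a * C = -(b ^ 2 - a * c))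
    (e2 : a * Y = a ^ 2 * d + 2 * b ^ 3 - 3 * a * b * c)
    (e1' : a' * C = -(b ^ 2 - a' * c')) (e2' : a' * Y = a' ^ 2 * d' + 2 * b ^ 3 - 3 * a' * b * c')
    (k : Y ^ 2 - δ = -4 * a * C ^ 3) (k' : Y ^ 2 - δ = -4 * a' * C ^ 3) :
    a = a' ∧ c = c' ∧ d = d' := by
  have h1 : a = a' := by
    have h2 : (4 * C ^ 3) * a = (4 * C ^ 3) * a' := by linear_combination k - k'
    exact (h4.mul (hC.pow 3)).mul_left_cancel h2
  subst h1
  have h3 : c = c' := by
    apply ha.mul_left_cancel
    linear_combination e1' - e1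
  subst h3
  refine ⟨rfl, rfl, ?_⟩
  apply (ha.pow 2).mul_left_cancel
  linear_combination e2' - e2

/-- the key relation -/
theorem key_rel {a b c d C Y : R} (ha : IsUnit a) (e1 : a * C = -(b ^ 2 - a * c))
    (e2 : a * Y = a ^ 2 * d + 2 * b ^ 3 - 3 * a * b * c) :
    Y ^ 2 - dR (a, b, c, d) = -4 * a * C ^ 3 := by
  apply (ha.pow 2).mul_left_cancel
  have h1 : a ^ 2 * (-4 * a * C ^ 3) = -4 * (a * C) ^ 3 := by ring
  have h2 : a ^ 2 * (Y ^ 2 - dR (a, b, c, d)) = (a * Y) ^ 2 - a ^ 2 * dR (a, b, c, d) := by ring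
  rw [h1, h2, e1, e2]
  simp only [dR]
  ring

end

theorem count_p (p : ℕ) [Fact p.Prime] (h2 : p ≠ 2) (δ : ZMod p) (hδ : δ ≠ 0) :
    (Finset.univ.filter (fun v : ZMod p × ZMod p × ZMod p × ZMod p => dR v = δ)).card ≤ p ^ 3 := by
  classical
  have h4 : (4 : ZMod p) ≠ 0 := by
    have h2' : (2 : ZMod p) ≠ 0 := by
      intro h
      have h3 : ((2 : ℕ) : ZMod p) = 0 := by exact_mod_cast h
      rw [ZMod.natCast_eq_zero_iff] at h3
      exact h2 ((Nat.prime_dvd_prime_iff_eq Fact.out Nat.prime_two).1 h3)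
    have : (4 : ZMod p) = 2 * 2 := by norm_num
    rw [this]
    exact mul_ne_zero h2' h2'
  set CC : ZMod p × ZMod p × ZMod p × ZMod p → ZMod p :=
    fun v => -(v.2.1 ^ 2 - v.1 * v.2.2.1) / v.1 with hCC
  set YY : ZMod p × ZMod p × ZMod p × ZMod p → ZMod p :=
    fun v => (v.1 ^ 2 * v.2.2.2 + 2 * v.2.1 ^ 3 - 3 * v.1 * v.2.1 * v.2.2.1) / v.1 with hYY
  set Φ : ZMod p × ZMod p × ZMod p × ZMod p → ZMod p × ZMod p × ZMod p := fun v =>
    if v.1 = 0 then (v.2.1, 0, v.2.2.1) else
      if CC v = 0 then (v.2.1, v.1, YY v) else (v.2.1, CC v, YY v) with hΦ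
  have hcard : (Finset.univ : Finset (ZMod p × ZMod p × ZMod p)).card = p ^ 3 := by
    simp only [Finset.card_univ, Fintype.card_prod, ZMod.card]
    ring
  rw [← hcard]
  apply Finset.card_le_card_of_injOn Φ (fun _ _ => Finset.mem_univ _)
  rintro ⟨a, b, c, d⟩ hv ⟨a', b', c', d'⟩ hv' h
  simp only [Finset.coe_filter, Finset.mem_univ, true_and, Set.mem_ofPred_eq] at hv hv'
  have rel : ∀ a b c d : ZMod p, a ≠ 0 → a * CC (a, b, c, d) = -(b ^ 2 - a * c) ∧
      a * YY (a, b, c, d) = a ^ 2 * d + 2 * b ^ 3 - 3 * a * b * c := by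
    intro a b c d ha
    simp only [hCC, hYY]
    constructor <;> field_simp
  have rel2 : ∀ a b c d : ZMod p, a ≠ 0 → dR (a, b, c, d) = δ →
      YY (a, b, c, d) ^ 2 - δ = -4 * a * CC (a, b, c, d) ^ 3 := by
    intro a b c d ha h
    have := key_rel (IsUnit.mk0 a ha) (rel a b c d ha).1 (rel a b c d ha).2
    rwa [h] at this
  by_cases ha : a = 0
  · have hb : b ≠ 0 := by
      rintro rfl
      apply hδ
      rw [← hv, ha]
      simp [dR]
    by_cases ha' : a' = 0
    · simp only [hΦ, ha, ha', if_true, Prod.mk.injEq, true_and] at h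
      obtain ⟨h1, h3⟩ := h
      subst h1 h3 ha ha'
      have : d = d' := by
        apply mul_left_cancel₀ (mul_ne_zero h4 (pow_ne_zero 3 hb))
        simp only [dR] at hv hv'
        linear_combination hv - hv'
      rw [this]
    · exfalso
      simp only [hΦ, ha, ha', if_true, if_false] at h
      split_ifs at h with h5
      · simp only [Prod.mk.injEq] at h
        exact ha' h.2.1.symm
      · simp only [Prod.mk.injEq] at h
        exact h5 h.2.1.symm
  · by_cases ha' : a' = 0
    · exfalso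
      simp only [hΦ, ha, ha', if_true, if_false] at h
      split_ifs at h with h5
      · simp only [Prod.mk.injEq] at h
        exact ha h.2.1
      · simp only [Prod.mk.injEq] at h
        exact h5 h.2.1
    · have k := rel2 a b c d ha hv
      have k' := rel2 a' b' c' d' ha' hv'
      have r := rel a b c d ha
      have r' := rel a' b' c' d' ha'
      simp only [hΦ, ha, ha', if_false] at h
      by_cases h5 : CC (a, b, c, d) = 0
      · by_cases h6 : CC (a', b', c', d') = 0
        · rw [if_pos h5, if_pos h6] at h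
          simp only [Prod.mk.injEq] at h
          obtain ⟨h7, h8, h9⟩ := h
          subst h7 h8
          have hc : c = c' := by
            apply mul_left_cancel₀ ha
            have r1 := r.1
            have r1' := r'.1
            rw [h5] at r1
            rw [h6] at r1'
            linear_combination r1' - r1
          subst hc
          have hd : d = d' := by
            apply mul_left_cancel₀ (pow_ne_zero 2 ha)
            have r2 := r.2
            have r2' := r'.2
            rw [← h9] at r2'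
            linear_combination r2' - r2
          rw [hd]
        · exfalso
          rw [if_pos h5, if_neg h6] at h
          simp only [Prod.mk.injEq] at h
          obtain ⟨h7, h8, h9⟩ := h
          rw [h9] at k
          rw [k', h5] at k
          have h10 : (4 * a') * CC (a', b', c', d') ^ 3 = 0 := by linear_combination -k
          exact (mul_ne_zero (mul_ne_zero h4 ha') (pow_ne_zero 3 h6)) h10
      · by_cases h6 : CC (a', b', c', d') = 0
        · exfalso
          rw [if_neg h5, if_pos h6] at h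
          simp only [Prod.mk.injEq] at h
          obtain ⟨h7, h8, h9⟩ := h
          rw [← h9, k, h6] at k'
          have h10 : (4 * a) * CC (a, b, c, d) ^ 3 = 0 := by linear_combination -k'
          exact (mul_ne_zero (mul_ne_zero h4 ha) (pow_ne_zero 3 h5)) h10
        · rw [if_neg h5, if_neg h6] at h
          simp only [Prod.mk.injEq] at h
          obtain ⟨h7, h8, h9⟩ := h
          have r1' := r'.1
          have r2' := r'.2
          rw [← h8, ← h7] at r1'
          rw [← h9, ← h7] at r2'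
          rw [← h8, ← h9] at k'
          obtain ⟨g1, g2, g3⟩ := inj_unit (IsUnit.mk0 _ h4) (IsUnit.mk0 a ha) (IsUnit.mk0 a' ha')
            (IsUnit.mk0 _ h5) r.1 r.2 r1' r2' k k'
          rw [g1, g2, g3, h7]

section
variable {p : ℕ} [Fact p.Prime]

theorem nonunit_sq {x : ZMod (p ^ 2)} (hx : ¬ IsUnit x) : ∃ y : ZMod (p ^ 2), x = (p : ZMod (p ^ 2)) * y := by
  have hp : p.Prime := Fact.out
  have : NeZero (p ^ 2) := ⟨pow_ne_zero 2 hp.ne_zero⟩
  have h1 : ¬ Nat.Coprime x.val (p ^ 2) := by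
    intro h
    apply hx
    have := (ZMod.isUnit_iff_coprime x.val (p ^ 2)).2 h
    rwa [ZMod.natCast_val, ZMod.cast_id'] at this
  have h2 : p ∣ x.val := by
    by_contra h
    exact h1 (((Nat.Prime.coprime_iff_not_dvd hp).2 h).symm.pow_right 2)
  obtain ⟨k, hk⟩ := h2
  refine ⟨k, ?_⟩
  have h3 : ((x.val : ℕ) : ZMod (p ^ 2)) = x := by rw [ZMod.natCast_val, ZMod.cast_id']; rfl
  rw [← h3, hk]
  push_cast
  rfl

omit [Fact p.Prime] in
theorem p_sq : (p : ZMod (p ^ 2)) * p = 0 := by
  have : ((p ^ 2 : ℕ) : ZMod (p ^ 2)) = 0 := ZMod.natCast_self _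
  push_cast at this
  rw [← this]; ring

theorem nonunit_p (y : ZMod (p ^ 2)) : ¬ IsUnit ((p : ZMod (p ^ 2)) * y) := by
  intro h
  have hp : p.Prime := Fact.out
  have h1 : (p : ZMod (p ^ 2)) * y * ((p : ZMod (p ^ 2)) * y) = 0 := by
    linear_combination (y * y) * p_sq (p := p)
  have h2 : (p : ZMod (p ^ 2)) * y = 0 := by
    apply h.mul_left_cancel
    rw [h1, mul_zero]
  rw [h2] at h
  have : Fact (1 < p ^ 2) := ⟨Nat.one_lt_pow two_ne_zero hp.one_lt⟩
  exact not_isUnit_zero h

theorem unit_add {x : ZMod (p ^ 2)} (hx : IsUnit x) (y : ZMod (p ^ 2)) :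
    IsUnit (x + (p : ZMod (p ^ 2)) * y) := by
  by_contra h
  obtain ⟨z, hz⟩ := nonunit_sq h
  have : x = (p : ZMod (p ^ 2)) * (z - y) := by linear_combination hz
  rw [this] at hx
  exact nonunit_p _ hx

end

theorem count_p2 (p : ℕ) [Fact p.Prime] [NeZero (p ^ 2)] (h2 : p ≠ 2) (δ₁ : ZMod (p ^ 2))
    (hδ : (p : ZMod (p ^ 2)) * δ₁ ≠ 0) :
    (Finset.univ.filter (fun v : ZMod (p ^ 2) × ZMod (p ^ 2) × ZMod (p ^ 2) × ZMod (p ^ 2) =>
      dR v = (p : ZMod (p ^ 2)) * δ₁)).card ≤ p ^ 6 := by
  classical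
  have hp : p.Prime := Fact.out
  have h4 : IsUnit (4 : ZMod (p ^ 2)) := by
    have h3 : Nat.Coprime 4 (p ^ 2) := by
      apply Nat.Coprime.pow_right
      have : Nat.Coprime (2 ^ 2) p :=
        Nat.Coprime.pow_left 2 ((Nat.coprime_primes Nat.prime_two hp).2 h2.symm)
      exact this
    have := (ZMod.isUnit_iff_coprime 4 (p ^ 2)).2 h3
    exact_mod_cast this
  set δ : ZMod (p ^ 2) := (p : ZMod (p ^ 2)) * δ₁ with hδdef
  set CC : ZMod (p ^ 2) × ZMod (p ^ 2) × ZMod (p ^ 2) × ZMod (p ^ 2) → ZMod (p ^ 2) :=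
    fun v => -(v.2.1 ^ 2 - v.1 * v.2.2.1) * v.1⁻¹ with hCC
  set YY : ZMod (p ^ 2) × ZMod (p ^ 2) × ZMod (p ^ 2) × ZMod (p ^ 2) → ZMod (p ^ 2) :=
    fun v => (v.1 ^ 2 * v.2.2.2 + 2 * v.2.1 ^ 3 - 3 * v.1 * v.2.1 * v.2.2.1) * v.1⁻¹ with hYY
  set Φ : ZMod (p ^ 2) × ZMod (p ^ 2) × ZMod (p ^ 2) × ZMod (p ^ 2) →
      ZMod (p ^ 2) × ZMod (p ^ 2) × ZMod (p ^ 2) := fun v =>
    if IsUnit v.1 then (v.2.1, CC v, YY v) else
      if IsUnit v.2.1 then (v.2.2.1, v.2.1, v.1) else (v.2.2.2, v.2.1, v.2.2.1) with hΦ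
  have hcard : (Finset.univ : Finset (ZMod (p ^ 2) × ZMod (p ^ 2) × ZMod (p ^ 2))).card = p ^ 6 := by
    simp only [Finset.card_univ, Fintype.card_prod, ZMod.card]
    ring
  rw [← hcard]
  apply Finset.card_le_card_of_injOn Φ (fun _ _ => Finset.mem_univ _)
  rintro ⟨a, b, c, d⟩ hv ⟨a', b', c', d'⟩ hv' h
  simp only [Finset.coe_filter, Finset.mem_univ, true_and, Set.mem_ofPred_eq] at hv hv'
  have rel : ∀ a b c d : ZMod (p ^ 2), IsUnit a → a * CC (a, b, c, d) = -(b ^ 2 - a * c) ∧
      a * YY (a, b, c, d) = a ^ 2 * d + 2 * b ^ 3 - 3 * a * b * c := by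
    intro a b c d ha
    have h5 : a * a⁻¹ = 1 := ZMod.mul_inv_of_unit a ha
    simp only [hCC, hYY]
    constructor
    · linear_combination (-(b ^ 2 - a * c)) * h5
    · linear_combination (a ^ 2 * d + 2 * b ^ 3 - 3 * a * b * c) * h5
  have rel2 : ∀ a b c d : ZMod (p ^ 2), IsUnit a → dR (a, b, c, d) = δ →
      YY (a, b, c, d) ^ 2 - δ = -4 * a * CC (a, b, c, d) ^ 3 := by
    intro a b c d ha h
    have := key_rel ha (rel a b c d ha).1 (rel a b c d ha).2
    rwa [h] at this
  have pp := p_sq (p := p)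
  have hCu : ∀ a b c d : ZMod (p ^ 2), IsUnit a → dR (a, b, c, d) = δ →
      IsUnit (CC (a, b, c, d)) ∧ IsUnit (YY (a, b, c, d)) := by
    intro a b c d ha h
    have k := rel2 a b c d ha h
    have hC : IsUnit (CC (a, b, c, d)) := by
      by_contra hC
      obtain ⟨z, hz⟩ := nonunit_sq hC
      rw [hz] at k
      have k1 : YY (a, b, c, d) ^ 2 = δ := by
        linear_combination k + (-4 * a * (p : ZMod (p ^ 2)) * z ^ 3) * pp
      by_cases hY : IsUnit (YY (a, b, c, d))
      · have := hY.pow 2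
        rw [k1, hδdef] at this
        exact nonunit_p _ this
      · obtain ⟨y, hy⟩ := nonunit_sq hY
        apply hδ
        rw [← k1, hy]
        linear_combination (y ^ 2) * pp
    refine ⟨hC, ?_⟩
    by_contra hY
    obtain ⟨y, hy⟩ := nonunit_sq hY
    have h5 : IsUnit (-4 * a * CC (a, b, c, d) ^ 3) := by
      have : -4 * a * CC (a, b, c, d) ^ 3 = -(4 * a * CC (a, b, c, d) ^ 3) := by ring
      rw [this]
      exact ((h4.mul ha).mul (hC.pow 3)).neg
    rw [← k, hy, hδdef] at h5
    have h6 : ((p : ZMod (p ^ 2)) * y) ^ 2 - (p : ZMod (p ^ 2)) * δ₁ =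
        (p : ZMod (p ^ 2)) * ((p : ZMod (p ^ 2)) * y ^ 2 - δ₁) := by ring
    rw [h6] at h5
    exact nonunit_p _ h5
  by_cases ha : IsUnit a
  · obtain ⟨hC, hY⟩ := hCu a b c d ha hv
    by_cases ha' : IsUnit a'
    · simp only [hΦ, ha, ha', if_true, Prod.mk.injEq] at h
      obtain ⟨h7, h8, h9⟩ := h
      have k := rel2 a b c d ha hv
      have k' := rel2 a' b' c' d' ha' hv'
      have r := rel a b c d ha
      have r' := rel a' b' c' d' ha'
      have r1' := r'.1
      have r2' := r'.2
      rw [← h8, ← h7] at r1'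
      rw [← h9, ← h7] at r2'
      rw [← h8, ← h9] at k'
      obtain ⟨g1, g2, g3⟩ := inj_unit h4 ha ha' hC r.1 r.2 r1' r2' k k'
      rw [g1, g2, g3, h7]
    · exfalso
      simp only [hΦ, ha, ha', if_true, if_false] at h
      by_cases hb' : IsUnit b'
      · simp only [hb', if_true, Prod.mk.injEq] at h
        rw [h.2.2] at hY
        exact ha' hY
      · simp only [hb', if_false, Prod.mk.injEq] at h
        rw [h.2.1] at hC
        exact hb' hC
  · by_cases ha' : IsUnit a'
    · exfalso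
      obtain ⟨hC, hY⟩ := hCu a' b' c' d' ha' hv'
      simp only [hΦ, ha, ha', if_true, if_false] at h
      by_cases hb : IsUnit b
      · simp only [hb, if_true, Prod.mk.injEq] at h
        rw [← h.2.2] at hY
        exact ha hY
      · simp only [hb, if_false, Prod.mk.injEq] at h
        rw [← h.2.1] at hC
        exact hb hC
    · simp only [hΦ, ha, ha', if_false] at h
      obtain ⟨a₁, ha₁⟩ := nonunit_sq ha
      obtain ⟨a₁', ha₁'⟩ := nonunit_sq ha'
      by_cases hb : IsUnit b
      · by_cases hb' : IsUnit b'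
        · simp only [hb, hb', if_true, Prod.mk.injEq] at h
          obtain ⟨h7, h8, h9⟩ := h
          subst h7 h8 h9
          have h5 : IsUnit (4 * b ^ 3 + (p : ZMod (p ^ 2)) *
            (-6 * a₁ * b * c + (p : ZMod (p ^ 2)) * a₁ ^ 2 * (d + d'))) :=
            unit_add (h4.mul (hb.pow 3)) _
          have h6 : d = d' := by
            apply h5.mul_left_cancel
            simp only [dR] at hv hv'
            rw [ha₁] at hv hv'
            linear_combination hv - hv'
          rw [h6]
        · exfalso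
          simp only [hb, hb', if_true, if_false, Prod.mk.injEq] at h
          rw [h.2.1] at hb
          exact hb' hb
      · by_cases hb' : IsUnit b'
        · exfalso
          simp only [hb, hb', if_true, if_false, Prod.mk.injEq] at h
          rw [h.2.1] at hb
          exact hb hb'
        · simp only [hb, hb', if_false, Prod.mk.injEq] at h
          obtain ⟨h7, h8, h9⟩ := h
          subst h7 h8 h9
          obtain ⟨b₁, hb₁⟩ := nonunit_sq hb
          have e1 : 4 * a * c ^ 3 = δ := by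
            rw [← hv]
            simp only [dR]
            rw [ha₁, hb₁]
            linear_combination (3 * b₁ ^ 2 * c ^ 2 + 6 * a₁ * b₁ * c * d - a₁ ^ 2 * d ^ 2 -
              4 * (p : ZMod (p ^ 2)) * b₁ ^ 3 * d) * pp
          have e2 : 4 * a' * c ^ 3 = δ := by
            rw [← hv']
            simp only [dR]
            rw [ha₁', hb₁]
            linear_combination (3 * b₁ ^ 2 * c ^ 2 + 6 * a₁' * b₁ * c * d - a₁' ^ 2 * d ^ 2 -
              4 * (p : ZMod (p ^ 2)) * b₁ ^ 3 * d) * pp
          have hc : IsUnit c := by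
            by_contra hc
            obtain ⟨c₁, hc₁⟩ := nonunit_sq hc
            apply hδ
            rw [← e1, hc₁]
            linear_combination (4 * a * (p : ZMod (p ^ 2)) * c₁ ^ 3) * pp
          have e3 : a = a' := by
            apply (h4.mul (hc.pow 3)).mul_left_cancel
            linear_combination e1 - e2
          rw [e3]

end Pool.Agent.Helper725_DH
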