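import Pool.Agent.Helper725_DH.Lat1

/-! A lower bound for the number of squarefree integers in a residue class. -/

set_option autoImplicit false

namespace Pool.Agent.Helper725_DH

open Finset

/-- the set of discriminants -/
noncomputable def DD (M : ℕ) (D₀ : ℤ) (w : ℕ) : Finset ℤ := by
  classical
  exact (Finset.Ioc (4 * (w : ℤ) ^ 24) (9 * (w : ℤ) ^ 24)).filter
    (fun D => (M : ℤ) ∣ D - D₀ ∧ ∀ p : ℕ, p.Prime → 5 ≤ p → p.Coprime M → ¬ ((p : ℤ) ^ 2 ∣ D))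

theorem mem_DD {M : ℕ} {D₀ : ℤ} {w : ℕ} {D : ℤ} : D ∈ DD M D₀ w ↔
    (4 * (w : ℤ) ^ 24 < D ∧ D ≤ 9 * (w : ℤ) ^ 24) ∧ (M : ℤ) ∣ D - D₀ ∧
    ∀ p : ℕ, p.Prime → 5 ≤ p → p.Coprime M → ¬ ((p : ℤ) ^ 2 ∣ D) := by
  classical
  unfold DD
  rw [Finset.mem_filter, Finset.mem_Ioc]

theorem inv_sq_sum (n : ℕ) : ∑ j ∈ Finset.range n, 1 / (2 * (j : ℝ) + 5) ^ 2 ≤
    1 / 8 - 1 / (4 * ((n : ℝ) + 2)) := by
  induction n with
  | zero => norm_num
  | succ n ih =>
    rw [Finset.sum_range_succ]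
    have h : 1 / ((2 * (n : ℝ) + 5)) ^ 2 ≤ 1 / (4 * (n + 2)) - 1 / (4 * ((n + 1 : ℕ) + 2)) := by
      push_cast
      rw [div_sub_div _ _ (by positivity) (by positivity), div_le_div_iff₀ (by positivity)
        (by positivity)]
      have : (0 : ℝ) ≤ n := by positivity
      nlinarith
    linarith

theorem sieve {M : ℕ} (hM : 0 < M) (D₀ : ℤ) (w : ℕ) :
    (35 / 8 * (w : ℝ) ^ 24 / M - 3 * w ^ 12 - 1 : ℝ) ≤ ((DD M D₀ w).card : ℝ) := by
  classical
  have hM' : (0 : ℤ) < M := by exact_mod_cast hM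
  have hMr : (0 : ℝ) < M := by exact_mod_cast hM
  set base := (Finset.Ioc (4 * (w : ℤ) ^ 24) (9 * (w : ℤ) ^ 24)).filter
    (fun D => D ≡ D₀ [ZMOD M]) with hbase
  set bad : ℕ → Finset ℤ := fun j => base.filter (fun D =>
    (2 * j + 5 : ℕ).Coprime M ∧ ((2 * j + 5 : ℕ) : ℤ) ^ 2 ∣ D) with hbad
  have h1 : (5 * (w : ℝ) ^ 24 / M - 1 : ℝ) ≤ (base.card : ℝ) := by
    have h2 := Int.Ioc_filter_modEq_card (4 * (w : ℤ) ^ 24) (9 * (w : ℤ) ^ 24) hM' D₀
    have h3 : (⌊((9 * (w : ℤ) ^ 24 : ℤ) - (D₀ : ℤ)) / (M : ℚ)⌋ -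
      ⌊((4 * (w : ℤ) ^ 24 : ℤ) - (D₀ : ℤ)) / (M : ℚ)⌋ : ℤ) ≤ (base.card : ℤ) := by
      rw [hbase, h2]
      refine le_trans (le_of_eq ?_) (le_max_left _ _)
      push_cast
      rfl
    have h4 : ((5 * (w : ℚ) ^ 24 / M - 1 : ℚ)) ≤
        ((⌊((9 * (w : ℤ) ^ 24 : ℤ) - (D₀ : ℤ)) / (M : ℚ)⌋ -
      ⌊((4 * (w : ℤ) ^ 24 : ℤ) - (D₀ : ℤ)) / (M : ℚ)⌋ : ℤ) : ℚ) := by
      push_cast
      have k1 := Int.lt_floor_add_one (((9 * (w : ℚ) ^ 24) - (D₀ : ℚ)) / (M : ℚ))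
      have k2 := Int.floor_le (((4 * (w : ℚ) ^ 24) - (D₀ : ℚ)) / (M : ℚ))
      have k3 : ((9 * (w : ℚ) ^ 24) - (D₀ : ℚ)) / (M : ℚ) - ((4 * (w : ℚ) ^ 24) - (D₀ : ℚ)) / (M : ℚ)
        = 5 * (w : ℚ) ^ 24 / M := by ring
      linarith
    have h5 : ((5 * (w : ℚ) ^ 24 / M - 1 : ℚ)) ≤ (base.card : ℚ) := by
      refine h4.trans ?_
      exact_mod_cast h3
    have h6 : (((5 * (w : ℚ) ^ 24 / M - 1 : ℚ)) : ℝ) ≤ ((base.card : ℚ) : ℝ) := by
      exact_mod_cast h5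
    push_cast at h6
    exact h6
  have h2 : ∀ j, ((bad j).card : ℝ) ≤ 5 * (w : ℝ) ^ 24 / M * (1 / (2 * j + 5 : ℝ) ^ 2) + 1 := by
    intro j
    by_cases hc : (2 * j + 5 : ℕ).Coprime M
    · have h3 := card_int (bad j) (fun D => D) (fun _ _ _ _ h => h)
        (q := (M : ℤ) * ((2 * j + 5 : ℕ) : ℤ) ^ 2) (by positivity) (by
        intro D hD D' hD'
        simp only [hbad, hbase, Finset.mem_filter] at hD hD'
        have k1 : (M : ℤ) ∣ D - D' := by
          have := (hD'.1.2.trans hD.1.2.symm).dvd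
          exact this
        have k2 : ((2 * j + 5 : ℕ) : ℤ) ^ 2 ∣ D - D' := dvd_sub hD.2.2 hD'.2.2
        have k3 : IsCoprime (M : ℤ) (((2 * j + 5 : ℕ) : ℤ) ^ 2) := by
          apply IsCoprime.pow_right
          exact (Nat.isCoprime_iff_coprime.2 hc).symm
        exact k3.mul_dvd k1 k2) (A := 4 * (w : ℝ) ^ 24) (B := 9 * (w : ℝ) ^ 24)
        (by nlinarith [pow_nonneg (Nat.cast_nonneg (α := ℝ) w) 24]) (by
        intro D hD
        simp only [hbad, hbase, Finset.mem_filter, Finset.mem_Ioc] at hD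
        have k1 := hD.1.1.1
        have k2 := hD.1.1.2
        have k3 : ((4 * (w : ℤ) ^ 24 : ℤ) : ℝ) < D := by exact_mod_cast k1
        have k4 : (D : ℝ) ≤ ((9 * (w : ℤ) ^ 24 : ℤ) : ℝ) := by exact_mod_cast k2
        push_cast at k3 k4
        exact ⟨k3.le, k4⟩)
      refine h3.trans (le_of_eq ?_)
      push_cast
      field_simp
      ring
    · have : bad j = ∅ := by
        simp only [hbad]
        apply Finset.filter_false_of_mem
        intro D _ h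
        exact hc h.1
      rw [this, Finset.card_empty]
      have h9 : (0 : ℝ) ≤ 5 * (w : ℝ) ^ 24 / M * (1 / (2 * j + 5 : ℝ) ^ 2) := by positivity
      push_cast
      linarith
  have h3 : base \ (Finset.range (3 * w ^ 12)).biUnion bad ⊆ DD M D₀ w := by
    intro D hD
    rw [Finset.mem_sdiff, Finset.mem_biUnion] at hD
    obtain ⟨hD1, hD2⟩ := hD
    have hD1' := hD1
    simp only [hbase, Finset.mem_filter, Finset.mem_Ioc] at hD1
    rw [mem_DD]
    refine ⟨hD1.1, ?_, ?_⟩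
    · exact hD1.2.symm.dvd
    · intro p hp h5 hco hdvd
      apply hD2
      have hodd : p % 2 = 1 := by
        rcases hp.eq_two_or_odd with h | h
        · omega
        · exact h
      obtain ⟨j, hj⟩ : ∃ j, p = 2 * j + 5 := ⟨(p - 5) / 2, by omega⟩
      refine ⟨j, ?_, ?_⟩
      · rw [Finset.mem_range]
        by_contra hcon
        have k1 : (p : ℤ) ^ 2 ≤ D := Int.le_of_dvd (by
          have : (0 : ℤ) ≤ 4 * (w : ℤ) ^ 24 := by positivity
          omega) hdvd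
        have k2 : (3 * (w : ℤ) ^ 12) < p := by
          have : 3 * w ^ 12 < p := by omega
          exact_mod_cast this
        have k3 : (3 * (w : ℤ) ^ 12) ^ 2 < (p : ℤ) ^ 2 := by gcongr
        have k4 : (3 * (w : ℤ) ^ 12) ^ 2 = 9 * (w : ℤ) ^ 24 := by ring
        linarith [hD1.1.2]
      · simp only [hbad, Finset.mem_filter]
        exact ⟨hD1', hj ▸ hco, hj ▸ hdvd⟩
  have h4 := Finset.card_le_card h3
  have h5 := Finset.le_card_sdiff ((Finset.range (3 * w ^ 12)).biUnion bad) base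
  have h6 : (((Finset.range (3 * w ^ 12)).biUnion bad).card : ℝ) ≤
      5 * (w : ℝ) ^ 24 / M * (1 / 8) + 3 * w ^ 12 := by
    calc (((Finset.range (3 * w ^ 12)).biUnion bad).card : ℝ)
        ≤ ∑ j ∈ Finset.range (3 * w ^ 12), ((bad j).card : ℝ) := by
          exact_mod_cast Finset.card_biUnion_le
      _ ≤ ∑ j ∈ Finset.range (3 * w ^ 12), (5 * (w : ℝ) ^ 24 / M * (1 / (2 * j + 5 : ℝ) ^ 2) + 1) :=
          Finset.sum_le_sum (fun j _ => h2 j)
      _ = 5 * (w : ℝ) ^ 24 / M * (∑ j ∈ Finset.range (3 * w ^ 12), 1 / (2 * (j : ℝ) + 5) ^ 2) +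
          3 * w ^ 12 := by
          rw [Finset.sum_add_distrib, ← Finset.mul_sum]
          simp
      _ ≤ 5 * (w : ℝ) ^ 24 / M * (1 / 8) + 3 * w ^ 12 := by
          have := inv_sq_sum (3 * w ^ 12)
          have h7 : (0 : ℝ) ≤ 1 / (4 * (((3 * w ^ 12 : ℕ) : ℝ) + 2)) := by positivity
          gcongr
          linarith
  have h7 : (base.card : ℝ) - (((Finset.range (3 * w ^ 12)).biUnion bad).card : ℝ) ≤
      ((DD M D₀ w).card : ℝ) := by
    have : base.card ≤ (DD M D₀ w).card + ((Finset.range (3 * w ^ 12)).biUnion bad).card := by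
      omega
    have h8 : (base.card : ℝ) ≤ ((DD M D₀ w).card : ℝ) +
      (((Finset.range (3 * w ^ 12)).biUnion bad).card : ℝ) := by exact_mod_cast this
    linarith
  have e : 35 / 8 * (w : ℝ) ^ 24 / M = 5 * (w : ℝ) ^ 24 / M - 5 * (w : ℝ) ^ 24 / M * (1 / 8) := by
    ring
  rw [e]
  linarith

end Pool.Agent.Helper725_DH
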