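import Pool.Agent.Helper725_DH.Tup2

/-! If `3` divides the class number then there are two binary cubic forms. -/

set_option autoImplicit false

namespace Pool.Agent.Helper725_DH

open NumberField
open scoped nonZeroDivisors

/-- the conditions on the tuple `(a, b, c, d)` for the discriminant `-D` -/
def GoodTup (D : ℤ) (t : ℤ × ℤ × ℤ × ℤ) : Prop :=
  0 < t.1 ∧ 0 ≤ t.2.1 ∧ t.2.1 < t.1 ∧ 0 < t.2.1 ^ 2 - t.1 * t.2.2.1 ∧
    ((t.2.1 ^ 2 - t.1 * t.2.2.1 : ℤ) : ℝ) ≤ 2 / Real.pi * √(D : ℝ) ∧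
    disc4 t.1 t.2.1 t.2.2.1 t.2.2.2 = -D

variable {K : Type} [Field K] [NumberField K]

theorem two_tuples (h2 : Module.finrank ℚ K = 2) (hneg : discr K < 0)
    (h3 : 3 ∣ Nat.card (ClassGroup (𝓞 K))) :
    ∃ t1 t2 : ℤ × ℤ × ℤ × ℤ, t1 ≠ t2 ∧ GoodTup (-discr K) t1 ∧ GoodTup (-discr K) t2 := by
  obtain ⟨q⟩ := exists_QB h2
  have hD := q.hD
  have hneg' : q.T ^ 2 - 4 * q.n < 0 := by rw [← hD]; exact hneg
  have : Fact (Nat.Prime 3) := ⟨by norm_num⟩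
  have : Finite (ClassGroup (𝓞 K)) := inferInstance
  obtain ⟨c, hc⟩ := exists_prime_orderOf_dvd_card' 3 h3
  have hcpx : InfinitePlace.nrComplexPlaces K = 1 := by
    have h4 := sign_discr K
    rw [Int.sign_eq_neg_one_of_neg hneg] at h4
    have h5 := InfinitePlace.card_add_two_mul_card_eq_rank K
    rw [h2] at h5
    have h6 : InfinitePlace.nrComplexPlaces K ≠ 0 := by
      intro h0
      rw [h0] at h4
      norm_num at h4
    omega
  -- the construction for a class of order three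
  have main : ∀ x : ClassGroup (𝓞 K), orderOf x = 3 → ∃ t : ℤ × ℤ × ℤ × ℤ,
      GoodTup (-discr K) t ∧ ∃ I : (Ideal (𝓞 K))⁰, ClassGroup.mk0 I = x ∧ ∃ e : ℤ,
        t.2.1 * t.2.2.1 - t.1 * t.2.2.2 = 2 * e + q.T ∧
        (I : Ideal (𝓞 K)) ^ 3 = Ideal.span {((e * t.1 - (t.2.1 ^ 2 - t.1 * t.2.2.1) * t.2.1 : ℤ) :
          𝓞 K) + (t.1 : 𝓞 K) * q.w} := by
    intro x hx
    obtain ⟨I, hI, hIb, η, hη, h1⟩ := q.exists_prim x
    have hI0 : (I : Ideal (𝓞 K)) ≠ ⊥ := nonZeroDivisors.ne_zero I.2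
    have hnp : ¬ (I : Ideal (𝓞 K)).IsPrincipal := by
      intro h
      have h4 : ClassGroup.mk0 I = 1 := (ClassGroup.mk0_eq_one_iff I.2).2 h
      rw [hI] at h4
      rw [h4, orderOf_one] at hx
      omega
    have hmem3 : (I : Ideal (𝓞 K)) ^ 3 ∈ (Ideal (𝓞 K))⁰ := pow_mem I.2 3
    have e5 : (⟨(I : Ideal (𝓞 K)) ^ 3, hmem3⟩ : (Ideal (𝓞 K))⁰) = I ^ 3 :=
      Subtype.ext (SubmonoidClass.coe_pow I 3).symm
    have h4 : ClassGroup.mk0 (⟨(I : Ideal (𝓞 K)) ^ 3, hmem3⟩ : (Ideal (𝓞 K))⁰) = 1 := by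
      rw [e5, map_pow, hI, ← hx, pow_orderOf_eq_one]
    have h5 := (ClassGroup.mk0_eq_one_iff hmem3).1 h4
    obtain ⟨β, hβ'⟩ := h5.principal
    rw [Ideal.submodule_span_eq] at hβ'
    obtain ⟨a, b, c, d, e, k1, k2, k3, k4, k5, k6, k7⟩ :=
      q.tuple_of hneg' hI0 hη h1 (β := β) hβ' hnp
    refine ⟨(a, b, c, d), ⟨k1, k2, k3, ?_, ?_, ?_⟩, I, hI, e, k6, k7⟩
    · show 0 < b ^ 2 - a * c
      rw [k4]
      have := QB.absNorm_cast hI0
      omega
    · show ((b ^ 2 - a * c : ℤ) : ℝ) ≤ _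
      rw [k4, hcpx, h2] at *
      push_cast
      refine hIb.trans (le_of_eq ?_)
      have h6 : |(discr K : ℝ)| = ((-discr K : ℤ) : ℝ) := by
        rw [abs_of_neg (by exact_mod_cast hneg)]
        push_cast; rfl
      rw [h6]
      norm_num [Nat.factorial]
      ring
    · show disc4 a b c d = _
      rw [k5, ← hD]; ring
  have hc2 : orderOf (c ^ 2) = 3 := by
    rw [orderOf_pow' c (by norm_num), hc]
    norm_num
  obtain ⟨t1, g1, I1, hI1, e1, m1, s1⟩ := main c hc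
  obtain ⟨t2, g2, I2, hI2, e2, m2, s2⟩ := main (c ^ 2) hc2
  refine ⟨t1, t2, ?_, g1, g2⟩
  rintro rfl
  have he : e1 = e2 := by linarith
  subst he
  have hII : (I1 : Ideal (𝓞 K)) = I2 := QB.ideal_pow_inj (s1.trans s2.symm)
  have hII' : I1 = I2 := Subtype.ext hII
  rw [hII', hI2] at hI1
  -- c ^ 2 = c
  have h7 : c = 1 := by
    have h8 : c * c = c * 1 := by rw [mul_one, ← pow_two]; exact hI1
    exact mul_left_cancel h8
  rw [h7, orderOf_one] at hc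
  omega

end Pool.Agent.Helper725_DH
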