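import Pool.Agent.Helper725_DH.Core

/-! Few discriminants have class number divisible by three: general modulus at three. -/

set_option autoImplicit false

namespace Pool.Agent.Helper725_DH

open NumberField

/-- the upper bound for the bad discriminants -/
theorem bad_le3 {M₂ M₃ Mq : ℕ} [NeZero M₂] [NeZero M₃] [NeZero Mq] (h23 : M₂.Coprime M₃) (hq3 : Mq.Coprime M₃)
    (h2q : M₂.Coprime Mq) (D₀ : ℤ)
    (c2 : 2 * (Finset.univ.filter (fun v : ZMod M₂ × ZMod M₂ × ZMod M₂ × ZMod M₂ =>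
      dR v = ((-D₀ : ℤ) : ZMod M₂))).card ≤ 3 * M₂ ^ 3)
    (c3 : 9 * (Finset.univ.filter (fun v : ZMod M₃ × ZMod M₃ × ZMod M₃ × ZMod M₃ =>
      dR v = ((-D₀ : ℤ) : ZMod M₃))).card ≤ 8 * M₃ ^ 3)
    (cq : (Finset.univ.filter (fun v : ZMod Mq × ZMod Mq × ZMod Mq × ZMod Mq =>
      dR v = ((-D₀ : ℤ) : ZMod Mq))).card ≤ Mq ^ 3)
    {w : ℕ} (hw : 1 ≤ w) (B : Finset ℤ) (hB : ∀ D ∈ B, Bad D)
    (hB1 : ∀ D ∈ B, 4 * (w : ℤ) ^ 24 < D ∧ D ≤ 9 * (w : ℤ) ^ 24)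
    (hB2 : ∀ D ∈ B, ((M₂ * M₃ * Mq : ℕ) : ℤ) ∣ D - D₀) :
    (B.card : ℝ) ≤ 4 * (w : ℝ) ^ 24 / ((M₂ * M₃ * Mq : ℕ) : ℝ) +
      267 * ((M₂ * M₃ * Mq : ℕ) : ℝ) ^ 3 * (w : ℝ) ^ 23 := by
  classical
  set M : ℕ := M₂ * M₃ * Mq with hM
  have hM2 : 0 < M₂ := Nat.pos_of_ne_zero (NeZero.ne _)
  have hMq : 0 < Mq := Nat.pos_of_ne_zero (NeZero.ne _)
  have hM3 : 0 < M₃ := Nat.pos_of_ne_zero (NeZero.ne _)
  have hM0 : 0 < M := by positivity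
  have hw' : (1 : ℝ) ≤ w := by exact_mod_cast hw
  -- tuples
  have hex : ∀ D ∈ B, ∃ t1 t2 : ℤ × ℤ × ℤ × ℤ, t1 ≠ t2 ∧ GoodTup D t1 ∧ GoodTup D t2 := by
    intro D hD
    obtain ⟨K, _, _, h1, h2, h3⟩ := hB D hD
    have hpos : 0 < D := by
      have := (hB1 D hD).1
      have h4 : (0 : ℤ) ≤ 4 * (w : ℤ) ^ 24 := by positivity
      omega
    have := two_tuples h1 (by rw [h2]; omega) h3
    rwa [h2, neg_neg] at this
  choose! f g hfg hf hg using hex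
  have finj : ∀ D ∈ B, ∀ D' ∈ B, ∀ t, GoodTup D t → GoodTup D' t → D = D' := by
    intro D _ D' _ t h1 h2
    have k1 := h1.2.2.2.2.2
    have k2 := h2.2.2.2.2.2
    rw [k1] at k2
    omega
  set S := B.image f ∪ B.image g with hS
  have hScard : S.card = 2 * B.card := by
    rw [hS, Finset.card_union_of_disjoint, Finset.card_image_of_injOn, Finset.card_image_of_injOn]
    · ring
    · intro D hD D' hD' h
      refine finj D hD D' hD' (g D) (hg D hD) ?_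
      have h' : g D = g D' := h
      rw [h']; exact hg D' hD'
    · intro D hD D' hD' h
      refine finj D hD D' hD' (f D) (hf D hD) ?_
      have h' : f D = f D' := h
      rw [h']; exact hf D' hD'
    · rw [Finset.disjoint_left]
      intro t ht1 ht2
      rw [Finset.mem_image] at ht1 ht2
      obtain ⟨D, hD, rfl⟩ := ht1
      obtain ⟨D', hD', h⟩ := ht2
      have h5 : D = D' := by
        refine finj D hD D' hD' (f D) (hf D hD) ?_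
        rw [← h]; exact hg D' hD'
      subst h5
      exact hfg D hD h.symm
  have hSt : ∀ t ∈ S, ∃ D ∈ B, GoodTup D t := by
    intro t ht
    rw [hS, Finset.mem_union, Finset.mem_image, Finset.mem_image] at ht
    rcases ht with ⟨D, hD, rfl⟩ | ⟨D, hD, rfl⟩
    · exact ⟨D, hD, hf D hD⟩
    · exact ⟨D, hD, hg D hD⟩
  -- residues
  set S2 := Finset.univ.filter (fun v : ZMod M₂ × ZMod M₂ × ZMod M₂ × ZMod M₂ =>
      dR v = ((-D₀ : ℤ) : ZMod M₂)) with hS2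
  set S3 := Finset.univ.filter (fun v : ZMod M₃ × ZMod M₃ × ZMod M₃ × ZMod M₃ =>
      dR v = ((-D₀ : ℤ) : ZMod M₃)) with hS3
  set Sq := Finset.univ.filter (fun v : ZMod Mq × ZMod Mq × ZMod Mq × ZMod Mq =>
      dR v = ((-D₀ : ℤ) : ZMod Mq)) with hSq
  set ρ := fun t : ℤ × ℤ × ℤ × ℤ => (red M₂ t, red M₃ t, red Mq t) with hρ
  have hmaps : ∀ t ∈ S, ρ t ∈ S2 ×ˢ (S3 ×ˢ Sq) := by
    intro t ht
    obtain ⟨D, hD, hg⟩ := hSt t ht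
    have key : ∀ n : ℕ, (n : ℤ) ∣ (M : ℤ) → dR (red n t) = ((-D₀ : ℤ) : ZMod n) := by
      intro n hn
      rw [dR_red, hg.2.2.2.2.2]
      apply (ZMod.intCast_eq_intCast_iff_dvd_sub _ _ _).2
      have : -D₀ - -D = D - D₀ := by ring
      rw [this]
      exact hn.trans (hB2 D hD)
    simp only [hρ, Finset.mem_product, hS2, hS3, hSq, Finset.mem_filter, Finset.mem_univ, true_and]
    refine ⟨key _ ?_, key _ ?_, key _ ?_⟩
    · exact_mod_cast (Dvd.intro (M₃ * Mq) (by rw [hM]; ring) : M₂ ∣ M)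
    · exact_mod_cast (Dvd.intro (M₂ * Mq) (by rw [hM]; ring) : M₃ ∣ M)
    · exact_mod_cast (Dvd.intro (M₂ * M₃) (by rw [hM]; ring) : Mq ∣ M)
  set X : ℝ := 6 * (w : ℝ) ^ 24 / ((M : ℤ) : ℝ) ^ 4 + 400 * (w : ℝ) ^ 23 with hX
  have hX0 : 0 ≤ X := by positivity
  have hfib : ∀ v ∈ S2 ×ˢ (S3 ×ˢ Sq), ((S.filter (fun t => ρ t = v)).card : ℝ) ≤ X := by
    intro v _
    apply lat (M := (M : ℤ)) (by exact_mod_cast hM0) hw'
    · intro t ht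
      obtain ⟨D, hD, hg⟩ := hSt t (Finset.mem_filter.1 ht).1
      exact hg.inRange (hB1 D hD).1 (hB1 D hD).2
    · intro s hs t ht
      have h1 := (Finset.mem_filter.1 hs).2.trans (Finset.mem_filter.1 ht).2.symm
      simp only [hρ, Prod.mk.injEq] at h1
      obtain ⟨a1, a2, a3, a4⟩ := red_eq h1.1
      obtain ⟨b1, b2, b3, b4⟩ := red_eq h1.2.1
      obtain ⟨e1, e2, e3, e4⟩ := red_eq h1.2.2
      have comb : ∀ z : ℤ, (M₂ : ℤ) ∣ z → (M₃ : ℤ) ∣ z → (Mq : ℤ) ∣ z → (M : ℤ) ∣ z := by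
        intro z z1 z2 z3
        have c1 : IsCoprime (M₂ : ℤ) (M₃ : ℤ) := Nat.isCoprime_iff_coprime.2 h23
        have c2 : IsCoprime ((M₂ : ℤ) * (M₃ : ℤ)) (Mq : ℤ) := by
          apply IsCoprime.mul_left
          · exact Nat.isCoprime_iff_coprime.2 h2q
          · exact (Nat.isCoprime_iff_coprime.2 hq3).symm
        have := c2.mul_dvd (c1.mul_dvd z1 z2) z3
        rw [hM]
        push_cast at this ⊢
        exact this
      exact ⟨comb _ a1 b1 e1, comb _ a2 b2 e2, comb _ a3 b3 e3, comb _ a4 b4 e4⟩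
  have hSle : (S.card : ℝ) ≤ ((S2 ×ˢ (S3 ×ˢ Sq)).card : ℝ) * X := by
    rw [Finset.card_eq_sum_card_fiberwise (f := ρ) (t := S2 ×ˢ (S3 ×ˢ Sq)) hmaps]
    push_cast
    calc ∑ v ∈ S2 ×ˢ (S3 ×ˢ Sq), ((S.filter (fun t => ρ t = v)).card : ℝ)
        ≤ ∑ v ∈ S2 ×ˢ (S3 ×ˢ Sq), X := Finset.sum_le_sum hfib
      _ = ((S2 ×ˢ (S3 ×ˢ Sq)).card : ℝ) * X := by rw [Finset.sum_const, nsmul_eq_mul]
  have hprod : ((S2 ×ˢ (S3 ×ˢ Sq)).card : ℝ) ≤ 4 / 3 * (M : ℝ) ^ 3 := by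
    rw [Finset.card_product, Finset.card_product]
    push_cast
    have k1 : 2 * (S2.card : ℝ) ≤ 3 * (M₂ : ℝ) ^ 3 := by exact_mod_cast c2
    have k2 : 9 * (S3.card : ℝ) ≤ 8 * (M₃ : ℝ) ^ 3 := by exact_mod_cast c3
    have k3 : (Sq.card : ℝ) ≤ (Mq : ℝ) ^ 3 := by exact_mod_cast cq
    calc (S2.card : ℝ) * ((S3.card : ℝ) * (Sq.card : ℝ))
        ≤ (3 / 2 * (M₂ : ℝ) ^ 3) * ((8 / 9 * (M₃ : ℝ) ^ 3) * (Mq : ℝ) ^ 3) := by
          have k4 : (S2.card : ℝ) ≤ 3 / 2 * (M₂ : ℝ) ^ 3 := by linarith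
          have k5 : (S3.card : ℝ) ≤ 8 / 9 * (M₃ : ℝ) ^ 3 := by linarith
          gcongr
      _ = 4 / 3 * (M : ℝ) ^ 3 := by rw [hM]; push_cast; ring
  have hMr : (0 : ℝ) < M := by exact_mod_cast hM0
  have h1 : 2 * (B.card : ℝ) ≤ 4 / 3 * (M : ℝ) ^ 3 * X := by
    have : (S.card : ℝ) = 2 * B.card := by exact_mod_cast hScard
    rw [← this]
    exact hSle.trans (mul_le_mul_of_nonneg_right hprod hX0)
  have h2 : 4 / 3 * (M : ℝ) ^ 3 * X = 8 * (w : ℝ) ^ 24 / M + 1600 / 3 * (M : ℝ) ^ 3 * (w : ℝ) ^ 23 := by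
    rw [hX]
    push_cast
    field_simp
    ring
  have h3 : 0 ≤ (M : ℝ) ^ 3 * (w : ℝ) ^ 23 := by positivity
  rw [h2] at h1
  have e : 8 * (w : ℝ) ^ 24 / M = 2 * (4 * (w : ℝ) ^ 24 / M) := by ring
  rw [e] at h1
  nlinarith

/-- the lower bound for the good discriminants -/
theorem good_ge3 {M₂ M₃ Mq : ℕ} [NeZero M₂] [NeZero M₃] [NeZero Mq] (h23 : M₂.Coprime M₃) (hq3 : Mq.Coprime M₃)
    (h2q : M₂.Coprime Mq) (D₀ : ℤ)
    (c2 : 2 * (Finset.univ.filter (fun v : ZMod M₂ × ZMod M₂ × ZMod M₂ × ZMod M₂ =>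
      dR v = ((-D₀ : ℤ) : ZMod M₂))).card ≤ 3 * M₂ ^ 3)
    (c3 : 9 * (Finset.univ.filter (fun v : ZMod M₃ × ZMod M₃ × ZMod M₃ × ZMod M₃ =>
      dR v = ((-D₀ : ℤ) : ZMod M₃))).card ≤ 8 * M₃ ^ 3)
    (cq : (Finset.univ.filter (fun v : ZMod Mq × ZMod Mq × ZMod Mq × ZMod Mq =>
      dR v = ((-D₀ : ℤ) : ZMod Mq))).card ≤ Mq ^ 3) :
    ∃ c : ℝ, 0 < c ∧ ∃ w₀ : ℕ, ∀ w : ℕ, w₀ ≤ w → ∃ G : Finset ℤ, G ⊆ DD (M₂ * M₃ * Mq) D₀ w ∧
      (∀ D ∈ G, ¬ Bad D) ∧ c * (w : ℝ) ^ 24 ≤ (G.card : ℝ) := by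
  classical
  set M : ℕ := M₂ * M₃ * Mq with hM
  have hM2 : 0 < M₂ := Nat.pos_of_ne_zero (NeZero.ne _)
  have hMq : 0 < Mq := Nat.pos_of_ne_zero (NeZero.ne _)
  have hM3 : 0 < M₃ := Nat.pos_of_ne_zero (NeZero.ne _)
  have hM0 : 0 < M := by positivity
  have hMr : (0 : ℝ) < M := by exact_mod_cast hM0
  have hM1 : (1 : ℝ) ≤ M := by exact_mod_cast hM0
  refine ⟨1 / (8 * M), by positivity, 1084 * M ^ 4, ?_⟩
  intro w hw
  have hw1 : 1 ≤ w := le_trans (by have : 0 < M ^ 4 := by positivity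
                                   omega) hw
  have hw' : (1 : ℝ) ≤ w := by exact_mod_cast hw1
  set B := (DD M D₀ w).filter (fun D => Bad D) with hB
  refine ⟨(DD M D₀ w).filter (fun D => ¬ Bad D), Finset.filter_subset _ _,
    fun D hD => (Finset.mem_filter.1 hD).2, ?_⟩
  have h1 := bad_le3 h23 hq3 h2q D₀ c2 c3 cq hw1 B (fun D hD => (Finset.mem_filter.1 hD).2)
    (fun D hD => (mem_DD.1 (Finset.mem_filter.1 hD).1).1)
    (fun D hD => (mem_DD.1 (Finset.mem_filter.1 hD).1).2.1)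
  rw [← hM] at h1
  have h2 := sieve hM0 D₀ w
  have h3 : ((DD M D₀ w).card : ℝ) = (B.card : ℝ) +
      (((DD M D₀ w).filter (fun D => ¬ Bad D)).card : ℝ) := by
    rw [← Nat.cast_add, hB, Finset.card_filter_add_card_filter_not]
  have h4 : 1084 * (M : ℝ) ^ 4 ≤ w := by exact_mod_cast hw
  have p1 : (w : ℝ) ^ 12 ≤ (w : ℝ) ^ 23 := pow_le_pow_right₀ hw' (by norm_num)
  have p2 : (1 : ℝ) ≤ (w : ℝ) ^ 23 := one_le_pow₀ hw'
  have p3 : (1 : ℝ) ≤ (M : ℝ) ^ 3 := one_le_pow₀ hM1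
  have p4 : (w : ℝ) ^ 23 ≤ (M : ℝ) ^ 3 * (w : ℝ) ^ 23 := by nlinarith
  have p5 : 271 * (M : ℝ) ^ 3 * (w : ℝ) ^ 23 ≤ 1 / 4 * (w : ℝ) ^ 24 / M := by
    rw [le_div_iff₀ hMr]
    have : 271 * (M : ℝ) ^ 3 * (w : ℝ) ^ 23 * M = (1 / 4 * (w : ℝ) ^ 23) * (1084 * (M : ℝ) ^ 4) := by
      ring
    rw [this]
    calc (1 / 4 * (w : ℝ) ^ 23) * (1084 * (M : ℝ) ^ 4) ≤ (1 / 4 * (w : ℝ) ^ 23) * w := by gcongr
      _ = 1 / 4 * (w : ℝ) ^ 24 := by ring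
  have e1 : 35 / 8 * (w : ℝ) ^ 24 / M = 4 * (w : ℝ) ^ 24 / M + 1 / 4 * (w : ℝ) ^ 24 / M +
      1 / (8 * M) * (w : ℝ) ^ 24 := by
    field_simp
    ring
  linarith

end Pool.Agent.Helper725_DH
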