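import Mathlib

/-! The ring of integers and the discriminant of an imaginary quadratic field. -/

set_option autoImplicit false

namespace Pool.Agent.Helper725_DH.IQ

open NumberField Module

theorem not_sq {d : ℕ} (hd : 0 < d) (q : ℚ) : q ^ 2 ≠ -(d : ℚ) := by
  intro h
  have h1 : (0 : ℚ) < d := by exact_mod_cast hd
  have := sq_nonneg q
  linarith

variable {K : Type} [Field K] [NumberField K]

theorem exists_basis {d : ℕ} (hd : 0 < d) (h2 : finrank ℚ K = 2) (x : K)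
    (hx : x ^ 2 = -(d : K)) : ∃ b : Basis (Fin 2) ℚ K, b 0 = 1 ∧ b 1 = x := by
  have hli : LinearIndependent ℚ ![(1:K), x] := by
    rw [LinearIndependent.pair_iff]
    intro s t hst
    by_cases ht : t = 0
    · subst ht
      simp only [zero_smul, add_zero, smul_eq_zero, one_ne_zero, or_false] at hst
      exact ⟨hst, rfl⟩
    · exfalso
      have htK : (t : K) ≠ 0 := by exact_mod_cast ht
      have h3 : x = ((-s / t : ℚ) : K) := by
        rw [Rat.smul_def, Rat.smul_def, mul_one] at hst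
        push_cast
        rw [eq_div_iff htK]
        linear_combination hst
      rw [h3] at hx
      exact not_sq hd (-s / t) (by exact_mod_cast hx)
  refine ⟨basisOfLinearIndependentOfCardEqFinrank hli (by simp [h2]), ?_, ?_⟩ <;> simp

section
variable {d : ℕ} {x : K} (hx : x ^ 2 = -(d : K)) (b : Basis (Fin 2) ℚ K) (h0 : b 0 = 1)
  (h1 : b 1 = x)
include h0 h1

theorem repr_eq (p q : ℚ) : b.repr ((p:K) + q * x) 0 = p ∧ b.repr ((p:K) + q * x) 1 = q := by
  have h : (p:K) + q * x = p • b 0 + q • b 1 := by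
    rw [h0, h1, Rat.smul_def, Rat.smul_def, mul_one]
  rw [h]
  simp

theorem ex_coord (α : K) : ∃ p q : ℚ, α = (p:K) + q * x := by
  refine ⟨b.repr α 0, b.repr α 1, ?_⟩
  have h := b.sum_repr α
  rw [Fin.sum_univ_two, h0, h1, Rat.smul_def, Rat.smul_def, mul_one] at h
  exact h.symm

include hx

theorem mat (p q : ℚ) : Algebra.leftMulMatrix b ((p:K) + q * x) = !![p, -(d * q); q, p] := by
  have e0 : ((p:K) + q * x) * b 0 = (p:K) + q * x := by rw [h0, mul_one]
  have e1 : ((p:K) + q * x) * b 1 = ((-(d * q) : ℚ) : K) + p * x := by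
    rw [h1]
    push_cast
    linear_combination (q:K) * hx
  ext i j
  rw [Algebra.leftMulMatrix_eq_repr_mul]
  fin_cases j
  · simp only [Fin.zero_eta, e0]
    fin_cases i
    · simpa using (repr_eq b h0 h1 p q).1
    · simpa using (repr_eq b h0 h1 p q).2
  · simp only [Fin.mk_one, e1]
    fin_cases i
    · simpa using (repr_eq b h0 h1 (-(d * q)) p).1
    · simpa using (repr_eq b h0 h1 (-(d * q)) p).2

theorem tr (p q : ℚ) : Algebra.trace ℚ K ((p:K) + q * x) = 2 * p := by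
  rw [Algebra.trace_eq_matrix_trace b, mat hx b h0 h1]
  simp [Matrix.trace, Fin.sum_univ_two]
  ring

theorem nm (p q : ℚ) : Algebra.norm ℚ ((p:K) + q * x) = p ^ 2 + d * q ^ 2 := by
  rw [Algebra.norm_eq_matrix_det b, mat hx b h0 h1, Matrix.det_fin_two]
  simp
  ring

theorem trZ (α : 𝓞 K) (p q : ℚ) (h : (α : K) = (p:K) + q * x) :
    (Algebra.trace ℤ (𝓞 K) α : ℚ) = 2 * p := by
  rw [Algebra.coe_trace_int, h, tr hx b h0 h1]

theorem int_coord (hs : Squarefree d) (α : 𝓞 K) : ∃ t s n : ℤ,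
    (α : K) = ((t / 2 : ℚ) : K) + ((s / 2 : ℚ) : K) * x ∧ t ^ 2 + d * s ^ 2 = 4 * n := by
  obtain ⟨p, q, h⟩ := ex_coord b h0 h1 (α : K)
  have ht := trZ hx b h0 h1 α p q h
  have hn : (Algebra.norm ℤ α : ℚ) = p ^ 2 + d * q ^ 2 := by
    rw [Algebra.coe_norm_int, h, nm hx b h0 h1]
  set t := Algebra.trace ℤ (𝓞 K) α
  set n := Algebra.norm ℤ α
  have e1 : (d:ℚ) * (2 * q) ^ 2 = ((4 * n - t ^ 2 : ℤ) : ℚ) := by
    push_cast
    rw [ht, hn]
    ring
  set r : ℚ := 2 * q with hr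
  have e2 : (d:ℤ) * r.num ^ 2 = (4 * n - t ^ 2) * (r.den : ℤ) ^ 2 := by
    have hden : (r.den : ℚ) ≠ 0 := by exact_mod_cast r.den_ne_zero
    have e3 : (r.num : ℚ) = r * r.den := (Rat.mul_den_eq_num r).symm
    have e4 : (((d:ℤ) * r.num ^ 2 : ℤ) : ℚ) = (((4 * n - t ^ 2) * (r.den : ℤ) ^ 2 : ℤ) : ℚ) := by
      push_cast at e1 ⊢
      rw [e3]
      linear_combination (r.den : ℚ) ^ 2 * e1
    exact_mod_cast e4
  have hcop : IsCoprime ((r.den : ℤ) ^ 2) (r.num ^ 2) := by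
    apply IsCoprime.pow
    rw [Int.isCoprime_iff_gcd_eq_one]
    have := r.reduced
    rw [Nat.Coprime, Nat.gcd_comm] at this
    simpa [Int.gcd] using this
  have hdvd : (r.den : ℤ) ^ 2 ∣ (d:ℤ) := by
    apply hcop.dvd_of_dvd_mul_right
    rw [e2]
    exact Dvd.intro_left _ rfl
  have hdvd2 : r.den * r.den ∣ d := by
    rw [← sq]
    exact_mod_cast hdvd
  have hden := Nat.isUnit_iff.1 (hs _ hdvd2)
  have hrn : r = r.num := by
    conv_lhs => rw [← Rat.num_div_den r]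
    rw [hden]
    simp
  refine ⟨t, r.num, n, ?_, ?_⟩
  · rw [h, ← hrn, hr, ht]
    congr 2
    · ring
    · congr 1
      ring
  · rw [hden] at e2
    push_cast at e2
    linarith

end

theorem parity1 {d : ℕ} (hd : d % 4 = 3) {t s n : ℤ} (h : t ^ 2 + d * s ^ 2 = 4 * n) :
    ∃ m : ℤ, t = s + 2 * m := by
  have h1 : (d : ℤ) = 4 * (d / 4 : ℕ) + 3 := by
    have := Nat.div_add_mod d 4
    rw [hd] at this
    exact_mod_cast this.symm
  rw [h1] at h
  have h2 : (t - s) * (t + s) = 2 * (2 * (n - (d / 4 : ℕ) * s ^ 2 - s ^ 2)) := by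
    linear_combination h
  have h3 : Even (t - s) := by
    have h4 : Even ((t - s) * (t + s)) :=
      ⟨2 * (n - (d / 4 : ℕ) * s ^ 2 - s ^ 2), by rw [h2]; ring⟩
    rcases Int.even_mul.1 h4 with h5 | h5
    · exact h5
    · rw [Int.even_add, ← Int.even_sub] at h5
      exact h5
  obtain ⟨m, hm⟩ := h3
  exact ⟨m, by linarith⟩

theorem parity2 {d : ℕ} (hd : d % 4 = 1 ∨ d % 4 = 2) {t s n : ℤ}
    (h : t ^ 2 + d * s ^ 2 = 4 * n) : ∃ a b : ℤ, t = 2 * a ∧ s = 2 * b := by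
  obtain ⟨e, r, hr, he⟩ : ∃ e r : ℤ, (r = 1 ∨ r = 2) ∧ (d : ℤ) = 4 * e + r := by
    rcases hd with h1 | h1
    · exact ⟨(d / 4 : ℕ), 1, Or.inl rfl, by omega⟩
    · exact ⟨(d / 4 : ℕ), 2, Or.inr rfl, by omega⟩
  rcases Int.even_or_odd' t with ⟨a, ha | ha⟩ <;> rcases Int.even_or_odd' s with ⟨b, hb | hb⟩
  · exact ⟨a, b, ha, hb⟩
  · exfalso
    rw [he, ha, hb] at h
    have h2 : r = 4 * (n - a ^ 2 - e * (2 * b + 1) ^ 2 - r * (b ^ 2 + b)) := by
      linear_combination h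
    rcases hr with h3 | h3 <;> omega
  · exfalso
    rw [he, ha, hb] at h
    have h2 : 1 = 4 * (n - (a ^ 2 + a) - e * (2 * b) ^ 2 - r * b ^ 2) := by
      linear_combination h
    omega
  · exfalso
    rw [he, ha, hb] at h
    have h2 : 1 + r = 4 * (n - (a ^ 2 + a) - e * (2 * b + 1) ^ 2 - r * (b ^ 2 + b)) := by
      linear_combination h
    rcases hr with h3 | h3 <;> omega

/-- discriminant from a generator -/
theorem discr_of {d : ℕ} {x : K} (hx : x ^ 2 = -(d : K))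
    (b : Basis (Fin 2) ℚ K) (h0 : b 0 = 1) (h1 : b 1 = x) (ω : 𝓞 K) (p q : ℚ)
    (hω : (ω : K) = (p:K) + q * x) (hq : q ≠ 0)
    (hsp : ∀ α : 𝓞 K, ∃ m n : ℤ, α = m + n * ω) :
    (discr K : ℚ) = -(4 * d * q ^ 2) := by
  have hli : LinearIndependent ℤ ![(1 : 𝓞 K), ω] := by
    rw [LinearIndependent.pair_iff]
    intro s t hst
    have h2 : ((s • (1 : 𝓞 K) + t • ω : 𝓞 K) : K) = 0 := by rw [hst]; simp
    have h3 : (((s + t * p : ℚ) : K)) + ((t * q : ℚ) : K) * x = 0 := by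
      rw [← h2]
      have hω' : algebraMap (𝓞 K) K ω = (p:K) + q * x := hω
      simp only [zsmul_eq_mul, mul_one, map_add, map_mul, map_intCast]
      rw [hω']
      push_cast
      ring
    have h4 := repr_eq b h0 h1 (s + t * p) (t * q)
    rw [h3] at h4
    simp only [map_zero, Finsupp.coe_zero, Pi.zero_apply] at h4
    have h5 : (t : ℚ) = 0 := by
      rcases mul_eq_zero.1 h4.2.symm with h6 | h6
      · exact h6
      · exact absurd h6 hq
    have h6 : (s : ℚ) = 0 := by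
      have := h4.1
      rw [h5] at this
      linarith
    exact ⟨by exact_mod_cast h6, by exact_mod_cast h5⟩
  have hsp' : ⊤ ≤ Submodule.span ℤ (Set.range ![(1 : 𝓞 K), ω]) := by
    intro α _
    obtain ⟨m, n, h⟩ := hsp α
    have h2 : α = m • (1 : 𝓞 K) + n • ω := by
      rw [h]; simp
    rw [h2]
    exact Submodule.add_mem _ (Submodule.smul_mem _ _ (Submodule.subset_span ⟨0, rfl⟩))
      (Submodule.smul_mem _ _ (Submodule.subset_span ⟨1, rfl⟩))
  have h2 := discr_eq_discr K (Basis.mk hli hsp')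
  rw [← h2, Basis.coe_mk, Algebra.discr_def, Matrix.det_fin_two]
  simp only [Algebra.traceMatrix_apply, Algebra.traceForm_apply, Matrix.cons_val_zero,
    Matrix.cons_val_one, one_mul, mul_one]
  push_cast
  rw [trZ hx b h0 h1 ω p q hω, trZ hx b h0 h1 1 1 0 (by simp),
    trZ hx b h0 h1 (ω * ω) (p ^ 2 - d * q ^ 2) (2 * p * q) (by
      have hω' : algebraMap (𝓞 K) K ω = (p:K) + q * x := hω
      rw [RingOfIntegers.coe_eq_algebraMap, map_mul, hω']
      push_cast
      linear_combination (q:K) ^ 2 * hx)]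
  ring

/-- integers and discriminant, first case -/
theorem imq1 {d : ℕ} (hd : d % 4 = 3) (hs : Squarefree d) (h2 : finrank ℚ K = 2) {x : K}
    (hx : x ^ 2 = -(d : K)) : discr K = -(d : ℤ) ∧
    ∀ α : 𝓞 K, ∃ m n : ℤ, (α : K) = m + n * ((1 + x) / 2) := by
  obtain ⟨b, h0, h1⟩ := exists_basis (by omega) h2 x hx
  obtain ⟨e, he⟩ : ∃ e : ℕ, d = 4 * e + 3 := ⟨d / 4, by omega⟩
  have h3 : (d : K) = 4 * (e : K) + 3 := by
    exact_mod_cast congrArg (Nat.cast : ℕ → K) he
  have hint : IsIntegral ℤ ((1 + x) / 2 : K) := by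
    refine ⟨Polynomial.X ^ 2 - Polynomial.X + Polynomial.C ((e : ℤ) + 1), ?_, ?_⟩
    · monicity!
    · rw [Polynomial.eval₂_add, Polynomial.eval₂_sub, Polynomial.eval₂_pow, Polynomial.eval₂_X,
        Polynomial.eval₂_C, eq_intCast]
      push_cast
      rw [h3] at hx
      linear_combination (1 / 4 : K) * hx
  set ω : 𝓞 K := ⟨(1 + x) / 2, hint⟩ with hωdef
  have hω : (ω : K) = ((1 / 2 : ℚ) : K) + ((1 / 2 : ℚ) : K) * x := by
    show (1 + x) / 2 = _
    push_cast
    ring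
  have hω' : algebraMap (𝓞 K) K ω = ((1 / 2 : ℚ) : K) + ((1 / 2 : ℚ) : K) * x := hω
  have hsp : ∀ α : 𝓞 K, ∃ m n : ℤ, α = m + n * ω := by
    intro α
    obtain ⟨t, s, n, h4, h5⟩ := int_coord hx b h0 h1 hs α
    obtain ⟨m, rfl⟩ := parity1 hd h5
    refine ⟨m, s, ?_⟩
    apply RingOfIntegers.ext
    rw [h4]
    simp only [map_add, map_mul, map_intCast]
    rw [hω']
    push_cast
    ring
  constructor
  · have h3 := discr_of hx b h0 h1 ω (1 / 2) (1 / 2) hω (by norm_num) hsp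
    have h4 : (discr K : ℚ) = -d := by
      rw [h3]; ring
    exact_mod_cast h4
  · intro α
    obtain ⟨m, n, h⟩ := hsp α
    refine ⟨m, n, ?_⟩
    rw [h]
    simp only [map_add, map_mul, map_intCast]
    rw [hω']
    push_cast
    ring

/-- integers and discriminant, second case -/
theorem imq2 {d : ℕ} (hd : d % 4 = 1 ∨ d % 4 = 2) (hs : Squarefree d) (h2 : finrank ℚ K = 2)
    {x : K} (hx : x ^ 2 = -(d : K)) : discr K = -(4 * (d : ℤ)) ∧
    ∀ α : 𝓞 K, ∃ m n : ℤ, (α : K) = m + n * x := by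
  obtain ⟨b, h0, h1⟩ := exists_basis (by omega) h2 x hx
  have hint : IsIntegral ℤ (x : K) := by
    refine ⟨Polynomial.X ^ 2 + Polynomial.C ((d : ℕ) : ℤ), ?_, ?_⟩
    · monicity!
    · rw [Polynomial.eval₂_add, Polynomial.eval₂_pow, Polynomial.eval₂_X,
        Polynomial.eval₂_C, hx]
      simp
  set ω : 𝓞 K := ⟨x, hint⟩ with hωdef
  have hω : (ω : K) = ((0 : ℚ) : K) + ((1 : ℚ) : K) * x := by
    show x = _
    push_cast
    ring
  have hω' : algebraMap (𝓞 K) K ω = ((0 : ℚ) : K) + ((1 : ℚ) : K) * x := hω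
  have hsp : ∀ α : 𝓞 K, ∃ m n : ℤ, α = m + n * ω := by
    intro α
    obtain ⟨t, s, n, h4, h5⟩ := int_coord hx b h0 h1 hs α
    obtain ⟨a, c, rfl, rfl⟩ := parity2 hd h5
    refine ⟨a, c, ?_⟩
    apply RingOfIntegers.ext
    rw [h4]
    simp only [map_add, map_mul, map_intCast]
    rw [hω']
    push_cast
    ring
  constructor
  · have h3 := discr_of hx b h0 h1 ω 0 1 hω (by norm_num) hsp
    have h4 : (discr K : ℚ) = -(4 * d) := by
      rw [h3]; ring
    exact_mod_cast h4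
  · intro α
    obtain ⟨m, n, h⟩ := hsp α
    refine ⟨m, n, ?_⟩
    rw [h]
    simp only [map_add, map_mul, map_intCast]
    rw [hω']
    push_cast
    ring

end Pool.Agent.Helper725_DH.IQ
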