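import Pool.Agent.Helper725_DH.LocOdd

/-! Local counts at two and three. -/

set_option autoImplicit false

namespace Pool.Agent.Helper725_DH

theorem count_3 : (Finset.univ.filter (fun v : ZMod 3 × ZMod 3 × ZMod 3 × ZMod 3 =>
    dR v = 2)).card = 24 := by
  decide +kernel

theorem count_8 : (Finset.univ.filter (fun v : ZMod 8 × ZMod 8 × ZMod 8 × ZMod 8 =>
    dR v = 5)).card ≤ 768 := by
  decide +kernel

section
variable {n : ℕ} [NeZero n] (h2 : 2 ∣ n)

theorem par_cases (x : ZMod n) : (x.val % 2 = 1 ∧ ∃ y : ZMod n, x = 2 * y + 1) ∨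
    (x.val % 2 = 0 ∧ ∃ y : ZMod n, x = 2 * y) := by
  have h3 : ((x.val : ℕ) : ZMod n) = x := ZMod.natCast_zmod_val x
  rcases Nat.mod_two_eq_zero_or_one x.val with h | h
  · right
    refine ⟨h, ((x.val / 2 : ℕ) : ZMod n), ?_⟩
    have h4 : x.val = 2 * (x.val / 2) := by omega
    have h5 : ((2 * (x.val / 2) : ℕ) : ZMod n) = x := by rw [← h4]; exact h3
    have h6 : ((2 * (x.val / 2) : ℕ) : ZMod n) = 2 * ((x.val / 2 : ℕ) : ZMod n) := by
      push_cast; rfl
    rw [← h6, h5]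
  · left
    refine ⟨h, ((x.val / 2 : ℕ) : ZMod n), ?_⟩
    have h4 : x.val = 2 * (x.val / 2) + 1 := by omega
    have h5 : ((2 * (x.val / 2) + 1 : ℕ) : ZMod n) = x := by rw [← h4]; exact h3
    have h6 : ((2 * (x.val / 2) + 1 : ℕ) : ZMod n) = 2 * ((x.val / 2 : ℕ) : ZMod n) + 1 := by
      push_cast; rfl
    rw [← h6, h5]

include h2 in
omit [NeZero n] in
theorem par_ne (y z : ZMod n) : 2 * y + 1 ≠ 2 * z := by
  intro h
  have h3 := congrArg (ZMod.castHom h2 (ZMod 2)) h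
  rw [map_add, map_mul, map_mul, map_one, map_ofNat] at h3
  have h4 : (2 : ZMod 2) = 0 := by decide
  rw [h4, zero_mul, zero_mul] at h3
  exact absurd h3 (by decide)

include h2 in
theorem odd_cancel {a : ZMod n} (ha : a.val % 2 = 1) (hn : ∃ k, n = 2 ^ k) : IsUnit a := by
  obtain ⟨k, hk⟩ := hn
  have h3 : Nat.Coprime a.val n := by
    have h4 : Nat.Coprime a.val (2 ^ k) := by
      apply Nat.Coprime.pow_right
      exact Nat.coprime_two_right.2 (Nat.odd_iff.2 ha)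
    exact hk ▸ h4
  have := (ZMod.isUnit_iff_coprime a.val n).2 h3
  rwa [ZMod.natCast_zmod_val] at this

include h2 in
theorem count_two (hn : ∃ k, n = 2 ^ k) (δ : ZMod n) (h16 : ∀ x : ZMod n, 16 * x ≠ δ)
    (hev : ∃ x : ZMod n, δ = 2 * x) (hsq : ∀ y : ZMod n, δ * (2 * y + 1) ^ 2 = δ)
    (hN : (Finset.univ.filter (fun v : ZMod n × ZMod n => v.2 ^ 2 = δ + 4 * v.1 ^ 3)).card ≤ n)
    (hu : (Finset.univ.filter (fun v : ZMod n => v.val % 2 = 1)).card ≤ n / 2) :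
    (Finset.univ.filter (fun v : ZMod n × ZMod n × ZMod n × ZMod n => dR v = δ)).card ≤
      3 * (n / 2 * (n * n)) := by
  classical
  set S := Finset.univ.filter (fun v : ZMod n × ZMod n × ZMod n × ZMod n => dR v = δ) with hS
  set S1 := S.filter (fun v => v.1.val % 2 = 1) with hS1
  set S2 := S.filter (fun v => v.2.2.2.val % 2 = 1) with hS2
  set S3 := S.filter (fun v => (v.1 + 3 * v.2.1 + 3 * v.2.2.1 + v.2.2.2).val % 2 = 1) with hS3
  have hcov : S ⊆ (S1 ∪ S2) ∪ S3 := by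
    rintro ⟨a, b, c, d⟩ hv
    by_contra hcon
    simp only [Finset.mem_union, hS1, hS2, hS3, Finset.mem_filter, hv, true_and] at hcon
    rw [not_or, not_or] at hcon
    obtain ⟨⟨k1, k2⟩, k3⟩ := hcon
    have hv' : dR (a, b, c, d) = δ := (Finset.mem_filter.1 hv).2
    obtain ⟨a₁, ha⟩ := ((par_cases a).resolve_left (fun h => k1 h.1)).2
    obtain ⟨d₁, hd⟩ := ((par_cases d).resolve_left (fun h => k2 h.1)).2
    obtain ⟨e₁, he⟩ := ((par_cases (a + 3 * b + 3 * c + d)).resolve_left (fun h => k3 h.1)).2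
    obtain ⟨δ', hδ'⟩ := hev
    rcases par_cases b with ⟨_, b₁, hb⟩ | ⟨_, b₁, hb⟩ <;>
      rcases par_cases c with ⟨_, c₁, hc⟩ | ⟨_, c₁, hc⟩
    · -- both odd
      apply par_ne h2 (2 * ((b₁ * c₁ * 2 + b₁ + c₁ - a₁ * d₁ * 2) ^ 2 +
        (b₁ * c₁ * 2 + b₁ + c₁ - a₁ * d₁ * 2)) -
        2 * (b ^ 2 - a * c) * (c ^ 2 - b * d)) δ'
      rw [← hδ', ← hv']
      simp only [dR]
      rw [ha, hd, hb, hc]
      ring
    · apply par_ne h2 (a₁ + d₁ + 1 + 3 * b₁ + 3 * c₁) e₁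
      rw [← he, ha, hd, hb, hc]
      ring
    · apply par_ne h2 (a₁ + d₁ + 1 + 3 * b₁ + 3 * c₁) e₁
      rw [← he, ha, hd, hb, hc]
      ring
    · apply h16 (dR (a₁, b₁, c₁, d₁))
      rw [← hv', ha, hb, hc, hd]
      simp only [dR]
      ring
  have hc2 : S2.card ≤ S1.card := by
    apply Finset.card_le_card_of_injOn (fun v => (v.2.2.2, v.2.2.1, v.2.1, v.1))
    · rintro ⟨a, b, c, d⟩ hv
      rw [Finset.mem_coe, hS2, Finset.mem_filter, hS, Finset.mem_filter] at hv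
      rw [Finset.mem_coe, hS1, Finset.mem_filter, hS, Finset.mem_filter]
      refine ⟨⟨Finset.mem_univ _, ?_⟩, hv.2⟩
      rw [← hv.1.2]
      simp only [dR]
      ring
    · rintro ⟨a, b, c, d⟩ _ ⟨a', b', c', d'⟩ _ h
      simp only [Prod.mk.injEq] at h ⊢
      tauto
  have hc3 : S3.card ≤ S1.card := by
    apply Finset.card_le_card_of_injOn (fun v => (v.1 + 3 * v.2.1 + 3 * v.2.2.1 + v.2.2.2,
      v.2.1 + 2 * v.2.2.1 + v.2.2.2, v.2.2.1 + v.2.2.2, v.2.2.2))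
    · rintro ⟨a, b, c, d⟩ hv
      rw [Finset.mem_coe, hS3, Finset.mem_filter, hS, Finset.mem_filter] at hv
      rw [Finset.mem_coe, hS1, Finset.mem_filter, hS, Finset.mem_filter]
      refine ⟨⟨Finset.mem_univ _, ?_⟩, hv.2⟩
      rw [← hv.1.2]
      simp only [dR]
      ring
    · rintro ⟨a, b, c, d⟩ _ ⟨a', b', c', d'⟩ _ h
      simp only [Prod.mk.injEq] at h ⊢
      obtain ⟨h3, h4, h5, h6⟩ := h
      have e1 : c = c' := by linear_combination h5 - h6
      have e2 : b = b' := by linear_combination h4 - 2 * h5 + h6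
      have e3 : a = a' := by linear_combination h3 - 3 * h4 + 3 * h5 - h6
      exact ⟨e3, e2, e1, h6⟩
  have hc1 : S1.card ≤ n / 2 * (n * n) := by
    set T : Finset (ZMod n × ZMod n × ZMod n × ZMod n) :=
      (Finset.univ.filter (fun v : ZMod n => v.val % 2 = 1)) ×ˢ (Finset.univ ×ˢ
      (Finset.univ.filter (fun v : ZMod n × ZMod n => v.2 ^ 2 = δ + 4 * v.1 ^ 3))) with hT
    have hTc : T.card ≤ n / 2 * (n * n) := by
      rw [hT, Finset.card_product, Finset.card_product, Finset.card_univ, ZMod.card]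
      gcongr
    refine le_trans ?_ hTc
    apply Finset.card_le_card_of_injOn (fun v => (v.1, v.2.1, v.2.1 ^ 2 - v.1 * v.2.2.1,
      v.1 ^ 2 * v.2.2.2 + 2 * v.2.1 ^ 3 - 3 * v.1 * v.2.1 * v.2.2.1))
    · rintro ⟨a, b, c, d⟩ hv
      rw [Finset.mem_coe, hS1, Finset.mem_filter, hS, Finset.mem_filter] at hv
      obtain ⟨⟨_, hv1⟩, hv2⟩ := hv
      simp only at hv2
      obtain ⟨a₁, ha⟩ := ((par_cases a).resolve_right (fun h => by omega)).2
      rw [Finset.mem_coe, hT, Finset.mem_product, Finset.mem_product, Finset.mem_filter,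
        Finset.mem_filter]
      refine ⟨⟨Finset.mem_univ _, hv2⟩, Finset.mem_univ _, Finset.mem_univ _, ?_⟩
      simp only
      have h5 : δ * a ^ 2 = δ := by rw [ha]; exact hsq a₁
      rw [← hv1] at h5 ⊢
      rw [← h5]
      simp only [dR]
      ring
    · rintro ⟨a, b, c, d⟩ hv ⟨a', b', c', d'⟩ _ h
      rw [Finset.mem_coe, hS1, Finset.mem_filter, hS, Finset.mem_filter] at hv
      have hau : IsUnit a := odd_cancel h2 hv.2 hn
      simp only [Prod.mk.injEq] at h ⊢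
      obtain ⟨h3, h4, h5, h6⟩ := h
      subst h3 h4
      have e1 : c = c' := by
        apply hau.mul_left_cancel
        linear_combination -h5
      subst e1
      refine ⟨rfl, rfl, rfl, ?_⟩
      apply (hau.pow 2).mul_left_cancel
      linear_combination h6
  have h5 := Finset.card_le_card hcov
  have h6 := Finset.card_union_le (S1 ∪ S2) S3
  have h7 := Finset.card_union_le S1 S2
  omega

end

theorem count_32 (δ : ZMod 32) (h : δ = 28 ∨ δ = 12) :
    (Finset.univ.filter (fun v : ZMod 32 × ZMod 32 × ZMod 32 × ZMod 32 => dR v = δ)).card ≤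
      49152 := by
  have h1 : ∀ δ : ZMod 32, (δ = 28 ∨ δ = 12) → (∀ x : ZMod 32, 16 * x ≠ δ) ∧
      (∃ x : ZMod 32, δ = 2 * x) ∧ (∀ y : ZMod 32, δ * (2 * y + 1) ^ 2 = δ) := by decide +kernel
  have h2 : ∀ δ : ZMod 32, (δ = 28 ∨ δ = 12) →
      (Finset.univ.filter (fun v : ZMod 32 × ZMod 32 => v.2 ^ 2 = δ + 4 * v.1 ^ 3)).card ≤ 32 := by
    intro δ h
    rcases h with rfl | rfl
    · decide +kernel
    · decide +kernel
  obtain ⟨k1, k2, k3⟩ := h1 δ h
  exact count_two (by norm_num) ⟨5, by norm_num⟩ δ k1 k2 k3 (h2 δ h) (by decide +kernel)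

theorem count_64 (δ : ZMod 64) (h : δ = 8 ∨ δ = 24 ∨ δ = 40 ∨ δ = 56) :
    (Finset.univ.filter (fun v : ZMod 64 × ZMod 64 × ZMod 64 × ZMod 64 => dR v = δ)).card ≤
      393216 := by
  have h1 : ∀ δ : ZMod 64, (δ = 8 ∨ δ = 24 ∨ δ = 40 ∨ δ = 56) → (∀ x : ZMod 64, 16 * x ≠ δ) ∧
      (∃ x : ZMod 64, δ = 2 * x) ∧ (∀ y : ZMod 64, δ * (2 * y + 1) ^ 2 = δ) := by decide +kernel
  have h2 : ∀ δ : ZMod 64, (δ = 8 ∨ δ = 24 ∨ δ = 40 ∨ δ = 56) →
      (Finset.univ.filter (fun v : ZMod 64 × ZMod 64 => v.2 ^ 2 = δ + 4 * v.1 ^ 3)).card ≤ 64 := by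
    intro δ h
    rcases h with rfl | rfl | rfl | rfl
    · decide +kernel
    · decide +kernel
    · decide +kernel
    · decide +kernel
  obtain ⟨k1, k2, k3⟩ := h1 δ h
  exact count_two (by norm_num) ⟨6, by norm_num⟩ δ k1 k2 k3 (h2 δ h) (by decide +kernel)

end Pool.Agent.Helper725_DH
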