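import Mathlib

/-! Square classes of the p-adic numbers. -/

set_option autoImplicit false

namespace Pool.Agent.Helper725_DH

open Polynomial

theorem isSquare_of_near {p : ℕ} [Fact p.Prime] (z u : ℤ_[p])
    (h : ‖u ^ 2 - z‖ < ‖2 * u‖ ^ 2) : IsSquare (z : ℚ_[p]) := by
  have h1 : ‖(X ^ 2 - C z : Polynomial ℤ_[p]).aeval u‖ <
      ‖(derivative (X ^ 2 - C z : Polynomial ℤ_[p])).aeval u‖ ^ 2 := by
    have e1 : (X ^ 2 - C z : Polynomial ℤ_[p]).aeval u = u ^ 2 - z := by simp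
    have e2 : (derivative (X ^ 2 - C z : Polynomial ℤ_[p])).aeval u = 2 * u := by
      simp
      left
      norm_num
    rw [e1, e2]
    exact h
  obtain ⟨w, hw, _⟩ := hensels_lemma h1
  refine ⟨(w : ℚ_[p]), ?_⟩
  have e3 : w ^ 2 - z = 0 := by simpa using hw
  have e4 : z = w * w := by linear_combination -e3
  rw [e4]
  push_cast
  rfl

/-- one mod eight -/
theorem isSquare_two (y : ℤ_[2]) : IsSquare ((1 + 8 * y : ℤ_[2]) : ℚ_[2]) := by
  apply isSquare_of_near _ 1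
  have e : (1 : ℤ_[2]) ^ 2 - (1 + 8 * y) = 8 * (-y) := by ring
  rw [e, mul_one]
  have h8 : ‖(8 : ℤ_[2])‖ = 1 / 8 := by
    have : (8 : ℤ_[2]) = ((2 : ℕ) : ℤ_[2]) ^ 3 := by norm_num
    rw [this, norm_pow, PadicInt.norm_p]
    norm_num
  have h2 : ‖(2 : ℤ_[2])‖ = 1 / 2 := by
    have : (2 : ℤ_[2]) = ((2 : ℕ) : ℤ_[2]) := by norm_num
    rw [this, PadicInt.norm_p]
    norm_num
  rw [norm_mul, h8, h2]
  have := PadicInt.norm_le_one (-y)
  nlinarith [norm_nonneg (-y)]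

/-- a unit with square residue -/
theorem isSquare_odd {p : ℕ} [Fact p.Prime] (h2 : p ≠ 2) (v y : ℤ_[p]) (hv : ‖v‖ = 1) :
    IsSquare ((v ^ 2 + p * y : ℤ_[p]) : ℚ_[p]) := by
  apply isSquare_of_near _ v
  have e : v ^ 2 - (v ^ 2 + p * y) = p * (-y) := by ring
  have hp : p.Prime := Fact.out
  have h3 : ‖(2 : ℤ_[p])‖ = 1 := by
    have h4 : ¬ ‖((2 : ℤ) : ℤ_[p])‖ < 1 := by
      rw [PadicInt.norm_int_lt_one_iff_dvd]
      intro h
      have : p ∣ 2 := by exact_mod_cast h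
      exact h2 ((Nat.prime_dvd_prime_iff_eq hp Nat.prime_two).1 this)
    have h5 := PadicInt.norm_le_one ((2 : ℤ) : ℤ_[p])
    have h6 : ‖((2 : ℤ) : ℤ_[p])‖ = 1 := le_antisymm h5 (not_lt.1 h4)
    simpa using h6
  rw [e, norm_mul, norm_mul, h3, hv, PadicInt.norm_p]
  have h5 := PadicInt.norm_le_one (-y)
  have h6 : (p : ℝ)⁻¹ < 1 := by
    apply inv_lt_one_of_one_lt₀
    exact_mod_cast hp.one_lt
  have h7 : 0 < (p : ℝ)⁻¹ := by
    have : (0 : ℝ) < p := by exact_mod_cast hp.pos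
    positivity
  nlinarith [norm_nonneg (-y)]

theorem exists_unit_form {p : ℕ} [Fact p.Prime] {δ : ℚ_[p]} (h : δ ≠ 0) :
    ∃ u : ℤ_[p], ‖u‖ = 1 ∧ δ = (u : ℚ_[p]) * (p : ℚ_[p]) ^ δ.valuation := by
  have hp : (p : ℚ_[p]) ≠ 0 := by
    exact_mod_cast (Fact.out : p.Prime).ne_zero
  have h1 : ‖δ * (p : ℚ_[p]) ^ (-δ.valuation)‖ = 1 := by
    rw [norm_mul, Padic.norm_eq_zpow_neg_valuation h, norm_zpow, Padic.norm_p]
    have : (p : ℝ) ≠ 0 := by exact_mod_cast (Fact.out : p.Prime).ne_zero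
    rw [inv_zpow', neg_neg, ← zpow_add₀ this]
    simp
  refine ⟨⟨δ * (p : ℚ_[p]) ^ (-δ.valuation), h1.le⟩, ?_, ?_⟩
  · exact h1
  · show δ = δ * (p : ℚ_[p]) ^ (-δ.valuation) * (p : ℚ_[p]) ^ δ.valuation
    rw [mul_assoc, ← zpow_add₀ hp]
    simp

theorem isSquare_zpow_even {p : ℕ} [Fact p.Prime] {n : ℤ} (h : Even n) :
    IsSquare ((p : ℚ_[p]) ^ n) := by
  obtain ⟨k, hk⟩ := h
  have hp : (p : ℚ_[p]) ≠ 0 := by
    exact_mod_cast (Fact.out : p.Prime).ne_zero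
  exact ⟨(p : ℚ_[p]) ^ k, by rw [← zpow_add₀ hp, hk]⟩

/-- the residue class modulo eight of a unit -/
theorem unit_mod_eight (u : ℤ_[2]) (hu : ‖u‖ = 1) : ∃ m : ℤ, (m = 1 ∨ m = 3 ∨ m = 5 ∨ m = 7) ∧
    ∃ y : ℤ_[2], u = m + 8 * y := by
  have h1 : ∀ z : ZMod (2 ^ 3), (∃ w, z = 2 * w) ∨ z = 1 ∨ z = 3 ∨ z = 5 ∨ z = 7 := by decide
  have key : ∀ m : ℤ, PadicInt.toZModPow 3 u = (m : ZMod (2 ^ 3)) → ∃ y : ℤ_[2], u = m + 8 * y := by
    intro m hm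
    have h2 : u - m ∈ RingHom.ker (PadicInt.toZModPow 3 : ℤ_[2] →+* ZMod (2 ^ 3)) := by
      rw [RingHom.mem_ker, map_sub, map_intCast, hm, sub_self]
    rw [PadicInt.ker_toZModPow, Ideal.mem_span_singleton] at h2
    obtain ⟨y, hy⟩ := h2
    refine ⟨y, ?_⟩
    have h3 : ((2 : ℕ) : ℤ_[2]) ^ 3 = 8 := by norm_num
    rw [h3] at hy
    linear_combination hy
  rcases h1 (PadicInt.toZModPow 3 u) with h | h | h | h | h
  · exfalso
    obtain ⟨w, hw⟩ := h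
    have h2 : IsUnit u := PadicInt.isUnit_iff.2 hu
    have h3 : IsUnit (PadicInt.toZModPow 3 u) := h2.map _
    rw [hw] at h3
    have h4 : ∀ w : ZMod (2 ^ 3), 4 * (2 * w) = 0 := by decide
    have h5 : (4 : ZMod (2 ^ 3)) = 0 := by
      apply h3.mul_right_cancel
      rw [h4 w, zero_mul]
    exact absurd h5 (by decide)
  · exact ⟨1, by simp, key 1 (by rw [h]; rfl)⟩
  · exact ⟨3, by simp, key 3 (by rw [h]; rfl)⟩
  · exact ⟨5, by simp, key 5 (by rw [h]; rfl)⟩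
  · exact ⟨7, by simp, key 7 (by rw [h]; rfl)⟩

/-- multiplying an odd integer by a unit of the same class gives a square -/
theorem isSquare_mul_two {u : ℤ_[2]} {m : ℤ} (hm : m = 1 ∨ m = 3 ∨ m = 5 ∨ m = 7) {y : ℤ_[2]}
    (hu : u = m + 8 * y) {e : ℤ} (he : (8 : ℤ) ∣ e - m) : IsSquare ((e : ℚ_[2]) * (u : ℚ_[2])) := by
  obtain ⟨k, hk⟩ := he
  obtain ⟨j, hj⟩ : ∃ j : ℤ, m ^ 2 = 1 + 8 * j := by
    rcases hm with rfl | rfl | rfl | rfl
    · exact ⟨0, by norm_num⟩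
    · exact ⟨1, by norm_num⟩
    · exact ⟨3, by norm_num⟩
    · exact ⟨6, by norm_num⟩
  have he' : e = m + 8 * k := by omega
  have h1 := isSquare_two ((j : ℤ_[2]) + k * m + m * y + 8 * k * y)
  have h2 : ((1 + 8 * ((j : ℤ_[2]) + k * m + m * y + 8 * k * y) : ℤ_[2]) : ℚ_[2]) =
      (e : ℚ_[2]) * (u : ℚ_[2]) := by
    have h3 : (1 + 8 * ((j : ℤ_[2]) + k * m + m * y + 8 * k * y) : ℤ_[2]) = (e : ℤ_[2]) * u := by
      rw [hu, he']
      push_cast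
      have hj' : (m : ℤ_[2]) ^ 2 = 1 + 8 * j := by exact_mod_cast congrArg (Int.cast : ℤ → ℤ_[2]) hj
      linear_combination -hj'
    rw [h3]
    push_cast
    rfl
  rwa [h2] at h1

theorem two_class {δ : ℚ_[2]} (h0 : δ ≠ 0) (hns : ¬ IsSquare δ) :
    ∃ (M₂ : ℕ) (a : ℤ), ((M₂ = 8 ∧ a = 3) ∨ (M₂ = 32 ∧ (a = 4 ∨ a = 20)) ∨
      (M₂ = 64 ∧ (a = 8 ∨ a = 24 ∨ a = 40 ∨ a = 56))) ∧
      ∀ D : ℤ, (M₂ : ℤ) ∣ D - a → ∃ d : ℤ, ((d % 8 = 3 ∧ D = d) ∨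
        ((d % 4 = 1 ∨ d % 4 = 2) ∧ D = 4 * d)) ∧ IsSquare ((-d : ℚ_[2]) * δ) := by
  obtain ⟨u, hu, hδ⟩ := exists_unit_form h0
  obtain ⟨m, hm, y, hy⟩ := unit_mod_eight u hu
  rcases Int.even_or_odd δ.valuation with hev | hod
  · have hsq : IsSquare (((2 : ℕ) : ℚ_[2]) ^ δ.valuation) := isSquare_zpow_even hev
    have key : ∀ d : ℤ, (8 : ℤ) ∣ -d - m → IsSquare ((-d : ℚ_[2]) * δ) := by
      intro d hd
      have h1 := isSquare_mul_two hm hy hd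
      have h2 := h1.mul hsq
      rw [mul_assoc, ← hδ] at h2
      push_cast at h2
      exact h2
    rcases hm with rfl | rfl | rfl | rfl
    · exfalso
      apply hns
      have h1 := isSquare_mul_two (u := u) (m := 1) (by simp) hy (e := 1) (by norm_num)
      have h2 := h1.mul hsq
      rw [mul_assoc, ← hδ] at h2
      simpa using h2
    · refine ⟨32, 20, by simp, ?_⟩
      intro D hD
      refine ⟨D / 4, Or.inr ⟨Or.inl (by omega), by omega⟩, key _ (by omega)⟩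
    · refine ⟨8, 3, by simp, ?_⟩
      intro D hD
      refine ⟨D, Or.inl ⟨by omega, rfl⟩, key _ (by omega)⟩
    · refine ⟨32, 4, by simp, ?_⟩
      intro D hD
      refine ⟨D / 4, Or.inr ⟨Or.inl (by omega), by omega⟩, key _ (by omega)⟩
  · have hsq : IsSquare (((2 : ℕ) : ℚ_[2]) ^ (δ.valuation + 1)) := isSquare_zpow_even hod.add_one
    have key : ∀ d : ℤ, (16 : ℤ) ∣ -d - 2 * m → IsSquare ((-d : ℚ_[2]) * δ) := by
      intro d hd
      obtain ⟨e, he⟩ : ∃ e : ℤ, -d = 2 * e := ⟨-d / 2, by omega⟩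
      have h1 := isSquare_mul_two hm hy (e := e) (by omega)
      have h2 := h1.mul hsq
      rw [zpow_add₀ (by norm_num), zpow_one] at h2
      have h3 : (-d : ℚ_[2]) * δ = (e : ℚ_[2]) * (u : ℚ_[2]) *
          (((2 : ℕ) : ℚ_[2]) ^ δ.valuation * ((2 : ℕ) : ℚ_[2])) := by
        have h4 : (-d : ℚ_[2]) = 2 * e := by exact_mod_cast congrArg (Int.cast : ℤ → ℚ_[2]) he
        rw [h4]
        nth_rewrite 1 [hδ]
        push_cast
        ring
      rw [h3]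
      exact h2
    have fin : ∀ a : ℤ, a = 64 - 8 * m → ∀ D : ℤ, ((64 : ℕ) : ℤ) ∣ D - a → ∃ d : ℤ,
        ((d % 8 = 3 ∧ D = d) ∨ ((d % 4 = 1 ∨ d % 4 = 2) ∧ D = 4 * d)) ∧
        IsSquare ((-d : ℚ_[2]) * δ) := by
      intro a ha D hD
      refine ⟨D / 4, Or.inr ⟨Or.inr (by omega), by omega⟩, key _ (by omega)⟩
    rcases hm with rfl | rfl | rfl | rfl
    · exact ⟨64, 56, by simp, fin 56 (by norm_num)⟩
    · exact ⟨64, 40, by simp, fin 40 (by norm_num)⟩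
    · exact ⟨64, 24, by simp, fin 24 (by norm_num)⟩
    · exact ⟨64, 8, by simp, fin 8 (by norm_num)⟩

/-- a unit is congruent to an integer -/
theorem unit_mod_p {p : ℕ} [Fact p.Prime] (u : ℤ_[p]) (hu : ‖u‖ = 1) :
    ∃ v : ℤ, ¬ (p : ℤ) ∣ v ∧ ∃ y : ℤ_[p], u = v + p * y := by
  have h2 : u - ((PadicInt.toZMod u).val : ℤ_[p]) ∈ RingHom.ker (PadicInt.toZMod : ℤ_[p] →+* ZMod p) := by
    rw [RingHom.mem_ker, map_sub, map_natCast, ZMod.natCast_zmod_val, sub_self]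
  rw [PadicInt.ker_toZMod, PadicInt.maximalIdeal_eq_span_p, Ideal.mem_span_singleton] at h2
  obtain ⟨y, hy⟩ := h2
  refine ⟨((PadicInt.toZMod u).val : ℤ), ?_, y, ?_⟩
  · intro h
    have h3 : (p : ℤ_[p]) ∣ u := by
      obtain ⟨k, hk⟩ := h
      refine ⟨k + y, ?_⟩
      have h4 : (((PadicInt.toZMod u).val : ℕ) : ℤ_[p]) = (p : ℤ_[p]) * k := by
        have := congrArg (Int.cast : ℤ → ℤ_[p]) hk
        push_cast at this
        exact this
      rw [h4] at hy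
      linear_combination hy
    have h4 := (PadicInt.norm_lt_one_iff_dvd u).2 h3
    rw [hu] at h4
    exact lt_irrefl _ h4
  · push_cast
    linear_combination hy

theorem q_class {q : ℕ} [Fact q.Prime] (h2 : q ≠ 2) {δ : ℚ_[q]} (h0 : δ ≠ 0)
    (hadm : IsSquare δ ∨ Odd δ.valuation) (f : ℤ) (hf : ¬ (q : ℤ) ∣ f) :
    ∃ (Mq : ℕ) (b : ℤ), ((Mq = q ∧ ¬ (q : ℤ) ∣ b) ∨
      (Mq = q ^ 2 ∧ ∃ b₁ : ℤ, b = q * b₁ ∧ ¬ (q : ℤ) ∣ b₁)) ∧
      ∀ d : ℤ, (Mq : ℤ) ∣ f * d - b → IsSquare ((-d : ℚ_[q]) * δ) ∧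
        ∃ r : ℤ, (q : ℤ) ∣ r ^ 2 + d := by
  have hq : q.Prime := Fact.out
  have hqZ : Prime (q : ℤ) := Nat.prime_iff_prime_int.1 hq
  have hcan : ∀ z : ℤ, (q : ℤ) ∣ f * z → (q : ℤ) ∣ z := fun z hz =>
    (hqZ.dvd_or_dvd hz).resolve_left hf
  rcases hadm with hs | ho
  · refine ⟨q, -f, Or.inl ⟨rfl, by rwa [dvd_neg]⟩, ?_⟩
    intro d hd
    obtain ⟨k, hk⟩ := hcan (d + 1) (by
      have : f * (d + 1) = f * d - -f := by ring
      rwa [this])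
    refine ⟨IsSquare.mul ?_ hs, 1, ⟨k, by linear_combination hk⟩⟩
    have h3 := isSquare_odd h2 (1 : ℤ_[q]) (-k) (by simp)
    have h4 : (((1 : ℤ_[q]) ^ 2 + q * (-k) : ℤ_[q]) : ℚ_[q]) = (-d : ℚ_[q]) := by
      have h5 : (d : ℚ_[q]) + 1 = q * k := by exact_mod_cast congrArg (Int.cast : ℤ → ℚ_[q]) hk
      push_cast
      linear_combination h5
    rwa [h4] at h3
  · obtain ⟨u, hu, hδ⟩ := exists_unit_form h0
    obtain ⟨v, hv, y, hy⟩ := unit_mod_p u hu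
    refine ⟨q ^ 2, q * (-f * v), Or.inr ⟨rfl, -f * v, rfl, ?_⟩, ?_⟩
    · intro h
      rcases hqZ.dvd_or_dvd h with h3 | h3
      · exact hf (by rwa [dvd_neg] at h3)
      · exact hv h3
    · intro d hd
      have h3 : (q : ℤ) ^ 2 ∣ d + q * v := by
        have h4 : (q : ℤ) ^ 2 ∣ f * (d + q * v) := by
          have : f * (d + q * v) = f * d - q * (-f * v) := by ring
          rw [this]
          exact_mod_cast hd
        have h5 : IsCoprime ((q : ℤ) ^ 2) f :=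
          IsCoprime.pow_left ((Prime.coprime_iff_not_dvd hqZ).2 hf)
        exact h5.dvd_of_dvd_mul_left h4
      obtain ⟨k, hk⟩ := h3
      have hsq : IsSquare (((q : ℕ) : ℚ_[q]) ^ (δ.valuation + 1)) := isSquare_zpow_even ho.add_one
      have hq0 : ((q : ℕ) : ℚ_[q]) ≠ 0 := by exact_mod_cast hq.ne_zero
      rw [zpow_add₀ hq0, zpow_one] at hsq
      have hvn : ‖(v : ℤ_[q])‖ = 1 := by
        apply le_antisymm (PadicInt.norm_le_one _)
        rw [← not_lt, PadicInt.norm_int_lt_one_iff_dvd]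
        exact hv
      have h6 := isSquare_odd h2 (v : ℤ_[q]) (v * y - k * v - q * k * y) hvn
      have h7 := h6.mul hsq
      have h8 : (-d : ℚ_[q]) * δ = (((v : ℤ_[q]) ^ 2 + q * (v * y - k * v - q * k * y) : ℤ_[q]) : ℚ_[q]) *
          (((q : ℕ) : ℚ_[q]) ^ δ.valuation * ((q : ℕ) : ℚ_[q])) := by
        have h9 : (d : ℚ_[q]) + q * v = q ^ 2 * k := by
          exact_mod_cast congrArg (Int.cast : ℤ → ℚ_[q]) hk
        have h10 : (u : ℚ_[q]) = v + q * y := by rw [hy]; push_cast; rfl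
        nth_rewrite 1 [hδ]
        rw [h10]
        push_cast
        linear_combination (-(v + q * (y : ℚ_[q])) * (q : ℚ_[q]) ^ δ.valuation) * h9
      refine ⟨by rw [h8]; exact h7, 0, ⟨q * k - v, by linear_combination hk⟩⟩

end Pool.Agent.Helper725_DH
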