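import Pool.Agent.Helper725_DH.Core
import Pool.Agent.Helper725_DH.Loc2
import Pool.Agent.Helper725_DH.PSq
import Pool.Agent.Helper725_DH.Imq

/-! Many imaginary quadratic fields with class number prime to three. -/

set_option autoImplicit false

namespace Pool.Agent.Helper725_DH

open NumberField

theorem crt3 {m₁ m₂ m₃ : ℕ} (h12 : m₁.Coprime m₂) (h13 : m₁.Coprime m₃) (h23 : m₂.Coprime m₃)
    (a b c : ℤ) : ∃ z : ℤ, (m₁ : ℤ) ∣ z - a ∧ (m₂ : ℤ) ∣ z - b ∧ (m₃ : ℤ) ∣ z - c := by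
  have two : ∀ {m n : ℤ}, IsCoprime m n → ∀ a b : ℤ, ∃ z : ℤ, m ∣ z - a ∧ n ∣ z - b := by
    intro m n h a b
    obtain ⟨u, v, huv⟩ := h
    refine ⟨a * (v * n) + b * (u * m), ⟨(b - a) * u, ?_⟩, ⟨(a - b) * v, ?_⟩⟩
    · linear_combination a * huv
    · linear_combination b * huv
  obtain ⟨y, hy1, hy2⟩ := two (Nat.isCoprime_iff_coprime.2 h12) a b
  have h : IsCoprime ((m₁ : ℤ) * m₂) (m₃ : ℤ) :=
    IsCoprime.mul_left (Nat.isCoprime_iff_coprime.2 h13) (Nat.isCoprime_iff_coprime.2 h23)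
  obtain ⟨z, hz1, hz2⟩ := two h y c
  refine ⟨z, ?_, ?_, hz2⟩
  · have : z - a = (z - y) + (y - a) := by ring
    rw [this]
    exact dvd_add ((Dvd.intro _ rfl).trans hz1) hy1
  · have : z - b = (z - y) + (y - b) := by ring
    rw [this]
    exact dvd_add ((Dvd.intro_left _ rfl).trans hz1) hy2

theorem exists_w (x : ℝ) (w₀ : ℕ) (hx : 10 * ((w₀ : ℝ) + 2) ^ 24 ≤ x) :
    ∃ w : ℕ, w₀ ≤ w ∧ 9 * (w : ℝ) ^ 24 < x ∧ x ≤ 10 * 2 ^ 24 * (w : ℝ) ^ 24 := by
  have hx0 : 0 < x := lt_of_lt_of_le (by positivity) hx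
  set y : ℝ := (x / 10) ^ ((1 : ℝ) / 24) with hy
  have hy0 : 0 ≤ y := by positivity
  have hy24 : y ^ 24 = x / 10 := by
    rw [hy, ← Real.rpow_natCast, ← Real.rpow_mul (by positivity)]
    norm_num
  have h1 : (w₀ : ℝ) + 2 ≤ y := by
    by_contra h
    rw [not_le] at h
    have : y ^ 24 < ((w₀ : ℝ) + 2) ^ 24 := by gcongr
    rw [hy24] at this
    linarith
  set w := ⌊y⌋₊ with hw
  have h2 : (w : ℝ) ≤ y := Nat.floor_le hy0
  have h3 : y < w + 1 := Nat.lt_floor_add_one y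
  have h4 : (w₀ : ℝ) + 1 < w := by linarith
  have h5 : w₀ ≤ w := by
    have : ((w₀ : ℕ) : ℝ) < w := by linarith
    exact_mod_cast this.le
  refine ⟨w, h5, ?_, ?_⟩
  · have : (w : ℝ) ^ 24 ≤ y ^ 24 := by gcongr
    rw [hy24] at this
    linarith
  · have hw1 : (1 : ℝ) ≤ w := by
      have : (0 : ℝ) ≤ w₀ := by positivity
      linarith
    have : y ^ 24 ≤ (2 * (w : ℝ)) ^ 24 := by
      apply pow_le_pow_left₀ hy0
      linarith
    rw [hy24, mul_pow] at this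
    linarith

theorem fields_many {q : ℕ} [Fact q.Prime] (hq : 5 ≤ q) {δ₂ : ℚ_[2]} (h20 : δ₂ ≠ 0)
    (h2 : ¬ IsSquare δ₂) {δq : ℚ_[q]} (hq0 : δq ≠ 0) (hadm : IsSquare δq ∨ Odd δq.valuation) :
    ∃ c : ℝ, 0 < c ∧ ∃ x₀ : ℝ, ∀ x : ℝ, x₀ ≤ x → ∃ S : Finset ℕ, c * x ≤ (S.card : ℝ) ∧
      ∀ d ∈ S, Squarefree d ∧ d % 3 = 1 ∧ (d % 8 = 3 ∨ d % 4 = 1 ∨ d % 4 = 2) ∧
        (if d % 4 = 3 then (d : ℝ) else 4 * d) < x ∧
        IsSquare ((-(d : ℚ_[2])) * δ₂) ∧ IsSquare ((-(d : ℚ_[q])) * δq) ∧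
        (∃ r : ℤ, (q : ℤ) ∣ r ^ 2 + d) ∧
        ∀ (K : Type) [Field K] [NumberField K], Module.finrank ℚ K = 2 →
          (∃ s : K, s ^ 2 = -(d : K)) → ¬ 3 ∣ Nat.card (ClassGroup (𝓞 K)) := by
  classical
  have hqp : q.Prime := Fact.out
  have hqZ : Prime (q : ℤ) := Nat.prime_iff_prime_int.1 hqp
  obtain ⟨M₂, a, hM₂, hD2⟩ := two_class h20 h2
  -- the factor between `D` and `d`
  obtain ⟨f, hf, hf2⟩ : ∃ f : ℤ, (f = 1 ∨ f = 4) ∧ ∀ D : ℤ, (M₂ : ℤ) ∣ D - a → ∀ d : ℤ,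
      ((d % 8 = 3 ∧ D = d) ∨ ((d % 4 = 1 ∨ d % 4 = 2) ∧ D = 4 * d)) → D = f * d := by
    rcases hM₂ with ⟨rfl, rfl⟩ | ⟨rfl, ha⟩ | ⟨rfl, ha⟩
    · refine ⟨1, Or.inl rfl, ?_⟩
      intro D hD d hd
      rcases hd with ⟨h3, h4⟩ | ⟨h3, h4⟩
      · rw [one_mul]; exact h4
      · omega
    · refine ⟨4, Or.inr rfl, ?_⟩
      intro D hD d hd
      rcases hd with ⟨h3, h4⟩ | ⟨h3, h4⟩
      · omega
      · exact h4
    · refine ⟨4, Or.inr rfl, ?_⟩
      intro D hD d hd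
      rcases hd with ⟨h3, h4⟩ | ⟨h3, h4⟩
      · omega
      · exact h4
  have hqf : ¬ (q : ℤ) ∣ f := by
    intro h
    rcases hf with rfl | rfl
    · have := Int.le_of_dvd (by norm_num) h
      omega
    · have := Int.le_of_dvd (by norm_num) h
      omega
  obtain ⟨Mq, b, hMq, hDq⟩ := q_class (by omega) hq0 hadm f hqf
  have hM2pow : ∃ k, M₂ = 2 ^ k := by
    rcases hM₂ with ⟨rfl, _⟩ | ⟨rfl, _⟩ | ⟨rfl, _⟩
    · exact ⟨3, by norm_num⟩
    · exact ⟨5, by norm_num⟩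
    · exact ⟨6, by norm_num⟩
  have hMqpow : ∃ k, Mq = q ^ k := by
    rcases hMq with ⟨rfl, _⟩ | ⟨rfl, _⟩
    · exact ⟨1, by simp⟩
    · exact ⟨2, rfl⟩
  have h23 : M₂.Coprime 3 := by
    obtain ⟨k, rfl⟩ := hM2pow
    exact Nat.Coprime.pow_left _ (by norm_num)
  have hq3 : Mq.Coprime 3 := by
    obtain ⟨k, rfl⟩ := hMqpow
    exact Nat.Coprime.pow_left _ ((Nat.coprime_primes hqp Nat.prime_three).2 (by omega))
  have h2q : M₂.Coprime Mq := by
    obtain ⟨k, rfl⟩ := hM2pow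
    obtain ⟨l, rfl⟩ := hMqpow
    exact Nat.Coprime.pow _ _ ((Nat.coprime_primes Nat.prime_two hqp).2 (by omega))
  have : NeZero M₂ := by
    obtain ⟨k, rfl⟩ := hM2pow
    exact ⟨by positivity⟩
  have : NeZero Mq := by
    obtain ⟨k, rfl⟩ := hMqpow
    exact ⟨pow_ne_zero _ hqp.ne_zero⟩
  obtain ⟨D₀, e2, e3, eq⟩ := crt3 h23 h2q hq3.symm a 1 b
  -- the local counts
  have c2 : 2 * (Finset.univ.filter (fun v : ZMod M₂ × ZMod M₂ × ZMod M₂ × ZMod M₂ =>
      dR v = ((-D₀ : ℤ) : ZMod M₂))).card ≤ 3 * M₂ ^ 3 := by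
    have hcast : ((-D₀ : ℤ) : ZMod M₂) = ((-a : ℤ) : ZMod M₂) := by
      apply (ZMod.intCast_eq_intCast_iff_dvd_sub _ _ _).2
      have : -a - -D₀ = D₀ - a := by ring
      rwa [this]
    rw [hcast]
    rcases hM₂ with ⟨rfl, rfl⟩ | ⟨rfl, rfl | rfl⟩ | ⟨rfl, rfl | rfl | rfl | rfl⟩
    · have := count_8
      have e : ((-3 : ℤ) : ZMod 8) = 5 := by decide
      rw [e]
      omega
    · have := count_32 (((-4 : ℤ) : ZMod 32)) (by decide)
      omega
    · have := count_32 (((-20 : ℤ) : ZMod 32)) (by decide)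
      omega
    · have := count_64 (((-8 : ℤ) : ZMod 64)) (by decide)
      omega
    · have := count_64 (((-24 : ℤ) : ZMod 64)) (by decide)
      omega
    · have := count_64 (((-40 : ℤ) : ZMod 64)) (by decide)
      omega
    · have := count_64 (((-56 : ℤ) : ZMod 64)) (by decide)
      omega
  have c3 : (Finset.univ.filter (fun v : ZMod 3 × ZMod 3 × ZMod 3 × ZMod 3 =>
      dR v = ((-D₀ : ℤ) : ZMod 3))).card ≤ 24 := by
    have hcast : ((-D₀ : ℤ) : ZMod 3) = 2 := by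
      have h5 : ((-D₀ : ℤ) : ZMod 3) = ((-1 : ℤ) : ZMod 3) := by
        apply (ZMod.intCast_eq_intCast_iff_dvd_sub _ _ _).2
        have : -1 - -D₀ = D₀ - 1 := by ring
        rwa [this]
      rw [h5]; decide
    rw [hcast, count_3]
  have cq : (Finset.univ.filter (fun v : ZMod Mq × ZMod Mq × ZMod Mq × ZMod Mq =>
      dR v = ((-D₀ : ℤ) : ZMod Mq))).card ≤ Mq ^ 3 := by
    have hcast : ((-D₀ : ℤ) : ZMod Mq) = ((-b : ℤ) : ZMod Mq) := by
      apply (ZMod.intCast_eq_intCast_iff_dvd_sub _ _ _).2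
      have : -b - -D₀ = D₀ - b := by ring
      rwa [this]
    rw [hcast]
    rcases hMq with ⟨rfl, hb⟩ | ⟨rfl, b₁, hb, hb₁⟩
    · apply count_p Mq (by omega)
      rw [Ne, ZMod.intCast_zmod_eq_zero_iff_dvd, dvd_neg]
      exact hb
    · have h5 : ((-b : ℤ) : ZMod (q ^ 2)) = (q : ZMod (q ^ 2)) * ((-b₁ : ℤ) : ZMod (q ^ 2)) := by
        rw [hb]; push_cast; ring
      rw [h5]
      have h6 : (q : ZMod (q ^ 2)) * ((-b₁ : ℤ) : ZMod (q ^ 2)) ≠ 0 := by
        rw [← h5, Ne, ZMod.intCast_zmod_eq_zero_iff_dvd, dvd_neg, hb]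
        intro h
        push_cast at h
        rw [pow_two] at h
        exact hb₁ (Int.dvd_of_mul_dvd_mul_left (by exact_mod_cast hqp.ne_zero) h)
      have h7 := count_p2 q (by omega) ((-b₁ : ℤ) : ZMod (q ^ 2)) h6
      refine h7.trans (le_of_eq ?_)
      ring
  obtain ⟨c, hc, w₀, hw₀⟩ := good_ge h23 hq3 h2q D₀ c2 c3 cq
  set M : ℕ := M₂ * 3 * Mq with hM
  refine ⟨c / (10 * 2 ^ 24), by positivity, 10 * ((w₀ : ℝ) + 2) ^ 24, ?_⟩
  intro x hx
  obtain ⟨w, hw, hwx, hxw⟩ := exists_w x w₀ hx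
  obtain ⟨G, hG, hGbad, hGcard⟩ := hw₀ w hw
  -- properties of the members
  have hM2d : (M₂ : ℤ) ∣ (M : ℤ) := by
    exact_mod_cast (Dvd.intro (3 * Mq) (by rw [hM]; ring) : M₂ ∣ M)
  have h3d : (3 : ℤ) ∣ (M : ℤ) := by
    exact_mod_cast (Dvd.intro (M₂ * Mq) (by rw [hM]; ring) : 3 ∣ M)
  have hMqd : (Mq : ℤ) ∣ (M : ℤ) := by
    exact_mod_cast (Dvd.intro (M₂ * 3) (by rw [hM]; ring) : Mq ∣ M)
  have hprop : ∀ D ∈ G, ∃ d : ℕ, D = f * d ∧ ((d % 8 = 3 ∧ D = d) ∨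
      ((d % 4 = 1 ∨ d % 4 = 2) ∧ D = 4 * d)) ∧ IsSquare ((-(d : ℚ_[2])) * δ₂) := by
    intro D hD
    have h5 := mem_DD.1 (hG hD)
    have h6 : (M₂ : ℤ) ∣ D - a := by
      have : D - a = (D - D₀) + (D₀ - a) := by ring
      rw [this]
      exact dvd_add (hM2d.trans h5.2.1) e2
    obtain ⟨d, hd, hsq⟩ := hD2 D h6
    have h7 := hf2 D h6 d hd
    have hDpos : 0 < D := by
      have := h5.1.1
      have h8 : (0 : ℤ) ≤ 4 * (w : ℤ) ^ 24 := by positivity
      omega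
    have hdpos : 0 < d := by
      rcases hd with ⟨_, h⟩ | ⟨_, h⟩ <;> omega
    obtain ⟨d', rfl⟩ := Int.eq_ofNat_of_zero_le hdpos.le
    refine ⟨d', h7, ?_, by exact_mod_cast hsq⟩
    omega
  choose! g hg1 hg2 hg3 using hprop
  have hginj : Set.InjOn g G := by
    intro D hD D' hD' h
    rw [hg1 D hD, hg1 D' hD', h]
  refine ⟨G.image g, ?_, ?_⟩
  · rw [Finset.card_image_of_injOn hginj]
    refine le_trans ?_ hGcard
    calc c / (10 * 2 ^ 24) * x ≤ c / (10 * 2 ^ 24) * (10 * 2 ^ 24 * (w : ℝ) ^ 24) := by gcongr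
      _ = c * (w : ℝ) ^ 24 := by field_simp
  · intro d hd
    rw [Finset.mem_image] at hd
    obtain ⟨D, hD, rfl⟩ := hd
    have h5 := mem_DD.1 (hG hD)
    have h6 := hg1 D hD
    have h7 := hg2 D hD
    have h8 := hg3 D hD
    set d := g D with hd
    have hDpos : 0 < D := by
      have := h5.1.1
      have h8 : (0 : ℤ) ≤ 4 * (w : ℤ) ^ 24 := by positivity
      omega
    have h3D : (3 : ℤ) ∣ D - 1 := by
      have : D - 1 = (D - D₀) + (D₀ - 1) := by ring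
      rw [this]
      exact dvd_add (h3d.trans h5.2.1) e3
    have hqD : (Mq : ℤ) ∣ D - b := by
      have : D - b = (D - D₀) + (D₀ - b) := by ring
      rw [this]
      exact dvd_add (hMqd.trans h5.2.1) eq
    have hsqf : Squarefree d := by
      rw [Nat.squarefree_iff_prime_squarefree]
      intro p hp hpd
      have hpD : (p : ℤ) ^ 2 ∣ D := by
        rw [h6, pow_two]
        apply Dvd.dvd.mul_left
        exact_mod_cast hpd
      by_cases hp2 : p = 2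
      · subst hp2
        obtain ⟨k, hk⟩ := hpd
        omega
      by_cases hp3 : p = 3
      · subst hp3
        have h9 : (3 : ℤ) ∣ D := by
          refine dvd_trans ?_ hpD
          norm_num
        omega
      by_cases hpq : p = q
      · subst hpq
        rcases hMq with ⟨rfl, hb⟩ | ⟨rfl, b₁, hb, hb₁⟩
        · have h9 : (Mq : ℤ) ∣ D := (Dvd.intro _ (pow_two _).symm).trans hpD
          exact hb (by
            have := dvd_sub h9 hqD
            rwa [sub_sub_cancel] at this)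
        · have h9 : (p : ℤ) ^ 2 ∣ b := by
            have h10 : ((p ^ 2 : ℕ) : ℤ) ∣ D - b := hqD
            push_cast at h10
            have := dvd_sub hpD h10
            rwa [sub_sub_cancel] at this
          rw [hb, pow_two] at h9
          exact hb₁ (Int.dvd_of_mul_dvd_mul_left (by exact_mod_cast hp.ne_zero) h9)
      · have hp5 : 5 ≤ p := by
          have h9 := hp.two_le
          have h10 : p ≠ 4 := by
            rintro rfl
            exact absurd hp (by norm_num)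
          omega
        apply h5.2.2 p hp hp5 _ hpD
        rw [hM]
        obtain ⟨k, hk⟩ := hM2pow
        obtain ⟨l, hl⟩ := hMqpow
        rw [hk, hl]
        apply Nat.Coprime.mul_right
        · apply Nat.Coprime.mul_right
          · exact Nat.Coprime.pow_right _ ((Nat.coprime_primes hp Nat.prime_two).2 hp2)
          · exact (Nat.coprime_primes hp Nat.prime_three).2 hp3
        · exact Nat.Coprime.pow_right _ ((Nat.coprime_primes hp hqp).2 hpq)
    obtain ⟨hsqq, r, hr⟩ := hDq d (by rw [← h6]; exact hqD)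
    refine ⟨hsqf, by omega, by omega, ?_, h8, by exact_mod_cast hsqq, ⟨r, hr⟩, ?_⟩
    · have h9 : (D : ℝ) < x := by
        have h10 : (D : ℝ) ≤ ((9 * (w : ℤ) ^ 24 : ℤ) : ℝ) := by exact_mod_cast h5.1.2
        push_cast at h10
        linarith
      rcases h7 with ⟨h10, h11⟩ | ⟨h10, h11⟩
      · rw [if_pos (by omega)]
        have h12 : (D : ℝ) = d := by rw [h11]; simp
        linarith
      · rw [if_neg (by omega)]
        have h12 : (D : ℝ) = 4 * d := by rw [h11]; push_cast; rfl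
        linarith
    · intro K _ _ hK hs h3
      obtain ⟨s, hs⟩ := hs
      apply hGbad D hD
      refine ⟨K, inferInstance, inferInstance, hK, ?_, h3⟩
      rcases h7 with ⟨h10, h11⟩ | ⟨h10, h11⟩
      · rw [(IQ.imq1 (by omega) hsqf hK hs).1, h11]
      · rw [(IQ.imq2 (by omega) hsqf hK hs).1, h11]

end Pool.Agent.Helper725_DH
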