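import Pool.Agent.Helper725_DH.ClassT

/-! Many imaginary quadratic fields with class number prime to three and prescribed completions at
finitely many primes. -/

set_option autoImplicit false

namespace Pool.Agent.Helper725_DH

open NumberField

theorem fields_manyT {δ₂ : ℚ_[2]} (h20 : δ₂ ≠ 0) (h2 : ¬ IsSquare δ₂) (T : Finset ℕ)
    (hT : ∀ p ∈ T, p.Prime ∧ 5 ≤ p)
    (δ : ∀ (p : ℕ) [Fact p.Prime], ℚ_[p]) (hδ : ∀ p ∈ T, ∀ [Fact p.Prime], δ p ≠ 0) :
    ∃ c : ℝ, 0 < c ∧ ∃ x₀ : ℝ, ∀ x : ℝ, x₀ ≤ x → ∃ S : Finset ℕ, c * x ≤ (S.card : ℝ) ∧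
      ∀ d ∈ S, Squarefree d ∧ d % 3 = 1 ∧ (d % 8 = 3 ∨ d % 4 = 1 ∨ d % 4 = 2) ∧
        (if d % 4 = 3 then (d : ℝ) else 4 * d) < x ∧
        IsSquare ((-(d : ℚ_[2])) * δ₂) ∧
        (∀ p ∈ T, ∀ [Fact p.Prime], IsSquare ((-(d : ℚ_[p])) * δ p)) ∧
        ∀ (K : Type) [Field K] [NumberField K], Module.finrank ℚ K = 2 →
          (∃ s : K, s ^ 2 = -(d : K)) → ¬ 3 ∣ Nat.card (ClassGroup (𝓞 K)) := by
  classical
  obtain ⟨M₂, a, hM₂, hD2⟩ := two_class h20 h2
  -- the factor between `D` and `d`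
  obtain ⟨f, hf, hf2⟩ : ∃ f : ℤ, (f = 1 ∨ f = 4) ∧ ∀ D : ℤ, (M₂ : ℤ) ∣ D - a → ∀ d : ℤ,
      ((d % 8 = 3 ∧ D = d) ∨ ((d % 4 = 1 ∨ d % 4 = 2) ∧ D = 4 * d)) → D = f * d := by
    rcases hM₂ with ⟨rfl, rfl⟩ | ⟨rfl, ha⟩ | ⟨rfl, ha⟩
    · refine ⟨1, Or.inl rfl, ?_⟩
      intro D hD d hd
      rcases hd with ⟨h3, h4⟩ | ⟨h3, h4⟩
      · rw [one_mul]; exact h4
      · omega
    · refine ⟨4, Or.inr rfl, ?_⟩
      intro D hD d hd
      rcases hd with ⟨h3, h4⟩ | ⟨h3, h4⟩
      · omega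
      · exact h4
    · refine ⟨4, Or.inr rfl, ?_⟩
      intro D hD d hd
      rcases hd with ⟨h3, h4⟩ | ⟨h3, h4⟩
      · omega
      · exact h4
  obtain ⟨Mq, b, hMq0, hMqT, hMqsq, hDq, cq0⟩ := T_class T hT δ hδ f hf
  have hM2pow : ∃ k, M₂ = 2 ^ k := by
    rcases hM₂ with ⟨rfl, _⟩ | ⟨rfl, _⟩ | ⟨rfl, _⟩
    · exact ⟨3, by norm_num⟩
    · exact ⟨5, by norm_num⟩
    · exact ⟨6, by norm_num⟩
  have h23 : M₂.Coprime 3 := by
    obtain ⟨k, rfl⟩ := hM2pow
    exact Nat.Coprime.pow_left _ (by norm_num)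
  have hq3 : Mq.Coprime 3 := by
    apply Nat.Coprime.symm
    rw [Nat.Prime.coprime_iff_not_dvd Nat.prime_three]
    intro h
    have := (hT 3 (hMqT 3 Nat.prime_three h)).2
    omega
  have h2q : M₂.Coprime Mq := by
    obtain ⟨k, rfl⟩ := hM2pow
    apply Nat.Coprime.pow_left
    rw [Nat.Prime.coprime_iff_not_dvd Nat.prime_two]
    intro h
    have := (hT 2 (hMqT 2 Nat.prime_two h)).2
    omega
  have : NeZero M₂ := by
    obtain ⟨k, rfl⟩ := hM2pow
    exact ⟨by positivity⟩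
  obtain ⟨D₀, e2, e3, eq⟩ := crt3 h23 h2q hq3.symm a 1 b
  -- the local counts
  have c2 : 2 * (Finset.univ.filter (fun v : ZMod M₂ × ZMod M₂ × ZMod M₂ × ZMod M₂ =>
      dR v = ((-D₀ : ℤ) : ZMod M₂))).card ≤ 3 * M₂ ^ 3 := by
    have hcast : ((-D₀ : ℤ) : ZMod M₂) = ((-a : ℤ) : ZMod M₂) := by
      apply (ZMod.intCast_eq_intCast_iff_dvd_sub _ _ _).2
      have : -a - -D₀ = D₀ - a := by ring
      rwa [this]
    rw [hcast]
    rcases hM₂ with ⟨rfl, rfl⟩ | ⟨rfl, rfl | rfl⟩ | ⟨rfl, rfl | rfl | rfl | rfl⟩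
    · have := count_8
      have e : ((-3 : ℤ) : ZMod 8) = 5 := by decide
      rw [e]
      omega
    · have := count_32 (((-4 : ℤ) : ZMod 32)) (by decide)
      omega
    · have := count_32 (((-20 : ℤ) : ZMod 32)) (by decide)
      omega
    · have := count_64 (((-8 : ℤ) : ZMod 64)) (by decide)
      omega
    · have := count_64 (((-24 : ℤ) : ZMod 64)) (by decide)
      omega
    · have := count_64 (((-40 : ℤ) : ZMod 64)) (by decide)
      omega
    · have := count_64 (((-56 : ℤ) : ZMod 64)) (by decide)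
      omega
  have c3 : (Finset.univ.filter (fun v : ZMod 3 × ZMod 3 × ZMod 3 × ZMod 3 =>
      dR v = ((-D₀ : ℤ) : ZMod 3))).card ≤ 24 := by
    have hcast : ((-D₀ : ℤ) : ZMod 3) = 2 := by
      have h5 : ((-D₀ : ℤ) : ZMod 3) = ((-1 : ℤ) : ZMod 3) := by
        apply (ZMod.intCast_eq_intCast_iff_dvd_sub _ _ _).2
        have : -1 - -D₀ = D₀ - 1 := by ring
        rwa [this]
      rw [h5]; decide
    rw [hcast, count_3]
  have cq : (Finset.univ.filter (fun v : ZMod Mq × ZMod Mq × ZMod Mq × ZMod Mq =>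
      dR v = ((-D₀ : ℤ) : ZMod Mq))).card ≤ Mq ^ 3 := by
    have hcast : ((-D₀ : ℤ) : ZMod Mq) = ((-b : ℤ) : ZMod Mq) := by
      apply (ZMod.intCast_eq_intCast_iff_dvd_sub _ _ _).2
      have : -b - -D₀ = D₀ - b := by ring
      rwa [this]
    rw [hcast]
    exact cq0
  obtain ⟨c, hc, w₀, hw₀⟩ := good_ge h23 hq3 h2q D₀ c2 c3 cq
  set M : ℕ := M₂ * 3 * Mq with hM
  refine ⟨c / (10 * 2 ^ 24), by positivity, 10 * ((w₀ : ℝ) + 2) ^ 24, ?_⟩
  intro x hx
  obtain ⟨w, hw, hwx, hxw⟩ := exists_w x w₀ hx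
  obtain ⟨G, hG, hGbad, hGcard⟩ := hw₀ w hw
  -- properties of the members
  have hM2d : (M₂ : ℤ) ∣ (M : ℤ) := by
    exact_mod_cast (Dvd.intro (3 * Mq) (by rw [hM]; ring) : M₂ ∣ M)
  have h3d : (3 : ℤ) ∣ (M : ℤ) := by
    exact_mod_cast (Dvd.intro (M₂ * Mq) (by rw [hM]; ring) : 3 ∣ M)
  have hMqd : (Mq : ℤ) ∣ (M : ℤ) := by
    exact_mod_cast (Dvd.intro (M₂ * 3) (by rw [hM]; ring) : Mq ∣ M)
  have hprop : ∀ D ∈ G, ∃ d : ℕ, D = f * d ∧ ((d % 8 = 3 ∧ D = d) ∨
      ((d % 4 = 1 ∨ d % 4 = 2) ∧ D = 4 * d)) ∧ IsSquare ((-(d : ℚ_[2])) * δ₂) := by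
    intro D hD
    have h5 := mem_DD.1 (hG hD)
    have h6 : (M₂ : ℤ) ∣ D - a := by
      have : D - a = (D - D₀) + (D₀ - a) := by ring
      rw [this]
      exact dvd_add (hM2d.trans h5.2.1) e2
    obtain ⟨d, hd, hsq⟩ := hD2 D h6
    have h7 := hf2 D h6 d hd
    have hDpos : 0 < D := by
      have := h5.1.1
      have h8 : (0 : ℤ) ≤ 4 * (w : ℤ) ^ 24 := by positivity
      omega
    have hdpos : 0 < d := by
      rcases hd with ⟨_, h⟩ | ⟨_, h⟩ <;> omega
    obtain ⟨d', rfl⟩ := Int.eq_ofNat_of_zero_le hdpos.le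
    refine ⟨d', h7, ?_, by exact_mod_cast hsq⟩
    omega
  choose! g hg1 hg2 hg3 using hprop
  have hginj : Set.InjOn g G := by
    intro D hD D' hD' h
    rw [hg1 D hD, hg1 D' hD', h]
  refine ⟨G.image g, ?_, ?_⟩
  · rw [Finset.card_image_of_injOn hginj]
    refine le_trans ?_ hGcard
    calc c / (10 * 2 ^ 24) * x ≤ c / (10 * 2 ^ 24) * (10 * 2 ^ 24 * (w : ℝ) ^ 24) := by gcongr
      _ = c * (w : ℝ) ^ 24 := by field_simp
  · intro d hd
    rw [Finset.mem_image] at hd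
    obtain ⟨D, hD, rfl⟩ := hd
    have h5 := mem_DD.1 (hG hD)
    have h6 := hg1 D hD
    have h7 := hg2 D hD
    have h8 := hg3 D hD
    set d := g D with hd
    have hDpos : 0 < D := by
      have := h5.1.1
      have h8 : (0 : ℤ) ≤ 4 * (w : ℤ) ^ 24 := by positivity
      omega
    have h3D : (3 : ℤ) ∣ D - 1 := by
      have : D - 1 = (D - D₀) + (D₀ - 1) := by ring
      rw [this]
      exact dvd_add (h3d.trans h5.2.1) e3
    have hqD : (Mq : ℤ) ∣ D - b := by
      have : D - b = (D - D₀) + (D₀ - b) := by ring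
      rw [this]
      exact dvd_add (hMqd.trans h5.2.1) eq
    have hsqf : Squarefree d := by
      rw [Nat.squarefree_iff_prime_squarefree]
      intro p hp hpd
      have hpD : (p : ℤ) ^ 2 ∣ D := by
        rw [h6, pow_two]
        apply Dvd.dvd.mul_left
        exact_mod_cast hpd
      by_cases hp2 : p = 2
      · subst hp2
        obtain ⟨k, hk⟩ := hpd
        omega
      by_cases hp3 : p = 3
      · subst hp3
        have h9 : (3 : ℤ) ∣ D := by
          refine dvd_trans ?_ hpD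
          norm_num
        omega
      by_cases hpq : p ∈ T
      · exact hMqsq D hqD p hpq hpD
      · have hp5 : 5 ≤ p := by
          have h9 := hp.two_le
          have h10 : p ≠ 4 := by
            rintro rfl
            exact absurd hp (by norm_num)
          omega
        apply h5.2.2 p hp hp5 _ hpD
        rw [hM]
        obtain ⟨k, hk⟩ := hM2pow
        rw [hk]
        apply Nat.Coprime.mul_right
        · apply Nat.Coprime.mul_right
          · exact Nat.Coprime.pow_right _ ((Nat.coprime_primes hp Nat.prime_two).2 hp2)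
          · exact (Nat.coprime_primes hp Nat.prime_three).2 hp3
        · rw [Nat.Prime.coprime_iff_not_dvd hp]
          intro h
          exact hpq (hMqT p hp h)
    have hsqq := hDq d (by rw [← h6]; exact hqD)
    refine ⟨hsqf, by omega, by omega, ?_, h8, ?_, ?_⟩
    · have h9 : (D : ℝ) < x := by
        have h10 : (D : ℝ) ≤ ((9 * (w : ℤ) ^ 24 : ℤ) : ℝ) := by exact_mod_cast h5.1.2
        push_cast at h10
        linarith
      rcases h7 with ⟨h10, h11⟩ | ⟨h10, h11⟩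
      · rw [if_pos (by omega)]
        have h12 : (D : ℝ) = d := by rw [h11]; simp
        linarith
      · rw [if_neg (by omega)]
        have h12 : (D : ℝ) = 4 * d := by rw [h11]; push_cast; rfl
        linarith
    · intro p hp _
      have := hsqq p hp
      exact_mod_cast this
    · intro K _ _ hK hs h3
      obtain ⟨s, hs⟩ := hs
      apply hGbad D hD
      refine ⟨K, inferInstance, inferInstance, hK, ?_, h3⟩
      rcases h7 with ⟨h10, h11⟩ | ⟨h10, h11⟩
      · rw [(IQ.imq1 (by omega) hsqf hK hs).1, h11]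
      · rw [(IQ.imq2 (by omega) hsqf hK hs).1, h11]

/-- a squarefree number whose opposite is a square in `ℚ_q`, up to a unit square or an element of
odd valuation -/
theorem exists_root {q : ℕ} [Fact q.Prime] {δ : ℚ_[q]} (h0 : δ ≠ 0)
    (hadm : IsSquare δ ∨ Odd δ.valuation) {d : ℕ} (hd : Squarefree d)
    (h : IsSquare ((-(d : ℚ_[q])) * δ)) : ∃ r : ℤ, (q : ℤ) ∣ r ^ 2 + d := by
  have hq : q.Prime := Fact.out
  have hd0 : (d : ℚ_[q]) ≠ 0 := by
    have := hd.ne_zero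
    exact_mod_cast this
  by_cases hqd : q ∣ d
  · exact ⟨0, by
      obtain ⟨k, hk⟩ := hqd
      exact ⟨k, by rw [hk]; push_cast; ring⟩⟩
  rcases hadm with hs | ho
  · -- `-d` is a square
    obtain ⟨s, hs⟩ := hs
    obtain ⟨t, ht⟩ := h
    have hs0 : s ≠ 0 := by
      rintro rfl
      exact h0 (by rw [hs, mul_zero])
    set z := t / s with hz
    have hz2 : z ^ 2 = -(d : ℚ_[q]) := by
      rw [hz]
      field_simp
      rw [hs] at ht
      linear_combination -ht
    have hzn : ‖z‖ ≤ 1 := by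
      have h1 : ‖z‖ ^ 2 ≤ 1 := by
        rw [← norm_pow, hz2, norm_neg]
        exact_mod_cast Padic.norm_int_le_one (d : ℤ)
      by_contra hcon
      rw [not_le] at hcon
      nlinarith [norm_nonneg z]
    set zz : ℤ_[q] := ⟨z, hzn⟩ with hzz
    have hzz2 : zz ^ 2 = -(d : ℤ_[q]) := by
      apply Subtype.ext
      push_cast
      exact hz2
    have h1 : (PadicInt.toZMod zz) ^ 2 = -(d : ZMod q) := by
      rw [← map_pow, hzz2, map_neg, map_natCast]
    refine ⟨((PadicInt.toZMod zz).val : ℤ), ?_⟩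
    apply (ZMod.intCast_zmod_eq_zero_iff_dvd _ _).1
    push_cast
    rw [ZMod.natCast_zmod_val, h1]
    ring
  · exfalso
    obtain ⟨t, ht⟩ := h
    have ht0 : t ≠ 0 := by
      rintro rfl
      rw [mul_zero] at ht
      rcases mul_eq_zero.1 ht with h | h
      · exact hd0 (neg_eq_zero.1 h)
      · exact h0 h
    have h1 := congrArg Padic.valuation ht
    rw [Padic.valuation_mul (neg_ne_zero.2 hd0) h0, Padic.valuation_mul ht0 ht0] at h1
    have h2 : (-(d : ℚ_[q])).valuation = 0 := by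
      have h3 : ‖(-(d : ℚ_[q]))‖ = 1 := by
        rw [norm_neg]
        apply le_antisymm
        · exact_mod_cast Padic.norm_int_le_one (d : ℤ)
        · rw [← not_lt]
          intro h4
          have h5 : ‖((d : ℤ) : ℚ_[q])‖ < 1 := by exact_mod_cast h4
          rw [Padic.norm_intCast_lt_one_iff] at h5
          exact hqd (by exact_mod_cast h5)
      rw [Padic.norm_eq_zpow_neg_valuation (neg_ne_zero.2 hd0)] at h3
      have hq1 : (1 : ℝ) < q := by exact_mod_cast hq.one_lt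
      have := (zpow_eq_one_iff_right₀ (by positivity) hq1.ne').1 h3
      omega
    rw [h2, zero_add] at h1
    obtain ⟨k, hk⟩ := ho
    omega

end Pool.Agent.Helper725_DH
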