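import Pool.Agent.Helper725_DH.FieldsT
import Pool.Agent.Helper725_DH.Core3

/-! Many imaginary quadratic fields with class number prime to three and prescribed completions at
finitely many primes, three included. -/

set_option autoImplicit false

namespace Pool.Agent.Helper725_DH

open NumberField

theorem count_3' : ∀ δ : ZMod 3, δ ≠ 0 →
    (Finset.univ.filter (fun v : ZMod 3 × ZMod 3 × ZMod 3 × ZMod 3 => dR v = δ)).card = 24 := by
  decide +kernel

theorem count_93 : (Finset.univ.filter (fun v : ZMod 9 × ZMod 9 × ZMod 9 × ZMod 9 =>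
      dR v = 3)).card = 648 := by decide +kernel

theorem count_96 : (Finset.univ.filter (fun v : ZMod 9 × ZMod 9 × ZMod 9 × ZMod 9 =>
      dR v = 6)).card = 648 := by decide +kernel

theorem count_9 (δ : ZMod 9) (h : δ = 3 ∨ δ = 6) :
    (Finset.univ.filter (fun v : ZMod 9 × ZMod 9 × ZMod 9 × ZMod 9 => dR v = δ)).card = 648 := by
  rcases h with rfl | rfl
  · exact count_93
  · exact count_96

theorem fields_manyU {δ₂ : ℚ_[2]} (h20 : δ₂ ≠ 0) (h2 : ¬ IsSquare δ₂) [Fact (Nat.Prime 3)]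
    {δ₃ : ℚ_[3]} (h30 : δ₃ ≠ 0) (T : Finset ℕ)
    (hT : ∀ p ∈ T, p.Prime ∧ 5 ≤ p)
    (δ : ∀ (p : ℕ) [Fact p.Prime], ℚ_[p]) (hδ : ∀ p ∈ T, ∀ [Fact p.Prime], δ p ≠ 0) :
    ∃ c : ℝ, 0 < c ∧ ∃ x₀ : ℝ, ∀ x : ℝ, x₀ ≤ x → ∃ S : Finset ℕ, c * x ≤ (S.card : ℝ) ∧
      ∀ d ∈ S, Squarefree d ∧ (d % 8 = 3 ∨ d % 4 = 1 ∨ d % 4 = 2) ∧
        (if d % 4 = 3 then (d : ℝ) else 4 * d) < x ∧
        IsSquare ((-(d : ℚ_[2])) * δ₂) ∧ IsSquare ((-(d : ℚ_[3])) * δ₃) ∧
        (∀ p ∈ T, ∀ [Fact p.Prime], IsSquare ((-(d : ℚ_[p])) * δ p)) ∧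
        ∀ (K : Type) [Field K] [NumberField K], Module.finrank ℚ K = 2 →
          (∃ s : K, s ^ 2 = -(d : K)) → ¬ 3 ∣ Nat.card (ClassGroup (𝓞 K)) := by
  classical
  obtain ⟨M₂, a, hM₂, hD2⟩ := two_class h20 h2
  -- the factor between `D` and `d`
  obtain ⟨f, hf, hf2⟩ : ∃ f : ℤ, (f = 1 ∨ f = 4) ∧ ∀ D : ℤ, (M₂ : ℤ) ∣ D - a → ∀ d : ℤ,
      ((d % 8 = 3 ∧ D = d) ∨ ((d % 4 = 1 ∨ d % 4 = 2) ∧ D = 4 * d)) → D = f * d := by
    rcases hM₂ with ⟨rfl, rfl⟩ | ⟨rfl, ha⟩ | ⟨rfl, ha⟩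
    · refine ⟨1, Or.inl rfl, ?_⟩
      intro D hD d hd
      rcases hd with ⟨h3, h4⟩ | ⟨h3, h4⟩
      · rw [one_mul]; exact h4
      · omega
    · refine ⟨4, Or.inr rfl, ?_⟩
      intro D hD d hd
      rcases hd with ⟨h3, h4⟩ | ⟨h3, h4⟩
      · omega
      · exact h4
    · refine ⟨4, Or.inr rfl, ?_⟩
      intro D hD d hd
      rcases hd with ⟨h3, h4⟩ | ⟨h3, h4⟩
      · omega
      · exact h4
  obtain ⟨Mq, b, hMq0, hMqT, hMqsq, hDq, cq0⟩ := T_class T hT δ hδ f hf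
  have hM2pow : ∃ k, M₂ = 2 ^ k := by
    rcases hM₂ with ⟨rfl, _⟩ | ⟨rfl, _⟩ | ⟨rfl, _⟩
    · exact ⟨3, by norm_num⟩
    · exact ⟨5, by norm_num⟩
    · exact ⟨6, by norm_num⟩
  have hqf3 : ¬ ((3 : ℕ) : ℤ) ∣ f := by
    intro h
    rcases hf with rfl | rfl
    · have := Int.le_of_dvd (by norm_num) h
      omega
    · omega
  obtain ⟨M₃, c3, hM₃, hD3⟩ := p_class (by norm_num) h30 f hqf3
  have hM3pow : ∃ k, M₃ = 3 ^ k := by
    rcases hM₃ with ⟨rfl, _⟩ | ⟨rfl, _⟩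
    · exact ⟨1, by simp⟩
    · exact ⟨2, rfl⟩
  have h23 : M₂.Coprime M₃ := by
    obtain ⟨k, rfl⟩ := hM2pow
    obtain ⟨l, rfl⟩ := hM3pow
    exact Nat.Coprime.pow _ _ (by norm_num)
  have hM3z : NeZero M₃ := by
    obtain ⟨k, rfl⟩ := hM3pow
    exact ⟨by positivity⟩
  have hq3 : Mq.Coprime M₃ := by
    obtain ⟨k, rfl⟩ := hM3pow
    apply Nat.Coprime.pow_right
    apply Nat.Coprime.symm
    rw [Nat.Prime.coprime_iff_not_dvd Nat.prime_three]
    intro h
    have := (hT 3 (hMqT 3 Nat.prime_three h)).2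
    omega
  have h2q : M₂.Coprime Mq := by
    obtain ⟨k, rfl⟩ := hM2pow
    apply Nat.Coprime.pow_left
    rw [Nat.Prime.coprime_iff_not_dvd Nat.prime_two]
    intro h
    have := (hT 2 (hMqT 2 Nat.prime_two h)).2
    omega
  have : NeZero M₂ := by
    obtain ⟨k, rfl⟩ := hM2pow
    exact ⟨by positivity⟩
  obtain ⟨D₀, e2, e3, eq⟩ := crt3 h23 h2q hq3.symm a c3 b
  -- the local counts
  have c2 : 2 * (Finset.univ.filter (fun v : ZMod M₂ × ZMod M₂ × ZMod M₂ × ZMod M₂ =>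
      dR v = ((-D₀ : ℤ) : ZMod M₂))).card ≤ 3 * M₂ ^ 3 := by
    have hcast : ((-D₀ : ℤ) : ZMod M₂) = ((-a : ℤ) : ZMod M₂) := by
      apply (ZMod.intCast_eq_intCast_iff_dvd_sub _ _ _).2
      have : -a - -D₀ = D₀ - a := by ring
      rwa [this]
    rw [hcast]
    rcases hM₂ with ⟨rfl, rfl⟩ | ⟨rfl, rfl | rfl⟩ | ⟨rfl, rfl | rfl | rfl | rfl⟩
    · have := count_8
      have e : ((-3 : ℤ) : ZMod 8) = 5 := by decide
      rw [e]
      omega
    · have := count_32 (((-4 : ℤ) : ZMod 32)) (by decide)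
      omega
    · have := count_32 (((-20 : ℤ) : ZMod 32)) (by decide)
      omega
    · have := count_64 (((-8 : ℤ) : ZMod 64)) (by decide)
      omega
    · have := count_64 (((-24 : ℤ) : ZMod 64)) (by decide)
      omega
    · have := count_64 (((-40 : ℤ) : ZMod 64)) (by decide)
      omega
    · have := count_64 (((-56 : ℤ) : ZMod 64)) (by decide)
      omega
  have hc3 : 9 * (Finset.univ.filter (fun v : ZMod M₃ × ZMod M₃ × ZMod M₃ × ZMod M₃ =>
      dR v = ((-D₀ : ℤ) : ZMod M₃))).card ≤ 8 * M₃ ^ 3 := by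
    have hcast : ((-D₀ : ℤ) : ZMod M₃) = ((-c3 : ℤ) : ZMod M₃) := by
      apply (ZMod.intCast_eq_intCast_iff_dvd_sub _ _ _).2
      have : -c3 - -D₀ = D₀ - c3 := by ring
      rwa [this]
    rw [hcast]
    rcases hM₃ with ⟨rfl, hb⟩ | ⟨hM9, b₁, hb, hb₁⟩
    · have h5 : ((-c3 : ℤ) : ZMod 3) ≠ 0 := by
        rw [Ne, ZMod.intCast_zmod_eq_zero_iff_dvd, dvd_neg]
        exact hb
      have := count_3' _ h5
      omega
    · obtain rfl : M₃ = 9 := by rw [hM9]; norm_num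
      have h5 : ((-c3 : ℤ) : ZMod 9) = 3 ∨ ((-c3 : ℤ) : ZMod 9) = 6 := by
        have h6 : (-c3) % 9 = 3 % 9 ∨ (-c3) % 9 = 6 % 9 := by
          rw [hb]
          omega
        rcases h6 with h6 | h6
        · left
          exact_mod_cast (ZMod.intCast_eq_intCast_iff _ _ 9).2 h6
        · right
          exact_mod_cast (ZMod.intCast_eq_intCast_iff _ _ 9).2 h6
      have := count_9 _ h5
      omega
  have cq : (Finset.univ.filter (fun v : ZMod Mq × ZMod Mq × ZMod Mq × ZMod Mq =>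
      dR v = ((-D₀ : ℤ) : ZMod Mq))).card ≤ Mq ^ 3 := by
    have hcast : ((-D₀ : ℤ) : ZMod Mq) = ((-b : ℤ) : ZMod Mq) := by
      apply (ZMod.intCast_eq_intCast_iff_dvd_sub _ _ _).2
      have : -b - -D₀ = D₀ - b := by ring
      rwa [this]
    rw [hcast]
    exact cq0
  obtain ⟨c, hc, w₀, hw₀⟩ := good_ge3 h23 hq3 h2q D₀ c2 hc3 cq
  set M : ℕ := M₂ * M₃ * Mq with hM
  refine ⟨c / (10 * 2 ^ 24), by positivity, 10 * ((w₀ : ℝ) + 2) ^ 24, ?_⟩
  intro x hx
  obtain ⟨w, hw, hwx, hxw⟩ := exists_w x w₀ hx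
  obtain ⟨G, hG, hGbad, hGcard⟩ := hw₀ w hw
  -- properties of the members
  have hM2d : (M₂ : ℤ) ∣ (M : ℤ) := by
    exact_mod_cast (Dvd.intro (M₃ * Mq) (by rw [hM]; ring) : M₂ ∣ M)
  have h3d : (M₃ : ℤ) ∣ (M : ℤ) := by
    exact_mod_cast (Dvd.intro (M₂ * Mq) (by rw [hM]; ring) : M₃ ∣ M)
  have hMqd : (Mq : ℤ) ∣ (M : ℤ) := by
    exact_mod_cast (Dvd.intro (M₂ * M₃) (by rw [hM]; ring) : Mq ∣ M)
  have hprop : ∀ D ∈ G, ∃ d : ℕ, D = f * d ∧ ((d % 8 = 3 ∧ D = d) ∨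
      ((d % 4 = 1 ∨ d % 4 = 2) ∧ D = 4 * d)) ∧ IsSquare ((-(d : ℚ_[2])) * δ₂) := by
    intro D hD
    have h5 := mem_DD.1 (hG hD)
    have h6 : (M₂ : ℤ) ∣ D - a := by
      have : D - a = (D - D₀) + (D₀ - a) := by ring
      rw [this]
      exact dvd_add (hM2d.trans h5.2.1) e2
    obtain ⟨d, hd, hsq⟩ := hD2 D h6
    have h7 := hf2 D h6 d hd
    have hDpos : 0 < D := by
      have := h5.1.1
      have h8 : (0 : ℤ) ≤ 4 * (w : ℤ) ^ 24 := by positivity
      omega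
    have hdpos : 0 < d := by
      rcases hd with ⟨_, h⟩ | ⟨_, h⟩ <;> omega
    obtain ⟨d', rfl⟩ := Int.eq_ofNat_of_zero_le hdpos.le
    refine ⟨d', h7, ?_, by exact_mod_cast hsq⟩
    omega
  choose! g hg1 hg2 hg3 using hprop
  have hginj : Set.InjOn g G := by
    intro D hD D' hD' h
    rw [hg1 D hD, hg1 D' hD', h]
  refine ⟨G.image g, ?_, ?_⟩
  · rw [Finset.card_image_of_injOn hginj]
    refine le_trans ?_ hGcard
    calc c / (10 * 2 ^ 24) * x ≤ c / (10 * 2 ^ 24) * (10 * 2 ^ 24 * (w : ℝ) ^ 24) := by gcongr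
      _ = c * (w : ℝ) ^ 24 := by field_simp
  · intro d hd
    rw [Finset.mem_image] at hd
    obtain ⟨D, hD, rfl⟩ := hd
    have h5 := mem_DD.1 (hG hD)
    have h6 := hg1 D hD
    have h7 := hg2 D hD
    have h8 := hg3 D hD
    set d := g D with hd
    have hDpos : 0 < D := by
      have := h5.1.1
      have h8 : (0 : ℤ) ≤ 4 * (w : ℤ) ^ 24 := by positivity
      omega
    have h3D : (M₃ : ℤ) ∣ D - c3 := by
      have : D - c3 = (D - D₀) + (D₀ - c3) := by ring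
      rw [this]
      exact dvd_add (h3d.trans h5.2.1) e3
    have hqD : (Mq : ℤ) ∣ D - b := by
      have : D - b = (D - D₀) + (D₀ - b) := by ring
      rw [this]
      exact dvd_add (hMqd.trans h5.2.1) eq
    have hsqf : Squarefree d := by
      rw [Nat.squarefree_iff_prime_squarefree]
      intro p hp hpd
      have hpD : (p : ℤ) ^ 2 ∣ D := by
        rw [h6, pow_two]
        apply Dvd.dvd.mul_left
        exact_mod_cast hpd
      by_cases hp2 : p = 2
      · subst hp2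
        obtain ⟨k, hk⟩ := hpd
        omega
      by_cases hp3 : p = 3
      · subst hp3
        rcases hM₃ with ⟨rfl, hb⟩ | ⟨rfl, b₁, hb, hb₁⟩
        · have h9 : ((3 : ℕ) : ℤ) ∣ D := (Dvd.intro _ (pow_two _).symm).trans hpD
          exact hb (by
            have := dvd_sub h9 h3D
            rwa [sub_sub_cancel] at this)
        · have h9 : ((3 : ℕ) : ℤ) ^ 2 ∣ c3 := by
            have h10 : ((3 ^ 2 : ℕ) : ℤ) ∣ D - c3 := h3D
            push_cast at h10 hpD ⊢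
            have := dvd_sub hpD h10
            rwa [sub_sub_cancel] at this
          push_cast at h9 hb hb₁
          omega
      by_cases hpq : p ∈ T
      · exact hMqsq D hqD p hpq hpD
      · have hp5 : 5 ≤ p := by
          have h9 := hp.two_le
          have h10 : p ≠ 4 := by
            rintro rfl
            exact absurd hp (by norm_num)
          omega
        apply h5.2.2 p hp hp5 _ hpD
        rw [hM]
        obtain ⟨k, hk⟩ := hM2pow
        obtain ⟨l, hl⟩ := hM3pow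
        rw [hk, hl]
        apply Nat.Coprime.mul_right
        · apply Nat.Coprime.mul_right
          · exact Nat.Coprime.pow_right _ ((Nat.coprime_primes hp Nat.prime_two).2 hp2)
          · exact Nat.Coprime.pow_right _ ((Nat.coprime_primes hp Nat.prime_three).2 hp3)
        · rw [Nat.Prime.coprime_iff_not_dvd hp]
          intro h
          exact hpq (hMqT p hp h)
    have hsqq := hDq d (by rw [← h6]; exact hqD)
    have hsq3 := hD3 d (by rw [← h6]; exact h3D)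
    refine ⟨hsqf, by omega, ?_, h8, by exact_mod_cast hsq3, ?_, ?_⟩
    · have h9 : (D : ℝ) < x := by
        have h10 : (D : ℝ) ≤ ((9 * (w : ℤ) ^ 24 : ℤ) : ℝ) := by exact_mod_cast h5.1.2
        push_cast at h10
        linarith
      rcases h7 with ⟨h10, h11⟩ | ⟨h10, h11⟩
      · rw [if_pos (by omega)]
        have h12 : (D : ℝ) = d := by rw [h11]; simp
        linarith
      · rw [if_neg (by omega)]
        have h12 : (D : ℝ) = 4 * d := by rw [h11]; push_cast; rfl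
        linarith
    · intro p hp _
      have := hsqq p hp
      exact_mod_cast this
    · intro K _ _ hK hs h3
      obtain ⟨s, hs⟩ := hs
      apply hGbad D hD
      refine ⟨K, inferInstance, inferInstance, hK, ?_, h3⟩
      rcases h7 with ⟨h10, h11⟩ | ⟨h10, h11⟩
      · rw [(IQ.imq1 (by omega) hsqf hK hs).1, h11]
      · rw [(IQ.imq2 (by omega) hsqf hK hs).1, h11]

end Pool.Agent.Helper725_DH
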