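import Mathlib

/-! An integral. -/

set_option autoImplicit false

namespace Pool.Agent.Helper725_DH

open MeasureTheory Set

/-- the primitive of arcsin -/
noncomputable def hh (u : ℝ) : ℝ := √(1 - u ^ 2) + u * Real.arcsin u

theorem hh_cont : Continuous hh := by
  unfold hh
  fun_prop

theorem hh_deriv {u : ℝ} (h0 : 0 ≤ u) (h1 : u ≠ 1) : HasDerivAt hh (Real.arcsin u) u := by
  rcases lt_or_gt_of_ne h1 with h | h
  · have hpos : 0 < 1 - u ^ 2 := by nlinarith
    have d1 : HasDerivAt (fun u : ℝ => 1 - u ^ 2) (-(2 * u)) u := by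
      have := (hasDerivAt_pow 2 u).const_sub 1
      simpa using this
    have d2 := d1.sqrt hpos.ne'
    have d3 := (hasDerivAt_id u).mul (Real.hasDerivAt_arcsin (by linarith) h.ne)
    have d4 := d2.add d3
    refine (d4.congr_deriv ?_)
    have hs : √(1 - u ^ 2) ≠ 0 := (Real.sqrt_pos.2 hpos).ne'
    simp only [id]
    field_simp
    ring
  · have hev : hh =ᶠ[nhds u] fun u => u * (Real.pi / 2) := by
      filter_upwards [lt_mem_nhds h] with v hv
      unfold hh
      rw [Real.sqrt_eq_zero_of_nonpos (by nlinarith), Real.arcsin_of_one_le hv.le, zero_add]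
    have d1 : HasDerivAt (fun u : ℝ => u * (Real.pi / 2)) (Real.pi / 2) u := by
      simpa using (hasDerivAt_id u).mul_const (Real.pi / 2)
    rw [Real.arcsin_of_one_le h.le]
    exact d1.congr_of_eventuallyEq hev

theorem hh_diff {u v : ℝ} (h0 : 0 ≤ u) (h1 : u ≤ v) :
    0 ≤ hh v - hh u ∧ hh v - hh u ≤ Real.pi / 2 * (v - u) := by
  have hint : IntervalIntegrable Real.arcsin volume u v :=
    Real.continuous_arcsin.intervalIntegrable _ _
  have h := MeasureTheory.integral_eq_of_hasDerivAt_off_countable hh Real.arcsin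
    (s := {1}) (a := u) (b := v) (countable_singleton _) hh_cont.continuousOn (by
      intro x hx
      rw [min_eq_left h1, max_eq_right h1] at hx
      exact hh_deriv (h0.trans hx.1.1.le) hx.2) hint
  rw [← h]
  constructor
  · apply intervalIntegral.integral_nonneg h1
    intro x hx
    exact Real.arcsin_nonneg.2 (h0.trans hx.1)
  · have h2 : ∫ x in u..v, Real.arcsin x ≤ ∫ x in u..v, Real.pi / 2 := by
      apply intervalIntegral.integral_mono_on h1 hint (by simp)
      intro x _
      exact Real.arcsin_le_pi_div_two x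
    rw [intervalIntegral.integral_const, smul_eq_mul] at h2
    linarith

/-- the integral of `2 sqrt (R - t^2 a^2) / a^2`, with `R = r^2` -/
theorem int_one {r t a1 a2 : ℝ} (hr : 0 < r) (ht : 0 < t) (h1 : 0 < a1) (h2 : a1 ≤ a2) :
    ∫ a in a1..a2, 2 * √(r ^ 2 - t ^ 2 * a ^ 2) / a ^ 2 =
      2 * r / a1 * hh (t * a1 / r) - 2 * r / a2 * hh (t * a2 / r) := by
  have hpos : ∀ x ∈ uIcc a1 a2, 0 < x := by
    intro x hx
    rw [uIcc_of_le h2] at hx
    linarith [hx.1]
  have hc : ContinuousOn (fun a : ℝ => -(2 * r / a * hh (t * a / r))) (uIcc a1 a2) := by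
    have c1 : ContinuousOn (fun a : ℝ => 2 * r / a) (uIcc a1 a2) :=
      continuousOn_const.div continuousOn_id (fun x hx => (hpos x hx).ne')
    have c2 : ContinuousOn (fun a : ℝ => hh (t * a / r)) (uIcc a1 a2) :=
      (hh_cont.comp (by fun_prop)).continuousOn
    exact (c1.mul c2).neg
  have hint : IntervalIntegrable (fun a : ℝ => 2 * √(r ^ 2 - t ^ 2 * a ^ 2) / a ^ 2) volume a1 a2 := by
    apply ContinuousOn.intervalIntegrable
    apply ContinuousOn.div (by fun_prop) (by fun_prop)
    intro x hx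
    exact pow_ne_zero 2 (hpos x hx).ne'
  have h := MeasureTheory.integral_eq_of_hasDerivAt_off_countable
    (fun a : ℝ => -(2 * r / a * hh (t * a / r))) (fun a : ℝ => 2 * √(r ^ 2 - t ^ 2 * a ^ 2) / a ^ 2)
    (s := {r / t}) (a := a1) (b := a2) (countable_singleton _) hc (by
      intro x hx
      rw [min_eq_left h2, max_eq_right h2] at hx
      have hx0 : 0 < x := h1.trans hx.1.1
      have hu : t * x / r ≠ 1 := by
        intro h
        apply hx.2
        rw [mem_singleton_iff, eq_div_iff ht.ne']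
        rw [div_eq_iff hr.ne'] at h
        linarith
      have d0 : HasDerivAt (fun a : ℝ => t * a / r) (t / r) x := by
        have := ((hasDerivAt_id x).const_mul t).div_const r
        simpa using this
      have d1 := (hh_deriv (u := t * x / r) (by positivity) hu).comp x d0
      have d2 : HasDerivAt (fun a : ℝ => 2 * r / a) (-(2 * r) / x ^ 2) x := by
        have := (hasDerivAt_inv hx0.ne').const_mul (2 * r)
        refine (this.congr_deriv ?_)
        ring
      have d3 := (d2.mul d1).neg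
      refine (d3.congr_deriv ?_)
      have hs : √(r ^ 2 - t ^ 2 * x ^ 2) = r * √(1 - (t * x / r) ^ 2) := by
        have e : r ^ 2 - t ^ 2 * x ^ 2 = r ^ 2 * (1 - (t * x / r) ^ 2) := by
          field_simp
        rw [e, Real.sqrt_mul (sq_nonneg r), Real.sqrt_sq hr.le]
      rw [hs]
      unfold hh
      simp only [Function.comp]
      field_simp
      ring) hint
  rw [h]
  ring

/-- the difference of two such integrals -/
theorem int_two {r s t a1 a2 : ℝ} (hr : 0 < r) (hs : 0 < s) (hst : s ≤ t) (h1 : 0 < a1)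
    (h2 : a1 ≤ a2) :
    ∫ a in a1..a2, 2 * (√(r ^ 2 - s ^ 2 * a ^ 2) - √(r ^ 2 - t ^ 2 * a ^ 2)) / a ^ 2 ≤
      Real.pi * (t - s) := by
  have ha2 : 0 < a2 := by linarith
  have ht : 0 < t := by linarith
  have hpos : ∀ x ∈ uIcc a1 a2, 0 < x := by
    intro x hx
    rw [uIcc_of_le h2] at hx
    linarith [hx.1]
  have hint : ∀ t : ℝ, IntervalIntegrable (fun a : ℝ => 2 * √(r ^ 2 - t ^ 2 * a ^ 2) / a ^ 2)
      volume a1 a2 := by
    intro t
    apply ContinuousOn.intervalIntegrable
    apply ContinuousOn.div (by fun_prop) (by fun_prop)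
    intro x hx
    exact pow_ne_zero 2 (hpos x hx).ne'
  have e : (fun a : ℝ => 2 * (√(r ^ 2 - s ^ 2 * a ^ 2) - √(r ^ 2 - t ^ 2 * a ^ 2)) / a ^ 2) =
      fun a => 2 * √(r ^ 2 - s ^ 2 * a ^ 2) / a ^ 2 - 2 * √(r ^ 2 - t ^ 2 * a ^ 2) / a ^ 2 := by
    funext a; ring
  rw [e, intervalIntegral.integral_sub (hint s) (hint t), int_one hr hs h1 h2, int_one hr ht h1 h2]
  have k1 := (hh_diff (u := s * a1 / r) (v := t * a1 / r) (by positivity) (by gcongr)).1
  have k2 := (hh_diff (u := s * a2 / r) (v := t * a2 / r) (by positivity) (by gcongr)).2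
  have k3 : 0 ≤ 2 * r / a1 * (hh (t * a1 / r) - hh (s * a1 / r)) := by positivity
  have k4 : 2 * r / a2 * (hh (t * a2 / r) - hh (s * a2 / r)) ≤
      2 * r / a2 * (Real.pi / 2 * (t * a2 / r - s * a2 / r)) := by gcongr
  have k5 : 2 * r / a2 * (Real.pi / 2 * (t * a2 / r - s * a2 / r)) = Real.pi * (t - s) := by
    field_simp
  linarith

end Pool.Agent.Helper725_DH
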