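import Pool.Agent.Helper725_DH.Sum
import Pool.Agent.Helper725_DH.Prim

/-! Monotonicity of the counting functions. -/

set_option autoImplicit false

namespace Pool.Agent.Helper725_DH

open MeasureTheory Set

/-- the difference of square roots -/
noncomputable def ph (r2 s t a : ℝ) : ℝ := √(r2 - s ^ 2 * a ^ 2) - √(r2 - t ^ 2 * a ^ 2)

theorem ph_nonneg {r2 s t a : ℝ} (hs : 0 ≤ s) (hst : s ≤ t) : 0 ≤ ph r2 s t a := by
  unfold ph
  have : √(r2 - t ^ 2 * a ^ 2) ≤ √(r2 - s ^ 2 * a ^ 2) := by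
    apply Real.sqrt_le_sqrt
    have : s ^ 2 ≤ t ^ 2 := by gcongr
    nlinarith [sq_nonneg a]
  linarith

theorem ph_le {r2 s t a : ℝ} : ph r2 s t a ≤ √r2 := by
  unfold ph
  have h1 : √(r2 - s ^ 2 * a ^ 2) ≤ √r2 := by
    apply Real.sqrt_le_sqrt
    nlinarith [mul_nonneg (sq_nonneg s) (sq_nonneg a)]
  linarith [Real.sqrt_nonneg (r2 - t ^ 2 * a ^ 2)]

theorem sqrt_conc {u v δ : ℝ} (hu : 0 ≤ u) (huv : u ≤ v) (hδ : 0 ≤ δ) :
    √(v + δ) - √v ≤ √(u + δ) - √u := by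
  have h : √(v + δ) + √u ≤ √(u + δ) + √v := by
    refine (pow_le_pow_iff_left₀ (by positivity) (by positivity) two_ne_zero).1 ?_
    have e1 : (√(v + δ) + √u) ^ 2 = v + δ + u + 2 * √((v + δ) * u) := by
      rw [Real.sqrt_mul (by linarith), add_sq, Real.sq_sqrt (by linarith), Real.sq_sqrt hu]; ring
    have e2 : (√(u + δ) + √v) ^ 2 = v + δ + u + 2 * √((u + δ) * v) := by
      rw [Real.sqrt_mul (by linarith), add_sq, Real.sq_sqrt (by linarith),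
        Real.sq_sqrt (by linarith)]; ring
    rw [e1, e2]
    have : √((v + δ) * u) ≤ √((u + δ) * v) := Real.sqrt_le_sqrt (by nlinarith)
    linarith
  linarith

/-- monotone in the first variable below the kink -/
theorem ph_mono {r2 r2' s t a : ℝ} (hs : 0 ≤ s) (h : r2 ≤ r2')
    (hk : r2' ≤ t ^ 2 * a ^ 2) : ph r2 s t a ≤ ph r2' s t a := by
  unfold ph
  rw [Real.sqrt_eq_zero_of_nonpos (by linarith : r2 - t ^ 2 * a ^ 2 ≤ 0),
    Real.sqrt_eq_zero_of_nonpos (by linarith : r2' - t ^ 2 * a ^ 2 ≤ 0)]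
  have : √(r2 - s ^ 2 * a ^ 2) ≤ √(r2' - s ^ 2 * a ^ 2) := Real.sqrt_le_sqrt (by linarith)
  linarith

/-- antitone in the first variable above the kink -/
theorem ph_anti {r2 r2' s t a : ℝ} (hs : 0 ≤ s) (hst : s ≤ t) (h : r2 ≤ r2')
    (hk : t ^ 2 * a ^ 2 ≤ r2) : ph r2' s t a ≤ ph r2 s t a := by
  unfold ph
  have hsq : s ^ 2 ≤ t ^ 2 := by gcongr
  have := sqrt_conc (u := r2 - t ^ 2 * a ^ 2) (v := r2' - t ^ 2 * a ^ 2)
    (δ := (t ^ 2 - s ^ 2) * a ^ 2) (by linarith) (by linarith)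
    (mul_nonneg (by linarith) (sq_nonneg a))
  have e1 : r2 - t ^ 2 * a ^ 2 + (t ^ 2 - s ^ 2) * a ^ 2 = r2 - s ^ 2 * a ^ 2 := by ring
  have e2 : r2' - t ^ 2 * a ^ 2 + (t ^ 2 - s ^ 2) * a ^ 2 = r2' - s ^ 2 * a ^ 2 := by ring
  rw [e1, e2] at this
  exact this

/-- formula below the kink -/
theorem g_eq {r s t a : ℝ} (hr : 0 < r) (hs : 0 < s) (hst : s < t) (ha : 0 < a)
    (h : t * a ≤ r) : ph (r ^ 2) s t a / a ^ 2 =
      (t ^ 2 - s ^ 2) / (√(r ^ 2 - s ^ 2 * a ^ 2) + √(r ^ 2 - t ^ 2 * a ^ 2)) := by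
  have ht : 0 < t := by linarith
  have hta : t ^ 2 * a ^ 2 ≤ r ^ 2 := by
    have : (t * a) ^ 2 ≤ r ^ 2 := by gcongr
    nlinarith
  have hsa : s ^ 2 * a ^ 2 < t ^ 2 * a ^ 2 := by
    have : s ^ 2 < t ^ 2 := by gcongr
    nlinarith [pow_pos ha 2]
  have hp : 0 < √(r ^ 2 - s ^ 2 * a ^ 2) := Real.sqrt_pos.2 (by linarith)
  have hp2 : 0 < √(r ^ 2 - s ^ 2 * a ^ 2) + √(r ^ 2 - t ^ 2 * a ^ 2) := by positivity
  rw [div_eq_div_iff (by positivity) hp2.ne']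
  unfold ph
  have e1 := Real.sq_sqrt (show 0 ≤ r ^ 2 - s ^ 2 * a ^ 2 by linarith)
  have e2 := Real.sq_sqrt (show 0 ≤ r ^ 2 - t ^ 2 * a ^ 2 by linarith)
  linear_combination e1 - e2

theorem g_mono {r s t a b : ℝ} (hr : 0 < r) (hs : 0 < s) (hst : s < t) (ha : 0 < a)
    (hab : a ≤ b) (h : t * b ≤ r) : ph (r ^ 2) s t a / a ^ 2 ≤ ph (r ^ 2) s t b / b ^ 2 := by
  have hb : 0 < b := by linarith
  have ht : 0 < t := by linarith
  have hta : t * a ≤ r := (mul_le_mul_of_nonneg_left hab ht.le).trans h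
  rw [g_eq hr hs hst ha hta, g_eq hr hs hst hb h]
  have htb : t ^ 2 * b ^ 2 ≤ r ^ 2 := by
    have : (t * b) ^ 2 ≤ r ^ 2 := by gcongr
    nlinarith
  have hsb : s ^ 2 * b ^ 2 < t ^ 2 * b ^ 2 := by
    have : s ^ 2 < t ^ 2 := by gcongr
    nlinarith [pow_pos hb 2]
  have hp : 0 < √(r ^ 2 - s ^ 2 * b ^ 2) := Real.sqrt_pos.2 (by linarith)
  have h1 : √(r ^ 2 - s ^ 2 * b ^ 2) ≤ √(r ^ 2 - s ^ 2 * a ^ 2) := by
    apply Real.sqrt_le_sqrt; gcongr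
  have h2 : √(r ^ 2 - t ^ 2 * b ^ 2) ≤ √(r ^ 2 - t ^ 2 * a ^ 2) := by
    apply Real.sqrt_le_sqrt; gcongr
  have hst2 : 0 ≤ t ^ 2 - s ^ 2 := by
    have : s ^ 2 < t ^ 2 := by gcongr
    linarith
  apply div_le_div_of_nonneg_left hst2 (by positivity)
  linarith

theorem g_anti {r s t a b : ℝ} (hr : 0 < r) (hs : 0 < s) (hst : s < t) (ha : 0 < a)
    (hab : a ≤ b) (h : r ≤ t * a) : ph (r ^ 2) s t b / b ^ 2 ≤ ph (r ^ 2) s t a / a ^ 2 := by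
  have hb : 0 < b := by linarith
  have ht : 0 < t := by linarith
  have hta : r ≤ t * b := h.trans (mul_le_mul_of_nonneg_left hab ht.le)
  have e1 : r ^ 2 ≤ t ^ 2 * a ^ 2 := by
    have : r ^ 2 ≤ (t * a) ^ 2 := by gcongr
    nlinarith
  have e2 : r ^ 2 ≤ t ^ 2 * b ^ 2 := by
    have : r ^ 2 ≤ (t * b) ^ 2 := by gcongr
    nlinarith
  unfold ph
  rw [Real.sqrt_eq_zero_of_nonpos (by linarith : r ^ 2 - t ^ 2 * a ^ 2 ≤ 0),
    Real.sqrt_eq_zero_of_nonpos (by linarith : r ^ 2 - t ^ 2 * b ^ 2 ≤ 0), sub_zero, sub_zero]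
  apply div_le_div₀ (Real.sqrt_nonneg _) _ (by positivity) (by gcongr)
  apply Real.sqrt_le_sqrt; gcongr

theorem g_le {r s t a : ℝ} (hr : 0 < r) (hs : 0 < s) (hst : s < t) (ha : 0 < a) :
    ph (r ^ 2) s t a / a ^ 2 ≤ t ^ 2 / r := by
  have ht : 0 < t := by linarith
  rcases le_or_gt (t * a) r with h | h
  · rw [g_eq hr hs hst ha h]
    have hta : t ^ 2 * a ^ 2 ≤ r ^ 2 := by
      have : (t * a) ^ 2 ≤ r ^ 2 := by gcongr
      nlinarith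
    have hst2 : 0 < t ^ 2 - s ^ 2 := by
      have : s ^ 2 < t ^ 2 := by gcongr
      linarith
    have hsa : s ^ 2 * a ^ 2 < t ^ 2 * a ^ 2 := by
      nlinarith [pow_pos ha 2]
    have hlow : r * (t ^ 2 - s ^ 2) / t ^ 2 ≤ √(r ^ 2 - s ^ 2 * a ^ 2) := by
      apply Real.le_sqrt_of_sq_le
      have h1 : (r * (t ^ 2 - s ^ 2) / t ^ 2) ^ 2 = r ^ 2 * ((t ^ 2 - s ^ 2) / t ^ 2) ^ 2 := by
        ring
      have h2 : ((t ^ 2 - s ^ 2) / t ^ 2) ^ 2 ≤ (t ^ 2 - s ^ 2) / t ^ 2 := by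
        have h3 : (t ^ 2 - s ^ 2) / t ^ 2 ≤ 1 := by
          rw [div_le_one (by positivity)]; nlinarith [pow_pos hs 2]
        have h4 : 0 ≤ (t ^ 2 - s ^ 2) / t ^ 2 := by positivity
        nlinarith
      have h5 : s ^ 2 * a ^ 2 ≤ s ^ 2 * (r ^ 2 / t ^ 2) := by
        have : a ^ 2 ≤ r ^ 2 / t ^ 2 := by
          rw [le_div_iff₀ (by positivity)]; linarith
        gcongr
      have h6 : r ^ 2 * ((t ^ 2 - s ^ 2) / t ^ 2) = r ^ 2 - s ^ 2 * (r ^ 2 / t ^ 2) := by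
        field_simp
      rw [h1]
      have h7 : r ^ 2 * ((t ^ 2 - s ^ 2) / t ^ 2) ^ 2 ≤ r ^ 2 * ((t ^ 2 - s ^ 2) / t ^ 2) := by
        gcongr
      linarith
    have hpos : 0 < r * (t ^ 2 - s ^ 2) / t ^ 2 := by positivity
    calc (t ^ 2 - s ^ 2) / (√(r ^ 2 - s ^ 2 * a ^ 2) + √(r ^ 2 - t ^ 2 * a ^ 2))
        ≤ (t ^ 2 - s ^ 2) / (r * (t ^ 2 - s ^ 2) / t ^ 2) := by
          apply div_le_div_of_nonneg_left hst2.le hpos
          linarith [Real.sqrt_nonneg (r ^ 2 - t ^ 2 * a ^ 2)]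
      _ = t ^ 2 / r := by
          field_simp
  · have h1 : ph (r ^ 2) s t a ≤ r := by
      have := ph_le (r2 := r ^ 2) (s := s) (t := t) (a := a)
      rwa [Real.sqrt_sq hr.le] at this
    have h2 : r ^ 2 ≤ t ^ 2 * a ^ 2 := by
      have : r ^ 2 ≤ (t * a) ^ 2 := by gcongr
      nlinarith
    rw [div_le_div_iff₀ (by positivity) hr]
    nlinarith [mul_le_mul_of_nonneg_right h1 hr.le]

end Pool.Agent.Helper725_DH
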