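import Pool.Agent.Helper725_DH.QB

/-! From ideal classes of order three to binary cubic forms. -/

set_option autoImplicit false

namespace Pool.Agent.Helper725_DH

open NumberField

/-- the (reduced) discriminant of the binary cubic form `(a, 3b, 3c, d)` -/
def disc4 (a b c d : ℤ) : ℤ := (b * c - a * d) ^ 2 - 4 * (b ^ 2 - a * c) * (c ^ 2 - b * d)

theorem alg_key {e T n m Q a b c d u0 u1 u2 : ℤ} (hm : m ≠ 0) (hQ : e ^ 2 + e * T + n = m * Q)
    (h0 : m * b = e * a - u0) (h1 : m * c = e * b - u1) (h2 : m * d = e * c - u2)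
    (g0 : m * u1 = (e + T) * u0 + n * a) (g1 : m * u2 = (e + T) * u1 + n * b)
    (hN : u0 ^ 2 + T * u0 * a + n * a ^ 2 = m ^ 3) :
    b ^ 2 - a * c = m ∧ b * c - a * d = 2 * e + T ∧ c ^ 2 - b * d = Q := by
  have hu0 : u0 = e * a - m * b := by linarith
  have hu1 : u1 = e * b - m * c := by linarith
  have hu2 : u2 = e * c - m * d := by linarith
  subst hu0 hu1 hu2
  have E1 : m * c = (2 * e + T) * b - Q * a := by
    apply mul_left_cancel₀ hm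
    linear_combination (-1) * g0 - a * hQ
  have E2 : m * d = (2 * e + T) * c - Q * b := by
    apply mul_left_cancel₀ hm
    linear_combination (-1) * g1 - b * hQ
  have k1 : b ^ 2 - a * c = m := by
    apply mul_left_cancel₀ hm
    apply mul_left_cancel₀ hm
    linear_combination hN - a ^ 2 * hQ - m * a * E1
  refine ⟨k1, ?_, ?_⟩
  · apply mul_left_cancel₀ hm
    linear_combination b * E1 - a * E2 + (2 * e + T) * k1
  · apply mul_left_cancel₀ hm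
    linear_combination c * E1 - b * E2 + Q * k1

variable {K : Type} [Field K] [NumberField K]

namespace QB

variable (q : QB K)

theorem ext' {x y : 𝓞 K} (h1 : q.U x = q.U y) (h2 : q.V x = q.V y) : x = y := by
  rw [q.rep x, q.rep y, h1, h2]

theorem U_int (u : ℤ) : q.U (u : 𝓞 K) = u := by simpa using q.hU u 0

theorem V_int (u : ℤ) : q.V (u : 𝓞 K) = 0 := by simpa using q.hV u 0

theorem U_mulInt (u : ℤ) (x : 𝓞 K) : q.U ((u : 𝓞 K) * x) = u * q.U x := by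
  have h := q.hU (u * q.U x) (u * q.V x)
  have e : ((u * q.U x : ℤ) : 𝓞 K) + ((u * q.V x : ℤ) : 𝓞 K) * q.w = (u : 𝓞 K) * x := by
    conv_rhs => rw [q.rep x]
    push_cast; ring
  rw [e] at h; exact h

theorem V_mulInt (u : ℤ) (x : 𝓞 K) : q.V ((u : 𝓞 K) * x) = u * q.V x := by
  have h := q.hV (u * q.U x) (u * q.V x)
  have e : ((u * q.U x : ℤ) : 𝓞 K) + ((u * q.V x : ℤ) : 𝓞 K) * q.w = (u : 𝓞 K) * x := by
    conv_rhs => rw [q.rep x]
    push_cast; ring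
  rw [e] at h; exact h

/-- multiplication in coordinates by `s + t w` -/
theorem mulUV (s t : ℤ) (x : 𝓞 K) :
    q.U (((s : 𝓞 K) + (t : 𝓞 K) * q.w) * x) = s * q.U x - t * q.V x * q.n ∧
    q.V (((s : 𝓞 K) + (t : 𝓞 K) * q.w) * x) = s * q.V x + t * q.U x + t * q.V x * q.T := by
  have e : ((s * q.U x - t * q.V x * q.n : ℤ) : 𝓞 K) +
      ((s * q.V x + t * q.U x + t * q.V x * q.T : ℤ) : 𝓞 K) * q.w =
      ((s : 𝓞 K) + (t : 𝓞 K) * q.w) * x := by
    conv_rhs => rw [q.rep x]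
    push_cast
    linear_combination (-(t : 𝓞 K) * (q.V x : 𝓞 K)) * q.hw
  rw [← e]
  exact ⟨q.hU _ _, q.hV _ _⟩

theorem norm_UV (x : 𝓞 K) :
    Algebra.norm ℤ x = q.U x ^ 2 + q.T * q.U x * q.V x + q.n * q.V x ^ 2 := by
  conv_lhs => rw [q.rep x]
  exact q.hN _ _

theorem absNorm_cast {I : Ideal (𝓞 K)} (hI : I ≠ ⊥) : (Ideal.absNorm I : ℤ) ≠ 0 := by
  have := Ideal.absNorm_ne_zero_of_nonZeroDivisors ⟨I, mem_nonZeroDivisors_of_ne_zero hI⟩
  exact_mod_cast this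

/-- rational integers in a primitive ideal -/
theorem int_mem {I : Ideal (𝓞 K)} {η : 𝓞 K} (hη : η ∈ I) (h1 : q.V η = 1) (z : ℤ)
    (hz : (z : 𝓞 K) ∈ I) : (Ideal.absNorm I : ℤ) ∣ z := by
  have hgen : ∀ x : 𝓞 K ⧸ I, x ∈ AddSubgroup.zmultiples (1 : 𝓞 K ⧸ I) := by
    intro x
    obtain ⟨x, rfl⟩ := Ideal.Quotient.mk_surjective x
    rw [AddSubgroup.mem_zmultiples_iff]
    refine ⟨q.U x - q.V x * q.U η, ?_⟩
    rw [zsmul_one]
    have h2 : ((q.U x - q.V x * q.U η : ℤ) : 𝓞 K ⧸ I) =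
        Ideal.Quotient.mk I ((q.U x - q.V x * q.U η : ℤ) : 𝓞 K) := by simp
    rw [h2, Ideal.Quotient.eq]
    have h3 : ((q.U x - q.V x * q.U η : ℤ) : 𝓞 K) - x = -(q.V x : 𝓞 K) * η := by
      have e1 := q.rep x
      have e2 := q.rep η
      rw [h1] at e2
      push_cast at e2 ⊢
      linear_combination (-1) * e1 + (q.V x : 𝓞 K) * e2
    rw [h3]
    exact I.mul_mem_left _ hη
  have hcard : addOrderOf (1 : 𝓞 K ⧸ I) = Nat.card (𝓞 K ⧸ I) :=
    addOrderOf_eq_card_of_forall_mem_zmultiples hgen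
  have h4 : Ideal.absNorm I = addOrderOf (1 : 𝓞 K ⧸ I) := by
    rw [hcard, Ideal.absNorm_apply, Submodule.cardQuot_apply]
  rw [h4, addOrderOf_dvd_iff_zsmul_eq_zero, zsmul_one]
  have h5 : ((z : ℤ) : 𝓞 K ⧸ I) = Ideal.Quotient.mk I (z : 𝓞 K) := by simp
  rw [h5, Ideal.Quotient.eq_zero_iff_mem]
  exact hz

/-- the conjugate of an element with `V = 1` -/
def bar (e : ℤ) : 𝓞 K := ((e + q.T : ℤ) : 𝓞 K) + ((-1 : ℤ) : 𝓞 K) * q.w

theorem bar_mul {η : 𝓞 K} (h1 : q.V η = 1) :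
    q.bar (q.U η) * η = ((q.U η ^ 2 + q.U η * q.T + q.n : ℤ) : 𝓞 K) := by
  unfold bar
  have e2 := q.rep η
  rw [h1] at e2
  generalize q.U η = e at *
  subst e2
  push_cast
  linear_combination (-1) * q.hw

theorem bar_dvd {I : Ideal (𝓞 K)} {η : 𝓞 K} (hη : η ∈ I) (h1 : q.V η = 1) {z : 𝓞 K}
    (hz : z ∈ I) : ∃ y : 𝓞 K, q.bar (q.U η) * z = ((Ideal.absNorm I : ℤ) : 𝓞 K) * y := by
  -- z = v η + integer
  have hint : ((q.U z - q.V z * q.U η : ℤ) : 𝓞 K) ∈ I := by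
    have h3 : ((q.U z - q.V z * q.U η : ℤ) : 𝓞 K) = z - (q.V z : 𝓞 K) * η := by
      have e1 := q.rep z
      have e2 := q.rep η
      rw [h1] at e2
      push_cast at e2 ⊢
      linear_combination (-1) * e1 + (q.V z : 𝓞 K) * e2
    rw [h3]
    exact I.sub_mem hz (I.mul_mem_left _ hη)
  obtain ⟨r, hr⟩ := q.int_mem hη h1 _ hint
  have hnorm : ((q.U η ^ 2 + q.U η * q.T + q.n : ℤ) : 𝓞 K) ∈ I := by
    rw [← q.bar_mul h1]
    exact I.mul_mem_left _ hη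
  obtain ⟨s, hs⟩ := q.int_mem hη h1 _ hnorm
  refine ⟨(q.V z : 𝓞 K) * (s : 𝓞 K) + (r : 𝓞 K) * q.bar (q.U η), ?_⟩
  have hz2 : z = (q.V z : 𝓞 K) * η + ((q.U z - q.V z * q.U η : ℤ) : 𝓞 K) := by
    have e1 := q.rep z
    have e2 := q.rep η
    rw [h1] at e2
    push_cast at e2 ⊢
    linear_combination e1 - (q.V z : 𝓞 K) * e2
  have hb := q.bar_mul h1
  rw [hs] at hb
  rw [hr] at hz2
  calc q.bar (q.U η) * z = q.bar (q.U η) * ((q.V z : 𝓞 K) * η +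
        (((Ideal.absNorm I : ℤ) * r : ℤ) : 𝓞 K)) := by rw [← hz2]
    _ = (q.V z : 𝓞 K) * (q.bar (q.U η) * η) +
        q.bar (q.U η) * (((Ideal.absNorm I : ℤ) * r : ℤ) : 𝓞 K) := by ring
    _ = _ := by rw [hb]; push_cast; ring

theorem bar_pow {I : Ideal (𝓞 K)} {η : 𝓞 K} (hη : η ∈ I) (h1 : q.V η = 1) (k : ℕ) {z : 𝓞 K}
    (hz : z ∈ I ^ (k + 1)) :
    ∃ y ∈ I ^ k, q.bar (q.U η) * z = ((Ideal.absNorm I : ℤ) : 𝓞 K) * y := by
  have hle : Ideal.span {q.bar (q.U η)} * I ≤ Ideal.span {((Ideal.absNorm I : ℤ) : 𝓞 K)} := by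
    rw [Ideal.span_singleton_mul_le_iff]
    intro x hx
    obtain ⟨y, hy⟩ := q.bar_dvd hη h1 hx
    rw [hy, Ideal.mem_span_singleton]
    exact dvd_mul_right _ _
  have hle2 : Ideal.span {q.bar (q.U η)} * I ^ (k + 1) ≤
      Ideal.span {((Ideal.absNorm I : ℤ) : 𝓞 K)} * I ^ k := by
    calc Ideal.span {q.bar (q.U η)} * I ^ (k + 1) = (Ideal.span {q.bar (q.U η)} * I) * I ^ k := by
          rw [pow_succ]; ring
      _ ≤ _ := Ideal.mul_mono_left hle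
  have hmem : q.bar (q.U η) * z ∈ Ideal.span {((Ideal.absNorm I : ℤ) : 𝓞 K)} * I ^ k :=
    hle2 (Ideal.mul_mem_mul (Ideal.mem_span_singleton_self _) hz)
  rw [Ideal.mem_span_singleton_mul] at hmem
  obtain ⟨y, hy, h⟩ := hmem
  exact ⟨y, hy, h.symm⟩

end QB

end Pool.Agent.Helper725_DH
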