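import Pool.Agent.Helper725_DH.Gf
import Pool.Agent.Helper725_DH.Tup

/-! Counting tuples in a residue class, first steps. -/

set_option autoImplicit false

namespace Pool.Agent.Helper725_DH

open MeasureTheory Set

theorem dvd_sep {q : ℤ} (hq : 0 < q) {x y : ℤ} (h : q ∣ x - y) (hxy : x < y) : x + q ≤ y := by
  obtain ⟨k, hk⟩ := h
  have h1 : 0 < -k := by
    by_contra h2
    have : 0 ≤ q * k := by
      have : 0 ≤ k := by linarith
      positivity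
    linarith
  have h2 : q * 1 ≤ q * (-k) := by
    apply mul_le_mul_of_nonneg_left (by linarith) hq.le
  linarith

theorem uni_int {ι : Type*} [DecidableEq ι] (s : Finset ι) (u : ι → ℤ)
    (hinj : ∀ i ∈ s, ∀ j ∈ s, u i = u j → i = j) {q : ℤ} (hq : 0 < q)
    (hd : ∀ i ∈ s, ∀ j ∈ s, q ∣ u i - u j) {f : ℝ → ℝ} {A B F p : ℝ} (hAB : A ≤ B)
    (hs : ∀ i ∈ s, (u i : ℝ) ∈ Icc A B) (hm : MonotoneOn f (Icc A B ∩ Iic p))
    (ha : AntitoneOn f (Icc A B ∩ Ici p))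
    (h0 : ∀ x ∈ Icc A B, 0 ≤ f x) (hF : ∀ x ∈ Icc A B, f x ≤ F) :
    ∑ i ∈ s, f (u i) ≤ (∫ x in A..B, f x) / q + 2 * F := by
  have h := uni_sum (q := (q : ℝ)) (F := F) (by exact_mod_cast hq) hAB
    (s.image (fun i => (u i : ℝ))) ?_ ?_ hm ha h0 hF
  · rwa [Finset.sum_image] at h
    intro i hi j hj hij
    exact hinj i hi j hj (by have h9 : (u i : ℝ) = u j := hij; exact_mod_cast h9)
  · intro x hx y hy hxy
    rw [Finset.mem_image] at hx hy
    obtain ⟨i, hi, rfl⟩ := hx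
    obtain ⟨j, hj, rfl⟩ := hy
    have := dvd_sep hq (hd i hi j hj) (by exact_mod_cast hxy)
    exact_mod_cast this
  · intro x hx
    rw [Finset.mem_image] at hx
    obtain ⟨i, hi, rfl⟩ := hx
    exact hs i hi

theorem card_int {ι : Type*} [DecidableEq ι] (s : Finset ι) (u : ι → ℤ)
    (hinj : ∀ i ∈ s, ∀ j ∈ s, u i = u j → i = j) {q : ℤ} (hq : 0 < q)
    (hd : ∀ i ∈ s, ∀ j ∈ s, q ∣ u i - u j) {A B : ℝ} (hAB : A ≤ B)
    (hs : ∀ i ∈ s, (u i : ℝ) ∈ Icc A B) : (s.card : ℝ) ≤ (B - A) / q + 1 := by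
  have h := mono_sum (f := fun _ => (1 : ℝ)) (q := (q : ℝ)) (F := 1) (by exact_mod_cast hq) hAB
    (s.image (fun i => (u i : ℝ))) ?_ ?_ monotoneOn_const (fun _ _ => zero_le_one)
    (fun _ _ => le_rfl)
  · rw [Finset.sum_const, nsmul_eq_mul, mul_one, intervalIntegral.integral_const, smul_eq_mul,
      mul_one, Finset.card_image_of_injOn] at h
    · exact h
    · intro i hi j hj hij
      exact hinj i hi j hj (by have h9 : (u i : ℝ) = u j := hij; exact_mod_cast h9)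
  · intro x hx y hy hxy
    rw [Finset.mem_image] at hx hy
    obtain ⟨i, hi, rfl⟩ := hx
    obtain ⟨j, hj, rfl⟩ := hy
    have := dvd_sep hq (hd i hi j hj) (by exact_mod_cast hxy)
    exact_mod_cast this
  · intro x hx
    rw [Finset.mem_image] at hx
    obtain ⟨i, hi, rfl⟩ := hx
    exact hs i hi

/-- the number of last entries -/
theorem dcount {ι : Type*} [DecidableEq ι] (s : Finset ι) (u : ι → ℤ)
    (hinj : ∀ i ∈ s, ∀ j ∈ s, u i = u j → i = j) {a b c M : ℤ} (ha : 0 < a) (hM : 0 < M)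
    (hd : ∀ i ∈ s, ∀ j ∈ s, M ∣ u i - u j) {W : ℝ} (hW : 0 < W)
    (h : ∀ i ∈ s, 4 * W ^ 2 < ((-disc4 a b c (u i) : ℤ) : ℝ) ∧
      ((-disc4 a b c (u i) : ℤ) : ℝ) ≤ 9 * W ^ 2) :
    (s.card : ℝ) ≤ 2 * ph (4 * ((b ^ 2 - a * c : ℤ) : ℝ) ^ 3) (2 * W) (3 * W) a / (a ^ 2 * M) +
      2 := by
  set x : ι → ℤ := fun i => a ^ 2 * u i + (2 * b ^ 3 - 3 * a * b * c) with hx
  set m : ℤ := b ^ 2 - a * c with hm
  have key : ∀ i, ((x i : ℤ) : ℝ) ^ 2 + ((-disc4 a b c (u i) : ℤ) : ℝ) * (a : ℝ) ^ 2 =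
      4 * (m : ℝ) ^ 3 := by
    intro i
    have : (x i) ^ 2 + (-disc4 a b c (u i)) * a ^ 2 = 4 * m ^ 3 := by
      simp only [hx, hm, disc4]; ring
    exact_mod_cast this
  have ha' : (0 : ℝ) < a := by exact_mod_cast ha
  have hM' : (0 : ℝ) < M := by exact_mod_cast hM
  have bd : ∀ i ∈ s, √(4 * (m : ℝ) ^ 3 - (3 * W) ^ 2 * (a : ℝ) ^ 2) ≤ |(x i : ℝ)| ∧
      |(x i : ℝ)| ≤ √(4 * (m : ℝ) ^ 3 - (2 * W) ^ 2 * (a : ℝ) ^ 2) := by
    intro i hi
    obtain ⟨h1, h2⟩ := h i hi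
    have k := key i
    have hap : 0 < (a : ℝ) ^ 2 := by positivity
    constructor
    · rw [Real.sqrt_le_left (abs_nonneg _), sq_abs]
      nlinarith
    · apply Real.le_sqrt_of_sq_le
      rw [sq_abs]
      nlinarith
  have hinj' : ∀ i ∈ s, ∀ j ∈ s, x i = x j → i = j := by
    intro i hi j hj hij
    apply hinj i hi j hj
    simp only [hx] at hij
    have : a ^ 2 * u i = a ^ 2 * u j := by linarith
    exact mul_left_cancel₀ (by positivity) this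
  have hd' : ∀ i ∈ s, ∀ j ∈ s, a ^ 2 * M ∣ x i - x j := by
    intro i hi j hj
    have e : x i - x j = a ^ 2 * (u i - u j) := by simp only [hx]; ring
    rw [e]
    exact mul_dvd_mul_left _ (hd i hi j hj)
  have hq : 0 < a ^ 2 * M := by positivity
  have hle : √(4 * (m : ℝ) ^ 3 - (3 * W) ^ 2 * (a : ℝ) ^ 2) ≤
      √(4 * (m : ℝ) ^ 3 - (2 * W) ^ 2 * (a : ℝ) ^ 2) := by
    have := ph_nonneg (r2 := 4 * (m : ℝ) ^ 3) (s := 2 * W) (t := 3 * W) (a := a) (by positivity)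
      (by linarith)
    unfold ph at this
    linarith
  have c1 := card_int (s.filter (fun i => 0 ≤ x i)) x
    (fun i hi j hj => hinj' i (Finset.mem_filter.1 hi).1 j (Finset.mem_filter.1 hj).1) hq
    (fun i hi j hj => hd' i (Finset.mem_filter.1 hi).1 j (Finset.mem_filter.1 hj).1) hle (by
      intro i hi
      rw [Finset.mem_filter] at hi
      have h1 := bd i hi.1
      have h2 : (0 : ℝ) ≤ x i := by exact_mod_cast hi.2
      rw [abs_of_nonneg h2] at h1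
      exact h1)
  have c2 := card_int (s.filter (fun i => ¬ 0 ≤ x i)) (fun i => - x i)
    (fun i hi j hj hij => hinj' i (Finset.mem_filter.1 hi).1 j (Finset.mem_filter.1 hj).1
      (neg_injective hij)) hq
    (fun i hi j hj => by
      have h1 := hd' j (Finset.mem_filter.1 hj).1 i (Finset.mem_filter.1 hi).1
      have e : - x i - - x j = x j - x i := by ring
      show _ ∣ - x i - - x j
      rw [e]; exact h1) hle (by
      intro i hi
      rw [Finset.mem_filter] at hi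
      have h1 := bd i hi.1
      have h2 : (x i : ℝ) < 0 := by exact_mod_cast (not_le.1 hi.2)
      rw [abs_of_neg h2] at h1
      push_cast
      exact h1)
  have e : (s.card : ℝ) = ((s.filter (fun i => 0 ≤ x i)).card : ℝ) +
      ((s.filter (fun i => ¬ 0 ≤ x i)).card : ℝ) := by
    rw [← Nat.cast_add, Finset.card_filter_add_card_filter_not]
  rw [e]
  have e2 : ph (4 * (m : ℝ) ^ 3) (2 * W) (3 * W) a = √(4 * (m : ℝ) ^ 3 - (2 * W) ^ 2 * (a : ℝ) ^ 2) -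
      √(4 * (m : ℝ) ^ 3 - (3 * W) ^ 2 * (a : ℝ) ^ 2) := rfl
  rw [← e2] at c1 c2
  push_cast at c1 c2
  have e3 : 2 * ph (4 * (m : ℝ) ^ 3) (2 * W) (3 * W) a / (a ^ 2 * M) =
    ph (4 * (m : ℝ) ^ 3) (2 * W) (3 * W) a / (a ^ 2 * M) +
    ph (4 * (m : ℝ) ^ 3) (2 * W) (3 * W) a / (a ^ 2 * M) := by ring
  rw [e3]
  linarith

theorem exists_kink (y : ℝ) (hy : 0 ≤ y) : ∃ p : ℝ, 0 ≤ p ∧ 4 * p ^ 3 = y := by
  refine ⟨(y / 4) ^ ((1 : ℝ) / 3), by positivity, ?_⟩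
  rw [← Real.rpow_natCast, ← Real.rpow_mul (by positivity)]
  norm_num
  ring

/-- the integral over `m` -/
noncomputable def Im (w a : ℝ) : ℝ :=
  ∫ m in (w ^ 8)..(6 / Real.pi * w ^ 12), ph (4 * m ^ 3) (2 * w ^ 12) (3 * w ^ 12) a

theorem pi_bd : 1 < 6 / Real.pi ∧ 6 / Real.pi < 2 := by
  have h1 := Real.pi_gt_three
  have h2 := Real.pi_lt_four
  constructor
  · rw [lt_div_iff₀ (by positivity)]; linarith
  · rw [div_lt_iff₀ (by positivity)]; linarith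

theorem range_le {w : ℝ} (hw : 1 ≤ w) : w ^ 8 ≤ 6 / Real.pi * w ^ 12 := by
  have h1 : w ^ 8 ≤ w ^ 12 := pow_le_pow_right₀ hw (by norm_num)
  have := pi_bd.1
  nlinarith [pow_pos (show 0 < w by linarith) 12]

/-- the sum over `c` -/
theorem csum {ι : Type*} [DecidableEq ι] (s : Finset ι) (u : ι → ℤ)
    (hinj : ∀ i ∈ s, ∀ j ∈ s, u i = u j → i = j) {a b M : ℤ} (ha : 0 < a) (hM : 0 < M)
    (hd : ∀ i ∈ s, ∀ j ∈ s, M ∣ u i - u j) {w : ℝ} (hw : 1 ≤ w)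
    (hr : ∀ i ∈ s, ((b ^ 2 - a * u i : ℤ) : ℝ) ∈ Icc (w ^ 8) (6 / Real.pi * w ^ 12)) :
    ∑ i ∈ s, (2 * ph (4 * ((b ^ 2 - a * u i : ℤ) : ℝ) ^ 3) (2 * w ^ 12) (3 * w ^ 12) a /
      (a ^ 2 * M) + 2) ≤
      2 * Im w a / (a ^ 3 * M ^ 2) + 24 * w ^ 18 / a ^ 2 + 4 * w ^ 12 / a + 2 := by
  have ha' : (0 : ℝ) < a := by exact_mod_cast ha
  have hM' : (0 : ℝ) < M := by exact_mod_cast hM
  have hM1 : (1 : ℝ) ≤ M := by exact_mod_cast hM
  have hw0 : 0 < w := by linarith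
  have hinj' : ∀ i ∈ s, ∀ j ∈ s, b ^ 2 - a * u i = b ^ 2 - a * u j → i = j := by
    intro i hi j hj hij
    apply hinj i hi j hj
    exact mul_left_cancel₀ ha.ne' (by linarith)
  have hd' : ∀ i ∈ s, ∀ j ∈ s, a * M ∣ (b ^ 2 - a * u i) - (b ^ 2 - a * u j) := by
    intro i hi j hj
    have e : (b ^ 2 - a * u i) - (b ^ 2 - a * u j) = a * (u j - u i) := by ring
    rw [e]
    exact mul_dvd_mul_left _ (hd j hj i hi)
  have hq : 0 < a * M := by positivity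
  have hAB := range_le hw
  have hA0 : 0 < w ^ 8 := by positivity
  obtain ⟨p, hp0, hp⟩ := exists_kink ((3 * w ^ 12) ^ 2 * (a : ℝ) ^ 2) (by positivity)
  have c1 := uni_int s (fun i => b ^ 2 - a * u i) hinj' hq hd'
    (f := fun m => ph (4 * m ^ 3) (2 * w ^ 12) (3 * w ^ 12) a) (p := p) (F := 6 * w ^ 18) hAB hr
    (by
      rintro x ⟨hx, hx2⟩ y ⟨hy, hy2⟩ hxy
      have hx0 : 0 ≤ x := hA0.le.trans hx.1
      apply ph_mono (by positivity) (by gcongr)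
      rw [← hp]
      have hy0 : 0 ≤ y := hA0.le.trans hy.1
      have hy3 : y ≤ p := hy2
      gcongr)
    (by
      rintro x ⟨hx, hx2⟩ y ⟨hy, hy2⟩ hxy
      have hx0 : 0 ≤ x := hA0.le.trans hx.1
      apply ph_anti (by positivity) (by nlinarith [pow_pos hw0 12]) (by gcongr)
      rw [← hp]
      have hx3 : p ≤ x := hx2
      gcongr)
    (fun x _ => ph_nonneg (by positivity) (by nlinarith [pow_pos hw0 12]))
    (by
      intro x hx
      refine ph_le.trans ?_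
      rw [Real.sqrt_le_left (by positivity)]
      have hx2 : x ≤ 2 * w ^ 12 := by
        have := pi_bd.2
        have h3 := hx.2
        nlinarith [pow_pos hw0 12]
      have hx0 : 0 ≤ x := hA0.le.trans hx.1
      calc 4 * x ^ 3 ≤ 4 * (2 * w ^ 12) ^ 3 := by gcongr
        _ ≤ (6 * w ^ 18) ^ 2 := by nlinarith [pow_pos hw0 36])
  have c2 := card_int s (fun i => b ^ 2 - a * u i) hinj' hq hd' hAB hr
  rw [Finset.sum_add_distrib, Finset.sum_const, nsmul_eq_mul]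
  have e1 : ∑ i ∈ s, 2 * ph (4 * ((b ^ 2 - a * u i : ℤ) : ℝ) ^ 3) (2 * w ^ 12) (3 * w ^ 12) a /
      (a ^ 2 * M) = 2 / (a ^ 2 * M) *
      ∑ i ∈ s, ph (4 * ((b ^ 2 - a * u i : ℤ) : ℝ) ^ 3) (2 * w ^ 12) (3 * w ^ 12) a := by
    rw [Finset.mul_sum]
    apply Finset.sum_congr rfl
    intro i _
    ring
  rw [e1]
  have e2 : 2 / ((a : ℝ) ^ 2 * M) *
      ∑ i ∈ s, ph (4 * ((b ^ 2 - a * u i : ℤ) : ℝ) ^ 3) (2 * w ^ 12) (3 * w ^ 12) a ≤
      2 / ((a : ℝ) ^ 2 * M) * (Im w a / (a * M) + 12 * w ^ 18) := by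
    apply mul_le_mul_of_nonneg_left _ (by positivity)
    refine c1.trans (le_of_eq ?_)
    unfold Im
    push_cast
    ring
  have e3 : 2 / ((a : ℝ) ^ 2 * M) * (Im w a / (a * M) + 12 * w ^ 18) =
      2 * Im w a / (a ^ 3 * M ^ 2) + 24 * w ^ 18 / a ^ 2 / M := by
    field_simp
    ring
  have e4 : 24 * w ^ 18 / (a : ℝ) ^ 2 / M ≤ 24 * w ^ 18 / a ^ 2 :=
    div_le_self (by positivity) hM1
  have e5 : (s.card : ℝ) ≤ 2 * w ^ 12 / a + 1 := by
    refine c2.trans ?_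
    push_cast
    have : (6 / Real.pi * w ^ 12 - w ^ 8) / (a * M) ≤ 2 * w ^ 12 / a := by
      rw [div_le_div_iff₀ (by positivity) ha']
      have h1 : 6 / Real.pi * w ^ 12 - w ^ 8 ≤ 2 * w ^ 12 := by
        have := pi_bd.2
        nlinarith [pow_pos hw0 12]
      have h2 : (a : ℝ) ≤ a * M := by nlinarith
      have h3 : 0 ≤ 2 * w ^ 12 := by positivity
      nlinarith
    linarith
  have e6 : 4 * w ^ 12 / (a : ℝ) = 2 * (2 * w ^ 12 / a) := by ring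
  rw [e6]
  linarith

end Pool.Agent.Helper725_DH
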