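import Pool.Agent.Helper725_DH.Lat1

/-! Counting tuples in a residue class, second step: the integrals. -/

set_option autoImplicit false

namespace Pool.Agent.Helper725_DH

open MeasureTheory Set

theorem int_pow {A B : ℝ} (hA : 0 < A) (hAB : A ≤ B) :
    IntervalIntegrable (fun m : ℝ => (1 : ℝ) / (m * √m)) volume A B ∧
    ∫ m in A..B, 1 / (m * √m) ≤ 2 / √A := by
  have hpos : ∀ x ∈ uIcc A B, 0 < x := by
    intro x hx
    rw [uIcc_of_le hAB] at hx
    linarith [hx.1]
  have hi : IntervalIntegrable (fun m : ℝ => (1 : ℝ) / (m * √m)) volume A B := by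
    apply ContinuousOn.intervalIntegrable
    apply ContinuousOn.div (by fun_prop) (by fun_prop)
    intro x hx
    have := hpos x hx
    positivity
  refine ⟨hi, ?_⟩
  have h := intervalIntegral.integral_eq_sub_of_hasDerivAt (f := fun m : ℝ => -(2 / √m))
    (f' := fun m : ℝ => (1 : ℝ) / (m * √m)) (a := A) (b := B) (by
      intro x hx
      have hx0 := hpos x hx
      have d1 := (Real.hasDerivAt_sqrt hx0.ne').inv (Real.sqrt_pos.2 hx0).ne'
      have d2 := (d1.const_mul 2).neg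
      have hs : √x ≠ 0 := (Real.sqrt_pos.2 hx0).ne'
      have hsq : √x ^ 2 = x := Real.sq_sqrt hx0.le
      refine d2.congr_deriv ?_
      rw [hsq]
      field_simp) hi
  rw [h]
  have h1 : 0 ≤ 2 / √B := by positivity
  linarith

theorem Im_integrable (w a : ℝ) (A B : ℝ) : IntervalIntegrable
    (fun m : ℝ => ph (4 * m ^ 3) (2 * w ^ 12) (3 * w ^ 12) a) volume A B := by
  apply Continuous.intervalIntegrable
  unfold ph
  fun_prop

theorem Im_le {w a : ℝ} (hw : 1 ≤ w) (ha : 0 < a) : Im w a ≤ a ^ 2 * (9 * w ^ 20) := by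
  have hw0 : 0 < w := by linarith
  have hAB := range_le hw
  have hA0 : 0 < w ^ 8 := by positivity
  obtain ⟨hi, h2⟩ := int_pow hA0 hAB
  have h1 : Im w a ≤ ∫ m in (w ^ 8)..(6 / Real.pi * w ^ 12),
      a ^ 2 * (9 * w ^ 24 / 2) * (1 / (m * √m)) := by
    unfold Im
    apply intervalIntegral.integral_mono_on hAB (Im_integrable _ _ _ _) (hi.const_mul _)
    intro x hx
    have hx0 : 0 < x := by linarith [hx.1]
    have hr : 0 < 2 * (x * √x) := by positivity
    have hr2 : (2 * (x * √x)) ^ 2 = 4 * x ^ 3 := by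
      have : √x ^ 2 = x := Real.sq_sqrt hx0.le
      calc (2 * (x * √x)) ^ 2 = 4 * x ^ 2 * √x ^ 2 := by ring
        _ = 4 * x ^ 3 := by rw [this]; ring
    have := g_le hr (s := 2 * w ^ 12) (t := 3 * w ^ 12) (a := a) (by positivity)
      (by nlinarith [pow_pos hw0 12]) ha
    rw [hr2, div_le_iff₀ (by positivity)] at this
    refine this.trans (le_of_eq ?_)
    field_simp
    ring
  refine h1.trans ?_
  rw [intervalIntegral.integral_const_mul]
  have h3 : 2 / √(w ^ 8) = 2 / w ^ 4 := by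
    rw [show w ^ 8 = (w ^ 4) ^ 2 by ring, Real.sqrt_sq (by positivity)]
  rw [h3] at h2
  calc a ^ 2 * (9 * w ^ 24 / 2) * ∫ m in (w ^ 8)..(6 / Real.pi * w ^ 12), 1 / (m * √m)
      ≤ a ^ 2 * (9 * w ^ 24 / 2) * (2 / w ^ 4) := by gcongr
    _ = a ^ 2 * (9 * w ^ 20) := by field_simp

theorem Im_nonneg {w a : ℝ} (hw : 1 ≤ w) : 0 ≤ Im w a := by
  have hw0 : 0 < w := by linarith
  apply intervalIntegral.integral_nonneg (range_le hw)
  intro x _
  exact ph_nonneg (by positivity) (by nlinarith [pow_pos hw0 12])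

/-- the sum over `a` of the main terms -/
theorem asum (T : Finset ℤ) {M : ℤ} (hM : 0 < M) {w : ℝ} (hw : 1 ≤ w)
    (hd : ∀ i ∈ T, ∀ j ∈ T, M ∣ i - j) (h1 : ∀ i ∈ T, 1 ≤ i) (h2 : ∀ i ∈ T, (i : ℝ) ≤ 3 * w ^ 6) :
    ∑ a ∈ T, Im w a / (a : ℝ) ^ 2 ≤ 3 * w ^ 24 / M + 18 * w ^ 20 := by
  have hw0 : 0 < w := by linarith
  have hM' : (0 : ℝ) < M := by exact_mod_cast hM
  have hAB := range_le hw
  have hA0 : 0 < w ^ 8 := by positivity
  have hst : 2 * w ^ 12 < 3 * w ^ 12 := by nlinarith [pow_pos hw0 12]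
  have e1 : ∑ a ∈ T, Im w a / (a : ℝ) ^ 2 = ∫ m in (w ^ 8)..(6 / Real.pi * w ^ 12),
      ∑ a ∈ T, ph (4 * m ^ 3) (2 * w ^ 12) (3 * w ^ 12) a / (a : ℝ) ^ 2 := by
    rw [intervalIntegral.integral_finsetSum]
    · apply Finset.sum_congr rfl
      intro a _
      unfold Im
      rw [intervalIntegral.integral_div]
    · intro a _
      exact (Im_integrable w a _ _).div_const _
  rw [e1]
  have h3w : (1 : ℝ) ≤ 3 * w ^ 6 := by
    have : 1 ≤ w ^ 6 := one_le_pow₀ hw
    linarith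
  obtain ⟨hi, h4⟩ := int_pow hA0 hAB
  have hbd : ∀ m ∈ Icc (w ^ 8) (6 / Real.pi * w ^ 12),
      ∑ a ∈ T, ph (4 * m ^ 3) (2 * w ^ 12) (3 * w ^ 12) a / (a : ℝ) ^ 2 ≤
      Real.pi * w ^ 12 / 2 / M + 9 * w ^ 24 * (1 / (m * √m)) := by
    intro m hm
    have hm0 : 0 < m := by linarith [hm.1]
    have hr : 0 < 2 * (m * √m) := by positivity
    have hr2 : 4 * m ^ 3 = (2 * (m * √m)) ^ 2 := by
      have : √m ^ 2 = m := Real.sq_sqrt hm0.le
      calc 4 * m ^ 3 = 4 * m ^ 2 * √m ^ 2 := by rw [this]; ring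
        _ = (2 * (m * √m)) ^ 2 := by ring
    have hs : 0 < 2 * w ^ 12 := by positivity
    have ht : 0 < 3 * w ^ 12 := by positivity
    set r := 2 * (m * √m) with hrdef
    rw [hr2]
    have c1 := uni_int T (fun i => i) (fun i _ j _ h => h) hM hd
      (f := fun a => ph (r ^ 2) (2 * w ^ 12) (3 * w ^ 12) a / a ^ 2)
      (A := 1) (B := 3 * w ^ 6) (p := r / (3 * w ^ 12)) (F := (3 * w ^ 12) ^ 2 / r) h3w
      (fun i hi => ⟨by exact_mod_cast h1 i hi, h2 i hi⟩)
      (by
        rintro x ⟨hx, hx2⟩ y ⟨hy, hy2⟩ hxy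
        have hx0 : 0 < x := by linarith [hx.1]
        apply g_mono hr hs hst hx0 hxy
        have hy3 : y ≤ r / (3 * w ^ 12) := hy2
        rw [le_div_iff₀ ht] at hy3
        linarith)
      (by
        rintro x ⟨hx, hx2⟩ y ⟨hy, hy2⟩ hxy
        have hx0 : 0 < x := by linarith [hx.1]
        apply g_anti hr hs hst hx0 hxy
        have hx3 : r / (3 * w ^ 12) ≤ x := hx2
        rw [div_le_iff₀ ht] at hx3
        linarith)
      (by
        intro x hx
        have hx0 : 0 < x := by linarith [hx.1]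
        exact div_nonneg (ph_nonneg hs.le hst.le) (by positivity))
      (by
        intro x hx
        have hx0 : 0 < x := by linarith [hx.1]
        exact g_le hr hs hst hx0)
    refine c1.trans ?_
    have c2 := int_two hr hs hst.le (a1 := 1) (a2 := 3 * w ^ 6) one_pos h3w
    have e2 : (∫ a in (1 : ℝ)..(3 * w ^ 6), 2 * (√(r ^ 2 - (2 * w ^ 12) ^ 2 * a ^ 2) -
        √(r ^ 2 - (3 * w ^ 12) ^ 2 * a ^ 2)) / a ^ 2) =
        2 * ∫ a in (1 : ℝ)..(3 * w ^ 6), ph (r ^ 2) (2 * w ^ 12) (3 * w ^ 12) a / a ^ 2 := by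
      rw [← intervalIntegral.integral_const_mul]
      apply intervalIntegral.integral_congr
      intro a _
      unfold ph
      ring
    rw [e2] at c2
    have e3 : Real.pi * (3 * w ^ 12 - 2 * w ^ 12) = Real.pi * w ^ 12 := by ring
    rw [e3] at c2
    have c3 : (∫ a in (1 : ℝ)..(3 * w ^ 6), ph (r ^ 2) (2 * w ^ 12) (3 * w ^ 12) a / a ^ 2) / M ≤
        Real.pi * w ^ 12 / 2 / M := by
      apply div_le_div_of_nonneg_right _ hM'.le
      linarith
    have e4 : 2 * ((3 * w ^ 12) ^ 2 / r) = 9 * w ^ 24 * (1 / (m * √m)) := by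
      rw [hrdef]
      field_simp
      ring
    rw [e4]
    linarith
  have h5 : ∫ m in (w ^ 8)..(6 / Real.pi * w ^ 12),
      ∑ a ∈ T, ph (4 * m ^ 3) (2 * w ^ 12) (3 * w ^ 12) a / (a : ℝ) ^ 2 ≤
      ∫ m in (w ^ 8)..(6 / Real.pi * w ^ 12),
        (Real.pi * w ^ 12 / 2 / M + 9 * w ^ 24 * (1 / (m * √m))) := by
    apply intervalIntegral.integral_mono_on hAB
    · have h8 := IntervalIntegrable.sum (μ := volume) (a := w ^ 8) (b := 6 / Real.pi * w ^ 12) T
        (f := fun (a : ℤ) (m : ℝ) => ph (4 * m ^ 3) (2 * w ^ 12) (3 * w ^ 12) a / (a : ℝ) ^ 2)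
        (fun a _ => (Im_integrable w a _ _).div_const _)
      refine h8.congr ?_
      intro m _
      simp
    · exact intervalIntegrable_const.add (hi.const_mul _)
    · exact hbd
  refine h5.trans ?_
  rw [intervalIntegral.integral_add intervalIntegrable_const (hi.const_mul _),
    intervalIntegral.integral_const_mul, intervalIntegral.integral_const, smul_eq_mul]
  have h3 : 2 / √(w ^ 8) = 2 / w ^ 4 := by
    rw [show w ^ 8 = (w ^ 4) ^ 2 by ring, Real.sqrt_sq (by positivity)]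
  rw [h3] at h4
  have h6 : 9 * w ^ 24 * ∫ m in (w ^ 8)..(6 / Real.pi * w ^ 12), 1 / (m * √m) ≤
      18 * w ^ 20 := by
    calc 9 * w ^ 24 * ∫ m in (w ^ 8)..(6 / Real.pi * w ^ 12), 1 / (m * √m)
        ≤ 9 * w ^ 24 * (2 / w ^ 4) := by gcongr
      _ = 18 * w ^ 20 := by field_simp; ring
  have h7 : (6 / Real.pi * w ^ 12 - w ^ 8) * (Real.pi * w ^ 12 / 2 / M) ≤ 3 * w ^ 24 / M := by
    have h8 : (6 / Real.pi * w ^ 12 - w ^ 8) * (Real.pi * w ^ 12 / 2 / M) ≤
        (6 / Real.pi * w ^ 12) * (Real.pi * w ^ 12 / 2 / M) := by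
      apply mul_le_mul_of_nonneg_right _ (by positivity)
      linarith
    refine h8.trans (le_of_eq ?_)
    have := Real.pi_pos.ne'
    field_simp
    ring
  linarith

/-- the sum of the inverses -/
theorem inv_sum (T : Finset ℤ) {w : ℝ} (hw : 1 ≤ w)
    (h1 : ∀ i ∈ T, 1 ≤ i) (h2 : ∀ i ∈ T, (i : ℝ) ≤ 3 * w ^ 6) :
    ∑ a ∈ T, 1 / (a : ℝ) ≤ 4 * w ^ 3 ∧ (T.card : ℝ) ≤ 3 * w ^ 6 := by
  have hw0 : 0 < w := by linarith
  set n := ⌊3 * w ^ 6⌋₊ with hn
  have hnle : (n : ℝ) ≤ 3 * w ^ 6 := Nat.floor_le (by positivity)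
  have hsub : T ⊆ (Finset.Icc 1 n).image (fun k : ℕ => (k : ℤ)) := by
    intro a ha
    rw [Finset.mem_image]
    have h3 := h1 a ha
    refine ⟨a.toNat, ?_, by omega⟩
    rw [Finset.mem_Icc]
    refine ⟨by omega, ?_⟩
    apply Nat.le_floor
    have h4 : ((a.toNat : ℕ) : ℝ) = (a : ℝ) := by
      have : ((a.toNat : ℕ) : ℤ) = a := Int.toNat_of_nonneg (by omega)
      exact_mod_cast this
    rw [h4]
    exact h2 a ha
  constructor
  · calc ∑ a ∈ T, 1 / (a : ℝ) ≤ ∑ a ∈ (Finset.Icc 1 n).image (fun k : ℕ => (k : ℤ)), 1 / (a : ℝ) := by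
          apply Finset.sum_le_sum_of_subset_of_nonneg hsub
          intro i hi _
          rw [Finset.mem_image] at hi
          obtain ⟨k, _, rfl⟩ := hi
          positivity
      _ = ∑ k ∈ Finset.Icc 1 n, 1 / (k : ℝ) := by
          rw [Finset.sum_image (by intro x _ y _ h; have h9 : (x : ℤ) = y := h; exact_mod_cast h9)]
          simp
      _ ≤ 2 * √n := by
          have key : ∀ n : ℕ, ∑ k ∈ Finset.Icc 1 n, 1 / (k : ℝ) ≤ 2 * √n := by
            intro n
            induction n with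
            | zero => simp
            | succ n ih =>
              rw [Finset.sum_Icc_succ_top (by omega)]
              have h5 : 1 / ((n + 1 : ℕ) : ℝ) ≤ 2 * (√((n + 1 : ℕ) : ℝ) - √n) := by
                push_cast
                have e1 : √((n : ℝ) + 1) ^ 2 = n + 1 := Real.sq_sqrt (by positivity)
                have e2 : √(n : ℝ) ^ 2 = n := Real.sq_sqrt (by positivity)
                have e3 : √(n : ℝ) ≤ √((n : ℝ) + 1) := Real.sqrt_le_sqrt (by linarith)
                have e4 : 1 ≤ √((n : ℝ) + 1) := by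
                  rw [Real.one_le_sqrt]; linarith [(Nat.cast_nonneg n : (0 : ℝ) ≤ n)]
                have e5 : (√((n : ℝ) + 1) - √n) * (√((n : ℝ) + 1) + √n) = 1 := by
                  linear_combination e1 - e2
                rw [div_le_iff₀ (by positivity)]
                have e6 : 0 ≤ √((n : ℝ) + 1) - √n := by linarith
                have e7 : √((n : ℝ) + 1) + √n ≤ 2 * ((n : ℝ) + 1) := by
                  nlinarith
                calc (1 : ℝ) = (√((n : ℝ) + 1) - √n) * (√((n : ℝ) + 1) + √n) := e5.symm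
                  _ ≤ (√((n : ℝ) + 1) - √n) * (2 * ((n : ℝ) + 1)) := by gcongr
                  _ = 2 * (√((n : ℝ) + 1) - √n) * ((n : ℝ) + 1) := by ring
              linarith
          exact key n
      _ ≤ 2 * √(4 * w ^ 6) := by gcongr; nlinarith [pow_pos hw0 6]
      _ = 4 * w ^ 3 := by
          rw [show 4 * w ^ 6 = (2 * w ^ 3) ^ 2 by ring, Real.sqrt_sq (by positivity)]; ring
  · have h3 := Finset.card_le_card hsub
    have h4 : ((Finset.Icc 1 n).image (fun k : ℕ => (k : ℤ))).card ≤ n := by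
      refine Finset.card_image_le.trans ?_
      simp
    have h5 : (T.card : ℝ) ≤ n := by exact_mod_cast h3.trans h4
    exact h5.trans hnle

end Pool.Agent.Helper725_DH
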