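import Pool.Agent.Helper725_DH.Lat2

/-! Counting tuples in a residue class, final step. -/

set_option autoImplicit false

namespace Pool.Agent.Helper725_DH

open MeasureTheory Set

/-- the range conditions -/
def InRange (w : ℝ) (t : ℤ × ℤ × ℤ × ℤ) : Prop :=
  0 < t.1 ∧ 0 ≤ t.2.1 ∧ t.2.1 < t.1 ∧ 0 < t.2.1 ^ 2 - t.1 * t.2.2.1 ∧
    ((t.2.1 ^ 2 - t.1 * t.2.2.1 : ℤ) : ℝ) ≤ 6 / Real.pi * w ^ 12 ∧
    4 * w ^ 24 < ((-disc4 t.1 t.2.1 t.2.2.1 t.2.2.2 : ℤ) : ℝ) ∧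
    ((-disc4 t.1 t.2.1 t.2.2.1 t.2.2.2 : ℤ) : ℝ) ≤ 9 * w ^ 24

theorem InRange.bounds {w : ℝ} (hw : 1 ≤ w) {t : ℤ × ℤ × ℤ × ℤ} (h : InRange w t) :
    ((t.2.1 ^ 2 - t.1 * t.2.2.1 : ℤ) : ℝ) ∈ Icc (w ^ 8) (6 / Real.pi * w ^ 12) ∧
      (t.1 : ℝ) ≤ 3 * w ^ 6 := by
  obtain ⟨ha, _, _, hm, hm2, hD, _⟩ := h
  obtain ⟨a, b, c, d⟩ := t
  simp only at *
  have hw0 : 0 < w := by linarith
  set m : ℤ := b ^ 2 - a * c with hmdef
  have key : ((a ^ 2 * d + (2 * b ^ 3 - 3 * a * b * c) : ℤ) : ℝ) ^ 2 +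
      ((-disc4 a b c d : ℤ) : ℝ) * (a : ℝ) ^ 2 = 4 * (m : ℝ) ^ 3 := by
    have : (a ^ 2 * d + (2 * b ^ 3 - 3 * a * b * c)) ^ 2 + (-disc4 a b c d) * a ^ 2 =
        4 * m ^ 3 := by
      simp only [hmdef, disc4]; ring
    exact_mod_cast this
  have ha' : (1 : ℝ) ≤ a := by exact_mod_cast ha
  have hm' : (0 : ℝ) < m := by exact_mod_cast hm
  have h1 : w ^ 24 * (a : ℝ) ^ 2 < (m : ℝ) ^ 3 := by
    have h2 := sq_nonneg ((a ^ 2 * d + (2 * b ^ 3 - 3 * a * b * c) : ℤ) : ℝ)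
    have h3 : 4 * w ^ 24 * (a : ℝ) ^ 2 < ((-disc4 a b c d : ℤ) : ℝ) * (a : ℝ) ^ 2 := by
      apply mul_lt_mul_of_pos_right hD (by positivity)
    linarith
  refine ⟨⟨?_, hm2⟩, ?_⟩
  · by_contra h2
    rw [not_le] at h2
    have h3 : (m : ℝ) ^ 3 ≤ (w ^ 8) ^ 3 := by gcongr
    have h4 : w ^ 24 * 1 ≤ w ^ 24 * (a : ℝ) ^ 2 := by
      apply mul_le_mul_of_nonneg_left _ (by positivity)
      nlinarith
    have h5 : (w ^ 8) ^ 3 = w ^ 24 := by ring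
    linarith
  · by_contra h2
    rw [not_le] at h2
    have h3 : (m : ℝ) ≤ 2 * w ^ 12 := by
      have := pi_bd.2
      nlinarith [pow_pos hw0 12]
    have h4 : (m : ℝ) ^ 3 ≤ (2 * w ^ 12) ^ 3 := by gcongr
    have h5 : (3 * w ^ 6) ^ 2 ≤ (a : ℝ) ^ 2 := by gcongr
    have h6 : w ^ 24 * (3 * w ^ 6) ^ 2 ≤ w ^ 24 * (a : ℝ) ^ 2 := by gcongr
    have h7 : w ^ 24 * (3 * w ^ 6) ^ 2 = 9 * w ^ 36 := by ring
    have h8 : (2 * w ^ 12) ^ 3 = 8 * w ^ 36 := by ring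
    have h9 : 0 < w ^ 36 := by positivity
    linarith

theorem lat {M : ℤ} (hM : 0 < M) {w : ℝ} (hw : 1 ≤ w) (S : Finset (ℤ × ℤ × ℤ × ℤ))
    (hS : ∀ t ∈ S, InRange w t)
    (hd : ∀ s ∈ S, ∀ t ∈ S, M ∣ s.1 - t.1 ∧ M ∣ s.2.1 - t.2.1 ∧ M ∣ s.2.2.1 - t.2.2.1 ∧
      M ∣ s.2.2.2 - t.2.2.2) :
    (S.card : ℝ) ≤ 6 * w ^ 24 / M ^ 4 + 400 * w ^ 23 := by
  have hw0 : 0 < w := by linarith
  have hM' : (0 : ℝ) < M := by exact_mod_cast hM
  have hM1 : (1 : ℝ) ≤ M := by exact_mod_cast hM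
  set f3 : ℤ × ℤ × ℤ × ℤ → ℤ × ℤ × ℤ := fun t => (t.1, t.2.1, t.2.2.1) with hf3
  set T3 : Finset (ℤ × ℤ × ℤ) := S.image f3 with hT3
  set f2 : ℤ × ℤ × ℤ → ℤ × ℤ := fun t => (t.1, t.2.1) with hf2
  set T2 : Finset (ℤ × ℤ) := T3.image f2 with hT2
  set T1 : Finset ℤ := T2.image Prod.fst with hT1
  set G : ℤ × ℤ × ℤ → ℝ := fun p => 2 * ph (4 * ((p.2.1 ^ 2 - p.1 * p.2.2 : ℤ) : ℝ) ^ 3)
    (2 * w ^ 12) (3 * w ^ 12) p.1 / ((p.1 : ℝ) ^ 2 * M) + 2 with hG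
  set H : ℤ → ℝ := fun a => 2 * Im w a / (a ^ 3 * M ^ 2) + 24 * w ^ 18 / a ^ 2 +
    4 * w ^ 12 / a + 2 with hH
  have i3 : ∀ p ∈ T3, ∃ t ∈ S, f3 t = p := fun p hp => Finset.mem_image.1 hp
  have i2 : ∀ q ∈ T2, ∃ t ∈ S, f2 (f3 t) = q := by
    intro q hq
    obtain ⟨p, hp, rfl⟩ := Finset.mem_image.1 hq
    obtain ⟨t, ht, rfl⟩ := i3 p hp
    exact ⟨t, ht, rfl⟩
  have i1 : ∀ a ∈ T1, ∃ t ∈ S, t.1 = a := by
    intro a ha
    obtain ⟨q, hq, rfl⟩ := Finset.mem_image.1 ha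
    obtain ⟨t, ht, rfl⟩ := i2 q hq
    exact ⟨t, ht, rfl⟩
  -- first step
  have s1 : (S.card : ℝ) ≤ ∑ p ∈ T3, G p := by
    rw [Finset.card_eq_sum_card_fiberwise (f := f3) (t := T3)
      (fun t ht => Finset.mem_image_of_mem _ ht)]
    push_cast
    apply Finset.sum_le_sum
    intro p hp
    obtain ⟨t0, ht0, rfl⟩ := i3 p hp
    have hr0 := hS t0 ht0
    have := dcount (S.filter (fun t => f3 t = f3 t0)) (fun t => t.2.2.2)
      (a := t0.1) (b := t0.2.1) (c := t0.2.2.1) (M := M) (W := w ^ 12) (by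
        intro i hi j hj hij
        rw [Finset.mem_filter] at hi hj
        have h1 := hi.2.trans hj.2.symm
        simp only [hf3, Prod.mk.injEq] at h1
        ext
        · exact h1.1
        · exact h1.2.1
        · exact h1.2.2
        · exact hij) hr0.1 hM (by
        intro i hi j hj
        exact (hd i (Finset.mem_filter.1 hi).1 j (Finset.mem_filter.1 hj).1).2.2.2)
        (by positivity) (by
        intro i hi
        rw [Finset.mem_filter] at hi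
        have h1 := hi.2
        simp only [hf3, Prod.mk.injEq] at h1
        have h2 := (hS i hi.1).2.2.2.2.2
        rw [h1.1, h1.2.1, h1.2.2] at h2
        have e : (w ^ 12) ^ 2 = w ^ 24 := by ring
        rw [e]
        exact h2)
    exact this
  -- second step
  have s2 : ∑ p ∈ T3, G p ≤ ∑ q ∈ T2, H q.1 := by
    rw [← Finset.sum_fiberwise_of_maps_to (g := f2) (t := T2)
      (fun t ht => Finset.mem_image_of_mem _ ht)]
    apply Finset.sum_le_sum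
    intro q hq
    obtain ⟨t0, ht0, rfl⟩ := i2 q hq
    have hr0 := hS t0 ht0
    have := csum (T3.filter (fun p => f2 p = f2 (f3 t0))) (fun p => p.2.2)
      (a := t0.1) (b := t0.2.1) (M := M) (by
        intro i hi j hj hij
        rw [Finset.mem_filter] at hi hj
        have h1 := hi.2.trans hj.2.symm
        simp only [hf2, Prod.mk.injEq] at h1
        ext
        · exact h1.1
        · exact h1.2
        · exact hij) hr0.1 hM (by
        intro i hi j hj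
        obtain ⟨s, hs, rfl⟩ := i3 i (Finset.mem_filter.1 hi).1
        obtain ⟨t, ht, rfl⟩ := i3 j (Finset.mem_filter.1 hj).1
        exact (hd s hs t ht).2.2.1) hw (by
        intro i hi
        rw [Finset.mem_filter] at hi
        obtain ⟨s, hs, rfl⟩ := i3 i hi.1
        have h1 := hi.2
        simp only [hf2, hf3, Prod.mk.injEq] at h1
        have h2 := ((hS s hs).bounds hw).1
        rw [h1.1, h1.2] at h2
        exact h2)
    refine le_trans (le_of_eq ?_) this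
    apply Finset.sum_congr rfl
    intro p hp
    rw [Finset.mem_filter] at hp
    have h1 := hp.2
    simp only [hf2, hf3, Prod.mk.injEq] at h1
    simp only [hG, h1.1, h1.2]
  -- bounds for `a`
  have ha1 : ∀ a ∈ T1, 1 ≤ a := by
    intro a ha
    obtain ⟨t, ht, rfl⟩ := i1 a ha
    exact (hS t ht).1
  have ha2 : ∀ a ∈ T1, (a : ℝ) ≤ 3 * w ^ 6 := by
    intro a ha
    obtain ⟨t, ht, rfl⟩ := i1 a ha
    exact ((hS t ht).bounds hw).2
  have had : ∀ i ∈ T1, ∀ j ∈ T1, M ∣ i - j := by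
    intro i hi j hj
    obtain ⟨s, hs, rfl⟩ := i1 i hi
    obtain ⟨t, ht, rfl⟩ := i1 j hj
    exact (hd s hs t ht).1
  -- third step
  have s3 : ∑ q ∈ T2, H q.1 ≤ ∑ a ∈ T1, ((a : ℝ) / M + 1) * H a := by
    rw [← Finset.sum_fiberwise_of_maps_to (g := Prod.fst) (t := T1)
      (fun t ht => Finset.mem_image_of_mem _ ht)]
    apply Finset.sum_le_sum
    intro a ha
    have ha0 : (1 : ℝ) ≤ a := by exact_mod_cast ha1 a ha
    have e : ∑ q ∈ T2 with q.1 = a, H q.1 = ((T2.filter (fun q => q.1 = a)).card : ℝ) * H a := by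
      rw [← nsmul_eq_mul, ← Finset.sum_const]
      apply Finset.sum_congr rfl
      intro q hq
      rw [(Finset.mem_filter.1 hq).2]
    rw [e]
    have hH0 : 0 ≤ H a := by
      have := Im_nonneg (a := (a : ℝ)) hw
      simp only [hH]
      positivity
    apply mul_le_mul_of_nonneg_right _ hH0
    have := card_int (T2.filter (fun q => q.1 = a)) (fun q => q.2) (q := M) (A := 0) (B := a) (by
        intro i hi j hj hij
        rw [Finset.mem_filter] at hi hj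
        exact Prod.ext (hi.2.trans hj.2.symm) hij) hM (by
        intro i hi j hj
        obtain ⟨s, hs, rfl⟩ := i2 i (Finset.mem_filter.1 hi).1
        obtain ⟨t, ht, rfl⟩ := i2 j (Finset.mem_filter.1 hj).1
        exact (hd s hs t ht).2.1) (by linarith) (by
        intro i hi
        rw [Finset.mem_filter] at hi
        obtain ⟨s, hs, rfl⟩ := i2 i hi.1
        have h1 : s.1 = a := hi.2
        have h2 := (hS s hs).2.1
        have h3 := (hS s hs).2.2.1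
        rw [h1] at h3
        exact ⟨by exact_mod_cast h2, by exact_mod_cast h3.le⟩)
    rwa [sub_zero] at this
  -- fourth step
  have s4 : ∀ a ∈ T1, ((a : ℝ) / M + 1) * H a ≤ 2 / (M : ℝ) ^ 3 * (Im w a / (a : ℝ) ^ 2) +
      66 * w ^ 20 * (1 / (a : ℝ)) + (8 * w ^ 12 + 12 * w ^ 6) := by
    intro a ha
    have ha0 : (1 : ℝ) ≤ a := by exact_mod_cast ha1 a ha
    have ha3 := ha2 a ha
    have hI := Im_nonneg (a := (a : ℝ)) hw
    have hI2 := Im_le (a := (a : ℝ)) hw (by linarith)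
    have hapos : (0 : ℝ) < a := by linarith
    have e1 : ((a : ℝ) / M + 1) * H a = 2 / (M : ℝ) ^ 3 * (Im w a / (a : ℝ) ^ 2) +
        2 * Im w a / (a ^ 3 * M ^ 2) +
        ((a : ℝ) / M + 1) * (24 * w ^ 18 / a ^ 2 + 4 * w ^ 12 / a + 2) := by
      simp only [hH]
      field_simp
      ring
    rw [e1]
    have e2 : 2 * Im w a / ((a : ℝ) ^ 3 * M ^ 2) ≤ 18 * w ^ 20 * (1 / a) := by
      calc 2 * Im w a / ((a : ℝ) ^ 3 * M ^ 2) ≤ 2 * (a ^ 2 * (9 * w ^ 20)) / ((a : ℝ) ^ 3 * 1 ^ 2) := by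
            gcongr
        _ = 18 * w ^ 20 * (1 / a) := by field_simp; ring
    have e3 : (a : ℝ) / M + 1 ≤ 2 * a := by
      have : (a : ℝ) / M ≤ a := div_le_self (by linarith) hM1
      linarith
    have e4 : ((a : ℝ) / M + 1) * (24 * w ^ 18 / a ^ 2 + 4 * w ^ 12 / a + 2) ≤
        2 * a * (24 * w ^ 18 / a ^ 2 + 4 * w ^ 12 / a + 2) := by
      gcongr
    have e5 : 2 * (a : ℝ) * (24 * w ^ 18 / a ^ 2 + 4 * w ^ 12 / a + 2) =
        48 * w ^ 18 * (1 / a) + 8 * w ^ 12 + 4 * a := by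
      field_simp
      ring
    have e6 : 48 * w ^ 18 * (1 / (a : ℝ)) ≤ 48 * w ^ 20 * (1 / a) := by
      have h9 : w ^ 18 ≤ w ^ 20 := pow_le_pow_right₀ hw (by norm_num)
      gcongr
    have e7 : 18 * w ^ 20 * (1 / (a : ℝ)) + 48 * w ^ 20 * (1 / a) = 66 * w ^ 20 * (1 / (a : ℝ)) := by
      ring
    linarith
  have s5 := Finset.sum_le_sum s4
  rw [Finset.sum_add_distrib, Finset.sum_add_distrib, ← Finset.mul_sum, ← Finset.mul_sum,
    Finset.sum_const, nsmul_eq_mul] at s5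
  have s6 := asum T1 hM hw had ha1 ha2
  obtain ⟨s7, s8⟩ := inv_sum T1 hw ha1 ha2
  have s9 : 2 / (M : ℝ) ^ 3 * ∑ a ∈ T1, Im w a / (a : ℝ) ^ 2 ≤ 6 * w ^ 24 / M ^ 4 + 36 * w ^ 20 := by
    calc 2 / (M : ℝ) ^ 3 * ∑ a ∈ T1, Im w a / (a : ℝ) ^ 2
        ≤ 2 / (M : ℝ) ^ 3 * (3 * w ^ 24 / M + 18 * w ^ 20) := by gcongr
      _ = 6 * w ^ 24 / M ^ 4 + 36 * w ^ 20 / M ^ 3 := by field_simp; ring
      _ ≤ 6 * w ^ 24 / M ^ 4 + 36 * w ^ 20 := by
          have : 36 * w ^ 20 / (M : ℝ) ^ 3 ≤ 36 * w ^ 20 :=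
            div_le_self (by positivity) (one_le_pow₀ hM1)
          linarith
  have s10 : 66 * w ^ 20 * ∑ a ∈ T1, 1 / (a : ℝ) ≤ 66 * w ^ 20 * (4 * w ^ 3) := by gcongr
  have s11 : (T1.card : ℝ) * (8 * w ^ 12 + 12 * w ^ 6) ≤ 3 * w ^ 6 * (8 * w ^ 12 + 12 * w ^ 6) := by
    gcongr
  have p1 : w ^ 20 ≤ w ^ 23 := pow_le_pow_right₀ hw (by norm_num)
  have p2 : w ^ 18 ≤ w ^ 23 := pow_le_pow_right₀ hw (by norm_num)
  have p3 : w ^ 12 ≤ w ^ 23 := pow_le_pow_right₀ hw (by norm_num)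
  have p4 : 66 * w ^ 20 * (4 * w ^ 3) = 264 * w ^ 23 := by ring
  have p5 : 3 * w ^ 6 * (8 * w ^ 12 + 12 * w ^ 6) = 24 * w ^ 18 + 36 * w ^ 12 := by ring
  have p6 : 0 < w ^ 23 := by positivity
  linarith

end Pool.Agent.Helper725_DH
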