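import Mathlib

/-! Integral basis `1, w` of a quadratic field. -/

set_option autoImplicit false

namespace Pool.Agent.Helper725_DH

open NumberField

/-- an integral basis `1, w` of a quadratic field, with coordinates `U`, `V` -/
structure QB (K : Type) [Field K] [NumberField K] where
  w : 𝓞 K
  T : ℤ
  n : ℤ
  U : 𝓞 K →+ ℤ
  V : 𝓞 K →+ ℤ
  hw : w * w = (T : 𝓞 K) * w - (n : 𝓞 K)
  rep : ∀ x, x = (U x : 𝓞 K) + (V x : 𝓞 K) * w
  hU : ∀ u v : ℤ, U ((u : 𝓞 K) + (v : 𝓞 K) * w) = u
  hV : ∀ u v : ℤ, V ((u : 𝓞 K) + (v : 𝓞 K) * w) = v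
  hN : ∀ u v : ℤ, Algebra.norm ℤ ((u : 𝓞 K) + (v : 𝓞 K) * w) = u ^ 2 + T * u * v + n * v ^ 2
  hD : discr K = T ^ 2 - 4 * n

variable {K : Type} [Field K] [NumberField K]

/-- integral basis `1, w` -/
theorem exists_basis (h2 : Module.finrank ℚ K = 2) :
    ∃ (B : Module.Basis (Fin 2) ℤ (𝓞 K)), B 0 = 1 := by
  have hr : Module.finrank ℤ (𝓞 K) = 2 := by rw [NumberField.RingOfIntegers.rank, h2]
  let b := Module.finBasisOfFinrankEq ℤ (𝓞 K) hr
  obtain ⟨m, n, hmn⟩ : ∃ m n : ℤ, (1 : 𝓞 K) = m • b 0 + n • b 1 := ⟨b.repr 1 0, b.repr 1 1, by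
    rw [← Fin.sum_univ_two (fun i => b.repr 1 i • b i)]; exact (b.sum_repr 1).symm⟩
  have hg : IsCoprime m n := by
    rw [Int.isCoprime_iff_gcd_eq_one]
    obtain ⟨m', hm'⟩ := Int.gcd_dvd_left (a := m) (b := n)
    obtain ⟨n', hn'⟩ := Int.gcd_dvd_right (a := m) (b := n)
    set g : ℤ := (Int.gcd m n : ℤ) with hgdef
    have h1 : algebraMap ℤ (𝓞 K) g * (m' • b 0 + n' • b 1) = 1 := by
      rw [hmn]
      conv_rhs => rw [hm', hn']
      rw [mul_smul, mul_smul, ← smul_add, Algebra.smul_def g]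
    have h3 : g ^ 2 * Algebra.norm ℤ (m' • b 0 + n' • b 1) = 1 := by
      have h := congrArg (Algebra.norm ℤ) h1
      rw [map_mul, Algebra.norm_algebraMap, hr] at h
      rw [h]
      exact map_one (Algebra.norm ℤ)
    have h4 : IsUnit g := isUnit_of_dvd_one ⟨g * Algebra.norm ℤ (m' • b 0 + n' • b 1), by
      rw [← h3]; ring⟩
    rcases Int.isUnit_iff.1 h4 with h | h
    · rw [hgdef] at h
      exact_mod_cast h
    · omega
  obtain ⟨x, y, hxy⟩ := hg
  set w : 𝓞 K := (-y) • b 0 + x • b 1 with hw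
  have hli : LinearIndependent ℤ ![(1 : 𝓞 K), w] := by
    rw [LinearIndependent.pair_iff]
    intro s t hst
    have hb := b.linearIndependent
    have h5 : (s * m - t * y) • b 0 + (s * n + t * x) • b 1 = 0 := by
      rw [hmn, hw] at hst
      rw [← hst]
      module
    have h6 := Fintype.linearIndependent_iff.1 hb ![s * m - t * y, s * n + t * x] (by
      rw [Fin.sum_univ_two]; simpa using h5)
    have h7 := h6 0
    have h8 := h6 1
    simp only [Matrix.cons_val_zero, Matrix.cons_val_one] at h7 h8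
    constructor
    · linear_combination x * h7 + y * h8 - s * hxy
    · linear_combination (-n) * h7 + m * h8 - t * hxy
  have hsp : ⊤ ≤ Submodule.span ℤ (Set.range ![(1 : 𝓞 K), w]) := by
    intro z _
    have hz : z = (b.repr z 0) • b 0 + (b.repr z 1) • b 1 := by
      rw [← Fin.sum_univ_two (fun i => b.repr z i • b i)]; exact (b.sum_repr z).symm
    set s := b.repr z 0
    set t := b.repr z 1
    have hz2 : z = (s * x + t * y) • (1 : 𝓞 K) + (m * t - n * s) • w := by
      rw [hz, hmn, hw]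
      have e1 : s = (s * x + t * y) * m + (m * t - n * s) * (-y) := by
        linear_combination -s * hxy
      have e2 : t = (s * x + t * y) * n + (m * t - n * s) * x := by
        linear_combination -t * hxy
      conv_lhs => rw [e1, e2]
      module
    rw [hz2]
    refine Submodule.add_mem _ (Submodule.smul_mem _ _ (Submodule.subset_span ⟨0, rfl⟩))
      (Submodule.smul_mem _ _ (Submodule.subset_span ⟨1, rfl⟩))
  refine ⟨Module.Basis.mk hli hsp, ?_⟩
  rw [Module.Basis.mk_apply]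
  rfl

theorem exists_QB (h2 : Module.finrank ℚ K = 2) : Nonempty (QB K) := by
  obtain ⟨B, hB⟩ := exists_basis h2
  have coords : ∀ x : 𝓞 K, x = (B.repr x 0 : 𝓞 K) + (B.repr x 1 : 𝓞 K) * B 1 := by
    intro x
    conv_lhs => rw [← B.sum_repr x, Fin.sum_univ_two, hB]
    rw [zsmul_one, zsmul_eq_mul]
  obtain ⟨a, b, hww⟩ : ∃ a b : ℤ, B 1 * B 1 = (b : 𝓞 K) + (a : 𝓞 K) * B 1 :=
    ⟨_, _, coords (B 1 * B 1)⟩
  have hrepr : ∀ u v : ℤ, B.repr ((u : 𝓞 K) + (v : 𝓞 K) * B 1) 0 = u ∧
      B.repr ((u : 𝓞 K) + (v : 𝓞 K) * B 1) 1 = v := by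
    intro u v
    have e : (u : 𝓞 K) + (v : 𝓞 K) * B 1 = u • B 0 + v • B 1 := by
      rw [hB, zsmul_one, zsmul_eq_mul]
    rw [e, map_add, map_smul, map_smul, B.repr_self, B.repr_self]
    constructor <;> simp
  have hM : ∀ s t : ℤ, Algebra.leftMulMatrix B ((s : 𝓞 K) + (t : 𝓞 K) * B 1) =
      !![s, t * b; t, s + t * a] := by
    intro s t
    ext i j
    rw [Algebra.leftMulMatrix_eq_repr_mul]
    have e0 : ((s : 𝓞 K) + (t : 𝓞 K) * B 1) * B 0 = s • B 0 + t • B 1 := by
      rw [hB, zsmul_one, zsmul_eq_mul, mul_one]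
    have e1 : ((s : 𝓞 K) + (t : 𝓞 K) * B 1) * B 1 = (t * b) • B 0 + (s + t * a) • B 1 := by
      rw [hB, zsmul_one, zsmul_eq_mul]
      push_cast
      linear_combination (t : 𝓞 K) * hww
    fin_cases j
    · change B.repr (_ * B 0) i = _
      rw [e0, map_add, map_smul, map_smul, B.repr_self, B.repr_self]
      fin_cases i <;> simp
    · change B.repr (_ * B 1) i = _
      rw [e1, map_add, map_smul, map_smul, B.repr_self, B.repr_self]
      fin_cases i <;> simp
  have htr : ∀ s t : ℤ, Algebra.trace ℤ (𝓞 K) ((s : 𝓞 K) + (t : 𝓞 K) * B 1) = 2 * s + t * a := by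
    intro s t
    rw [Algebra.trace_eq_matrix_trace B, hM, Matrix.trace_fin_two_of]
    ring
  have hdisc : discr K = a ^ 2 + 4 * b := by
    rw [← NumberField.discr_eq_discr K B, Algebra.discr_def, Matrix.det_fin_two]
    simp only [Algebra.traceMatrix_apply, Algebra.traceForm_apply]
    rw [hB, mul_one, mul_one, one_mul, hww, htr]
    have h1 := htr 1 0
    have h3 := htr 0 1
    simp only [Int.cast_one, Int.cast_zero, zero_mul, add_zero, mul_one, one_mul, zero_add,
      mul_zero] at h1 h3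
    rw [h1, h3]
    ring
  refine ⟨{ w := B 1, T := a, n := -b,
            U := AddMonoidHom.mk' (fun x => B.repr x 0) (by intro x y; simp),
            V := AddMonoidHom.mk' (fun x => B.repr x 1) (by intro x y; simp),
            hw := ?_, rep := ?_, hU := ?_, hV := ?_, hN := ?_, hD := ?_ }⟩
  · rw [hww]; push_cast; ring
  · intro x; exact coords x
  · intro u v; exact (hrepr u v).1
  · intro u v; exact (hrepr u v).2
  · intro u v
    rw [Algebra.norm_eq_matrix_det B, hM, Matrix.det_fin_two_of]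
    ring
  · rw [hdisc]; ring

end Pool.Agent.Helper725_DH
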