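import Mathlib

/-! Sums of unimodal functions over separated sets. -/

set_option autoImplicit false

namespace Pool.Agent.Helper725_DH

open MeasureTheory Set

theorem mono_aux {f : ℝ → ℝ} {A q : ℝ} (hq : 0 < q) (P : Finset ℝ) :
    (∀ x ∈ P, ∀ y ∈ P, x < y → x + q ≤ y) → ∀ B : ℝ, A ≤ B → (∀ x ∈ P, A ≤ x ∧ x + q ≤ B) →
    MonotoneOn f (Icc A B) → (∀ x ∈ Icc A B, 0 ≤ f x) →
    q * ∑ x ∈ P, f x ≤ ∫ x in A..B, f x := by
  induction P using Finset.induction_on_max with
  | empty =>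
    intro _ B hAB _ hm h0
    simp only [Finset.sum_empty, mul_zero]
    exact intervalIntegral.integral_nonneg hAB h0
  | insert x P hx ih =>
    intro hsep B hAB hP hm h0
    have hxP : x ∉ P := fun h => lt_irrefl _ (hx x h)
    have hxA := (hP x (Finset.mem_insert_self _ _)).1
    have hxB := (hP x (Finset.mem_insert_self _ _)).2
    have h1 := ih (fun y hy z hz => hsep y (Finset.mem_insert_of_mem hy) z
      (Finset.mem_insert_of_mem hz)) x hxA (fun y hy => ⟨(hP y (Finset.mem_insert_of_mem hy)).1,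
        hsep y (Finset.mem_insert_of_mem hy) x (Finset.mem_insert_self _ _) (hx y hy)⟩)
      (hm.mono (Icc_subset_Icc_right (by linarith))) (fun y hy => h0 y ⟨hy.1, by linarith [hy.2]⟩)
    have hi : ∀ a b : ℝ, A ≤ a → a ≤ b → b ≤ B → IntervalIntegrable f volume a b := by
      intro a b ha hab hb
      apply MonotoneOn.intervalIntegrable
      rw [uIcc_of_le hab]
      exact hm.mono (Icc_subset_Icc ha hb)
    have h2 : q * f x ≤ ∫ y in x..(x + q), f y := by
      have h3 : ∫ y in x..(x + q), f x ≤ ∫ y in x..(x + q), f y := by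
        apply intervalIntegral.integral_mono_on (by linarith) (by simp)
          (hi x (x + q) hxA (by linarith) hxB)
        intro y hy
        exact hm ⟨hxA, by linarith⟩ ⟨by linarith [hy.1], by linarith [hy.2]⟩ hy.1
      rw [intervalIntegral.integral_const, smul_eq_mul] at h3
      have : x + q - x = q := by ring
      rwa [this] at h3
    have h4 : 0 ≤ ∫ y in (x + q)..B, f y :=
      intervalIntegral.integral_nonneg hxB (fun y hy => h0 y ⟨by linarith [hy.1], hy.2⟩)
    have h5 : ∫ y in A..B, f y = (∫ y in A..x, f y) + (∫ y in x..(x + q), f y) +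
        ∫ y in (x + q)..B, f y := by
      rw [intervalIntegral.integral_add_adjacent_intervals (hi _ _ le_rfl hxA (by linarith))
        (hi _ _ hxA (by linarith) hxB),
        intervalIntegral.integral_add_adjacent_intervals (hi _ _ le_rfl (by linarith) (by linarith))
        (hi _ _ (by linarith) hxB le_rfl)]
    rw [Finset.sum_insert hxP, mul_add, h5]
    linarith

theorem mono_sum {f : ℝ → ℝ} {A B q F : ℝ} (hq : 0 < q) (hAB : A ≤ B) (P : Finset ℝ)
    (hsep : ∀ x ∈ P, ∀ y ∈ P, x < y → x + q ≤ y) (hP : ∀ x ∈ P, x ∈ Icc A B)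
    (hm : MonotoneOn f (Icc A B)) (h0 : ∀ x ∈ Icc A B, 0 ≤ f x) (hF : ∀ x ∈ Icc A B, f x ≤ F) :
    ∑ x ∈ P, f x ≤ (∫ x in A..B, f x) / q + F := by
  have hint : 0 ≤ ∫ x in A..B, f x := intervalIntegral.integral_nonneg hAB h0
  have hF0 : 0 ≤ F := (h0 A ⟨le_rfl, hAB⟩).trans (hF A ⟨le_rfl, hAB⟩)
  induction P using Finset.induction_on_max with
  | empty =>
    simp only [Finset.sum_empty]
    positivity
  | insert x P hx ih =>
    have hxP : x ∉ P := fun h => lt_irrefl _ (hx x h)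
    have hxI := hP x (Finset.mem_insert_self _ _)
    have h1 := mono_aux (f := f) (A := A) hq P (fun y hy z hz => hsep y
      (Finset.mem_insert_of_mem hy) z (Finset.mem_insert_of_mem hz)) B hAB
      (fun y hy => ⟨(hP y (Finset.mem_insert_of_mem hy)).1,
        (hsep y (Finset.mem_insert_of_mem hy) x (Finset.mem_insert_self _ _) (hx y hy)).trans
        hxI.2⟩) hm h0
    rw [Finset.sum_insert hxP]
    have h2 : ∑ y ∈ P, f y ≤ (∫ x in A..B, f x) / q := by
      rw [le_div_iff₀ hq]; linarith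
    linarith [hF x hxI]

theorem anti_sum {f : ℝ → ℝ} {A B q F : ℝ} (hq : 0 < q) (hAB : A ≤ B) (P : Finset ℝ)
    (hsep : ∀ x ∈ P, ∀ y ∈ P, x < y → x + q ≤ y) (hP : ∀ x ∈ P, x ∈ Icc A B)
    (hm : AntitoneOn f (Icc A B)) (h0 : ∀ x ∈ Icc A B, 0 ≤ f x) (hF : ∀ x ∈ Icc A B, f x ≤ F) :
    ∑ x ∈ P, f x ≤ (∫ x in A..B, f x) / q + F := by
  have h := mono_sum (f := fun x => f (-x)) (A := -B) (B := -A) (q := q) (F := F) hq
    (by linarith) (P.image (fun x => -x)) ?_ ?_ ?_ ?_ ?_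
  · rw [Finset.sum_image (by intro x _ y _ h; exact neg_injective h)] at h
    simp only [neg_neg] at h
    rw [intervalIntegral.integral_comp_neg] at h
    simpa using h
  · intro x hx y hy hxy
    rw [Finset.mem_image] at hx hy
    obtain ⟨x', hx', rfl⟩ := hx
    obtain ⟨y', hy', rfl⟩ := hy
    have := hsep y' hy' x' hx' (by linarith)
    linarith
  · intro x hx
    rw [Finset.mem_image] at hx
    obtain ⟨x', hx', rfl⟩ := hx
    have := hP x' hx'
    exact ⟨by linarith [this.2], by linarith [this.1]⟩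
  · intro x hx y hy hxy
    exact hm ⟨by linarith [hy.2], by linarith [hy.1]⟩ ⟨by linarith [hx.2], by linarith [hx.1]⟩
      (by linarith)
  · intro x hx
    exact h0 _ ⟨by linarith [hx.2], by linarith [hx.1]⟩
  · intro x hx
    exact hF _ ⟨by linarith [hx.2], by linarith [hx.1]⟩

theorem uni_sum {f : ℝ → ℝ} {A B q F p : ℝ} (hq : 0 < q) (hAB : A ≤ B) (P : Finset ℝ)
    (hsep : ∀ x ∈ P, ∀ y ∈ P, x < y → x + q ≤ y) (hP : ∀ x ∈ P, x ∈ Icc A B)
    (hm : MonotoneOn f (Icc A B ∩ Iic p)) (ha : AntitoneOn f (Icc A B ∩ Ici p))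
    (h0 : ∀ x ∈ Icc A B, 0 ≤ f x) (hF : ∀ x ∈ Icc A B, f x ≤ F) :
    ∑ x ∈ P, f x ≤ (∫ x in A..B, f x) / q + 2 * F := by
  have hF0 : 0 ≤ F := (h0 A ⟨le_rfl, hAB⟩).trans (hF A ⟨le_rfl, hAB⟩)
  rcases le_or_gt p A with hpA | hpA
  · have := anti_sum (F := F) hq hAB P hsep hP (ha.mono (fun x hx => ⟨hx, hpA.trans hx.1⟩)) h0 hF
    linarith
  rcases le_or_gt B p with hpB | hpB
  · have := mono_sum (F := F) hq hAB P hsep hP (hm.mono (fun x hx => ⟨hx, hx.2.trans hpB⟩)) h0 hF
    linarith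
  have hm' : MonotoneOn f (Icc A p) := hm.mono (fun x hx => ⟨⟨hx.1, hx.2.trans hpB.le⟩, hx.2⟩)
  have ha' : AntitoneOn f (Icc p B) := ha.mono (fun x hx => ⟨⟨hpA.le.trans hx.1, hx.2⟩, hx.1⟩)
  have h1 := mono_sum (F := F) hq hpA.le (P.filter (fun x => x ≤ p))
    (fun x hx y hy => hsep x (Finset.mem_filter.1 hx).1 y (Finset.mem_filter.1 hy).1)
    (fun x hx => ⟨(hP x (Finset.mem_filter.1 hx).1).1, (Finset.mem_filter.1 hx).2⟩) hm'
    (fun x hx => h0 x ⟨hx.1, hx.2.trans hpB.le⟩) (fun x hx => hF x ⟨hx.1, hx.2.trans hpB.le⟩)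
  have h2 := anti_sum (F := F) hq hpB.le (P.filter (fun x => ¬ x ≤ p))
    (fun x hx y hy => hsep x (Finset.mem_filter.1 hx).1 y (Finset.mem_filter.1 hy).1)
    (fun x hx => ⟨(not_le.1 (Finset.mem_filter.1 hx).2).le,
      (hP x (Finset.mem_filter.1 hx).1).2⟩) ha'
    (fun x hx => h0 x ⟨hpA.le.trans hx.1, hx.2⟩) (fun x hx => hF x ⟨hpA.le.trans hx.1, hx.2⟩)
  rw [← Finset.sum_filter_add_sum_filter_not P (fun x => x ≤ p)]
  have hi1 : IntervalIntegrable f volume A p := by
    apply MonotoneOn.intervalIntegrable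
    rwa [uIcc_of_le hpA.le]
  have hi2 : IntervalIntegrable f volume p B := by
    apply AntitoneOn.intervalIntegrable
    rwa [uIcc_of_le hpB.le]
  rw [← intervalIntegral.integral_add_adjacent_intervals hi1 hi2, add_div]
  linarith

end Pool.Agent.Helper725_DH
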