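import Pool.Agent.Helper725_DH.Tup

/-! From ideal classes of order three to binary cubic forms, continued. -/

set_option autoImplicit false

namespace Pool.Agent.Helper725_DH

open NumberField
open scoped nonZeroDivisors

variable {K : Type} [Field K] [NumberField K]

namespace QB

variable (q : QB K)

theorem ideal_pow_inj {I J : Ideal (𝓞 K)} (h : I ^ 3 = J ^ 3) : I = J := by
  apply dvd_antisymm
  · exact (UniqueFactorizationMonoid.pow_dvd_pow_iff_dvd (by norm_num : (3 : ℕ) ≠ 0)).1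
      (dvd_of_eq h)
  · exact (UniqueFactorizationMonoid.pow_dvd_pow_iff_dvd (by norm_num : (3 : ℕ) ≠ 0)).1
      (dvd_of_eq h.symm)

theorem bar_UV (e : ℤ) (x : 𝓞 K) : q.U (q.bar e * x) = (e + q.T) * q.U x + q.n * q.V x ∧
    q.V (q.bar e * x) = e * q.V x - q.U x := by
  have h := q.mulUV (e + q.T) (-1) x
  unfold bar
  refine ⟨?_, ?_⟩
  · rw [h.1]; ring
  · rw [h.2]; ring

theorem norm_eq (hneg : q.T ^ 2 - 4 * q.n < 0) {I : Ideal (𝓞 K)} {β : 𝓞 K}
    (hβ : I ^ 3 = Ideal.span {β}) :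
    q.U β ^ 2 + q.T * q.U β * q.V β + q.n * q.V β ^ 2 = (Ideal.absNorm I : ℤ) ^ 3 := by
  have h1 : Ideal.absNorm I ^ 3 = (Algebra.norm ℤ β).natAbs := by
    rw [← map_pow, hβ, Ideal.absNorm_span_singleton]
  have h2 := q.norm_UV β
  have h3 : 0 ≤ Algebra.norm ℤ β := by
    rw [h2]
    nlinarith [sq_nonneg (2 * q.U β + q.T * q.V β), sq_nonneg (q.V β)]
  rw [← h2]
  have h4 : ((Algebra.norm ℤ β).natAbs : ℤ) = Algebra.norm ℤ β := Int.natAbs_of_nonneg h3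
  rw [← h4, ← h1]
  push_cast; ring

theorem V_ne_zero (hneg : q.T ^ 2 - 4 * q.n < 0) {I : Ideal (𝓞 K)} (hI : I ≠ ⊥) {η : 𝓞 K}
    (hη : η ∈ I) (h1 : q.V η = 1) {β : 𝓞 K} (hβ : I ^ 3 = Ideal.span {β})
    (hnp : ¬ I.IsPrincipal) : q.V β ≠ 0 := by
  intro h0
  apply hnp
  have hm := absNorm_cast hI
  have hβm : β ∈ I ^ (2 + 1) := by
    show β ∈ I ^ 3
    rw [hβ]; exact Ideal.mem_span_singleton_self _
  obtain ⟨y, -, hy⟩ := q.bar_pow hη h1 2 hβm
  have hV := (q.bar_UV (q.U η) β).2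
  rw [hy, q.V_mulInt, h0] at hV
  have hN := q.norm_eq hneg hβ
  rw [h0] at hN
  set m : ℤ := (Ideal.absNorm I : ℤ)
  set v : ℤ := q.V y
  have hU : q.U β = -(m * v) := by linarith
  rw [hU] at hN
  have hmv : v ^ 2 = m := by
    apply mul_left_cancel₀ (pow_ne_zero 2 hm)
    linear_combination hN
  have hβ2 : β = ((-v : ℤ) : 𝓞 K) ^ 3 := by
    have e1 := q.rep β
    rw [hU, h0, ← hmv] at e1
    rw [e1]
    push_cast
    ring
  have h5 : I = Ideal.span {((-v : ℤ) : 𝓞 K)} := by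
    apply ideal_pow_inj
    rw [hβ, hβ2, Ideal.span_singleton_pow]
  rw [h5]
  exact ⟨⟨_, rfl⟩⟩

/-- the tuple attached to a primitive ideal of order three -/
theorem tuple_of (hneg : q.T ^ 2 - 4 * q.n < 0) {I : Ideal (𝓞 K)} (hI : I ≠ ⊥) {η : 𝓞 K}
    (hη : η ∈ I) (h1 : q.V η = 1) {β : 𝓞 K} (hβ : I ^ 3 = Ideal.span {β})
    (hnp : ¬ I.IsPrincipal) :
    ∃ a b c d e : ℤ, 0 < a ∧ 0 ≤ b ∧ b < a ∧ b ^ 2 - a * c = (Ideal.absNorm I : ℤ) ∧
      disc4 a b c d = q.T ^ 2 - 4 * q.n ∧ b * c - a * d = 2 * e + q.T ∧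
      I ^ 3 = Ideal.span {((e * a - (b ^ 2 - a * c) * b : ℤ) : 𝓞 K) + (a : 𝓞 K) * q.w} := by
  -- make the sign positive
  wlog hpos : 0 < q.V β generalizing β with H
  · have h0 := q.V_ne_zero hneg hI hη h1 hβ hnp
    refine H (β := -β) ?_ ?_
    · rw [hβ, Ideal.span_singleton_neg]
    · rw [map_neg]; omega
  have hm := absNorm_cast hI
  have hβm : β ∈ I ^ (2 + 1) := by
    show β ∈ I ^ 3
    rw [hβ]; exact Ideal.mem_span_singleton_self _
  have hmI : ((Ideal.absNorm I : ℤ) : 𝓞 K) ∈ I := by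
    have := Ideal.absNorm_mem I
    simpa using this
  obtain ⟨y0, -, hy0⟩ := q.bar_pow hη h1 2 hβm
  have hV0 := (q.bar_UV (q.U η) β).2
  rw [hy0, q.V_mulInt] at hV0
  have hN := q.norm_eq hneg hβ
  set m : ℤ := (Ideal.absNorm I : ℤ) with hmdef
  set a : ℤ := q.V β with ha
  set k : ℤ := -(q.V y0 / a) with hk
  -- the new generator
  set η' : 𝓞 K := η + ((m * k : ℤ) : 𝓞 K) with hη'
  have hη'I : η' ∈ I := by
    rw [hη']
    refine I.add_mem hη ?_
    push_cast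
    exact I.mul_mem_right _ (by exact_mod_cast hmI)
  have hη'1 : q.V η' = 1 := by rw [hη', map_add, h1, V_int]; ring
  have hη'U : q.U η' = q.U η + m * k := by rw [hη', map_add, U_int]
  obtain ⟨y1, hy1m, hy1⟩ := q.bar_pow hη'I hη'1 2 hβm
  obtain ⟨y2, hy2m, hy2⟩ := q.bar_pow hη'I hη'1 1 hy1m
  obtain ⟨y3, -, hy3⟩ := q.bar_pow hη'I hη'1 0 hy2m
  have k1 := q.bar_UV (q.U η') β
  have k2 := q.bar_UV (q.U η') y1
  have k3 := q.bar_UV (q.U η') y2
  rw [hy1, q.V_mulInt, q.U_mulInt] at k1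
  rw [hy2, q.V_mulInt, q.U_mulInt] at k2
  rw [hy3, q.V_mulInt, q.U_mulInt] at k3
  have hNI : ((q.U η' ^ 2 + q.U η' * q.T + q.n : ℤ) : 𝓞 K) ∈ I := by
    rw [← q.bar_mul hη'1]
    exact I.mul_mem_left _ hη'I
  obtain ⟨Q, hQ⟩ := q.int_mem hη'I hη'1 _ hNI
  have key := alg_key (e := q.U η') (T := q.T) (n := q.n) (m := m) (Q := Q) (a := a)
    (b := q.V y1) (c := q.V y2) (d := q.V y3) (u0 := q.U β) (u1 := q.U y1) (u2 := q.U y2)
    hm hQ k1.2 k2.2 k3.2 (by linarith [k1.1]) (by linarith [k2.1]) hN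
  have hb : q.V y1 = q.V y0 % a := by
    have e1 : m * q.V y1 = m * (q.V y0 + k * a) := by
      have := k1.2
      rw [hη'U] at this
      linear_combination this - hV0
    have e2 := mul_left_cancel₀ hm e1
    rw [e2, hk, Int.emod_def]; ring
  refine ⟨a, q.V y1, q.V y2, q.V y3, q.U η', hpos, ?_, ?_, key.1, ?_, key.2.1, ?_⟩
  · rw [hb]; exact Int.emod_nonneg _ hpos.ne'
  · rw [hb]; exact Int.emod_lt_of_pos _ hpos
  · unfold disc4
    rw [key.1, key.2.1, key.2.2]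
    linear_combination 4 * hQ
  · rw [hβ]
    congr 2
    apply q.ext'
    · rw [q.hU, key.1]
      linarith [k1.2]
    · rw [q.hV]

theorem exists_prim (c : ClassGroup (𝓞 K)) :
    ∃ I : (Ideal (𝓞 K))⁰, ClassGroup.mk0 I = c ∧
      (Ideal.absNorm (I : Ideal (𝓞 K)) : ℝ) ≤ (4 / Real.pi) ^ InfinitePlace.nrComplexPlaces K *
        ((Module.finrank ℚ K).factorial / (Module.finrank ℚ K : ℝ) ^ Module.finrank ℚ K *
          √|(discr K : ℝ)|) ∧ ∃ η ∈ (I : Ideal (𝓞 K)), q.V η = 1 := by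
  classical
  have hex : ∃ n : ℕ, ∃ I : (Ideal (𝓞 K))⁰, ClassGroup.mk0 I = c ∧
      Ideal.absNorm (I : Ideal (𝓞 K)) = n := by
    obtain ⟨I, hI⟩ := ClassGroup.mk0_surjective c
    exact ⟨_, I, hI, rfl⟩
  obtain ⟨I, hI, hIn⟩ := Nat.find_spec hex
  have hmin : ∀ J : (Ideal (𝓞 K))⁰, ClassGroup.mk0 J = c →
      Ideal.absNorm (I : Ideal (𝓞 K)) ≤ Ideal.absNorm (J : Ideal (𝓞 K)) := by
    intro J hJ
    rw [hIn]
    exact Nat.find_min' hex ⟨J, hJ, rfl⟩
  refine ⟨I, hI, ?_, ?_⟩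
  · obtain ⟨J, hJ, hJb⟩ := NumberField.exists_ideal_in_class_of_norm_le c
    refine le_trans ?_ hJb
    exact_mod_cast hmin J hJ
  · -- the ideal of coordinates
    have hI0 : (I : Ideal (𝓞 K)) ≠ ⊥ := nonZeroDivisors.ne_zero I.2
    obtain ⟨k, hk⟩ := Int.subgroup_cyclic
      (AddSubgroup.map q.V (Submodule.toAddSubgroup (I : Ideal (𝓞 K))))
    have hdvd : ∀ z ∈ (I : Ideal (𝓞 K)), k ∣ q.V z := by
      intro z hz
      have : q.V z ∈ AddSubgroup.map q.V (Submodule.toAddSubgroup (I : Ideal (𝓞 K))) :=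
        AddSubgroup.mem_map_of_mem _ hz
      rw [hk, ← AddSubgroup.zmultiples_eq_closure, Int.mem_zmultiples_iff] at this
      exact this
    have hdvdU : ∀ z ∈ (I : Ideal (𝓞 K)), k ∣ q.U z := by
      intro z hz
      have h1 := hdvd _ ((I : Ideal (𝓞 K)).mul_mem_left (((0 : ℤ) : 𝓞 K) + ((1 : ℤ) : 𝓞 K) * q.w) hz)
      rw [(q.mulUV 0 1 z).2] at h1
      have h2 := hdvd z hz
      have h3 : q.U z = (0 * q.V z + 1 * q.U z + 1 * q.V z * q.T) - q.V z * q.T := by ring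
      rw [h3]
      exact dvd_sub h1 (Dvd.dvd.mul_right h2 _)
    obtain ⟨z0, hz0, hz0k⟩ : ∃ z ∈ (I : Ideal (𝓞 K)), q.V z = k := by
      have : k ∈ AddSubgroup.map q.V (Submodule.toAddSubgroup (I : Ideal (𝓞 K))) := by
        rw [hk]; exact AddSubgroup.subset_closure rfl
      obtain ⟨z, hz, h⟩ := this
      exact ⟨z, hz, h⟩
    have hk0 : k ≠ 0 := by
      rintro rfl
      apply hI0
      rw [eq_bot_iff]
      intro z hz
      rw [Ideal.mem_bot]
      apply q.ext'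
      · rw [zero_dvd_iff.1 (hdvdU z hz), map_zero]
      · rw [zero_dvd_iff.1 (hdvd z hz), map_zero]
    have hle : (I : Ideal (𝓞 K)) ≤ Ideal.span {(k : 𝓞 K)} := by
      intro z hz
      obtain ⟨u, hu⟩ := hdvdU z hz
      obtain ⟨v, hv⟩ := hdvd z hz
      rw [Ideal.mem_span_singleton]
      refine ⟨(u : 𝓞 K) + (v : 𝓞 K) * q.w, ?_⟩
      rw [q.rep z, hu, hv]
      push_cast; ring
    obtain ⟨J, hJ⟩ := Ideal.dvd_iff_le.2 hle
    have hJ0 : J ≠ ⊥ := by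
      rintro rfl
      apply hI0
      rw [hJ]; simp
    set J' : (Ideal (𝓞 K))⁰ := ⟨J, mem_nonZeroDivisors_of_ne_zero hJ0⟩ with hJ'
    have hkK : (k : 𝓞 K) ≠ 0 := by exact_mod_cast hk0
    have hclass : ClassGroup.mk0 J' = c := by
      rw [← hI, ClassGroup.mk0_eq_mk0_iff]
      refine ⟨(k : 𝓞 K), 1, hkK, one_ne_zero, ?_⟩
      rw [Ideal.span_singleton_one, Ideal.top_mul, hJ]
    have hmin' := hmin J' hclass
    have hnk : Ideal.absNorm (Ideal.span {(k : 𝓞 K)}) = (k ^ 2).natAbs := by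
      rw [Ideal.absNorm_span_singleton]
      have := q.hN k 0
      simp only [Int.cast_zero, zero_mul, add_zero, mul_zero] at this
      rw [this]
      congr 1
      ring
    rw [hJ, map_mul, hnk] at hmin'
    have hJpos : 0 < Ideal.absNorm J := Nat.pos_of_ne_zero
      (Ideal.absNorm_ne_zero_of_nonZeroDivisors J')
    have hk1 : (k ^ 2).natAbs ≤ 1 := by
      have h4 : (k ^ 2).natAbs * Ideal.absNorm J ≤ 1 * Ideal.absNorm J := by
        rw [one_mul]; exact hmin'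
      exact Nat.le_of_mul_le_mul_right h4 hJpos
    have hk2 : k ^ 2 ≤ 1 := by
      have h5 : ((k ^ 2).natAbs : ℤ) ≤ 1 := by exact_mod_cast hk1
      rwa [Int.natAbs_of_nonneg (sq_nonneg k)] at h5
    have hk3 : k = 1 ∨ k = -1 := by
      have : -1 ≤ k ∧ k ≤ 1 := by constructor <;> nlinarith
      omega
    rcases hk3 with h | h
    · exact ⟨z0, hz0, by rw [hz0k, h]⟩
    · refine ⟨-z0, neg_mem hz0, by rw [map_neg, hz0k, h]; ring⟩

end QB

end Pool.Agent.Helper725_DH
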